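import Mathlib

/-!
# Project HDI (MP_be5eee_co): definitions

Incidences between points of a Cartesian product and half-dimensional real
algebraic surfaces in `ℝ ^ (2 e)`.
-/

namespace HDI

open MvPolynomial

/-- The gradient of the polynomial `f` at the point `x`. -/
noncomputable def grad {ι : Type*} (x : ι → ℝ) (f : MvPolynomial ι ℝ) : ι → ℝ :=
  fun i => eval x (pderiv i f)

/-- The gradient at `x` as a linear map. -/
noncomputable def gradL {ι : Type*} (x : ι → ℝ) : MvPolynomial ι ℝ →ₗ[ℝ] (ι → ℝ) where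
  toFun f := grad x f
  map_add' f g := by
    funext i
    simp [grad]
  map_smul' c f := by
    funext i
    simp [grad, smul_eval]

/-- The polynomials of degree at most `C` vanishing on `S`. -/
def van {n : ℕ} (C : ℕ) (S : Set (Fin n → ℝ)) : Set (MvPolynomial (Fin n) ℝ) :=
  {f | f.totalDegree ≤ C ∧ ∀ x ∈ S, eval x f = 0}

/-- The tangent space at `x` of the set `S`, computed from the polynomials of degree at
most `C` vanishing on `S`. -/
def tan {n : ℕ} (C : ℕ) (S : Set (Fin n → ℝ)) (x : Fin n → ℝ) :
    Submodule ℝ (Fin n → ℝ) where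
  carrier := {v | ∀ f ∈ van C S, ∑ i, grad x f i * v i = 0}
  add_mem' {u v} hu hv f hf := by
    have h1 := hu f hf
    have h2 := hv f hf
    simp only [Pi.add_apply, mul_add, Finset.sum_add_distrib, h1, h2, add_zero]
  zero_mem' f hf := by simp
  smul_mem' c v hv f hf := by
    have h1 := hv f hf
    have h2 : ∑ i, grad x f i * (c • v) i = c * ∑ i, grad x f i * v i := by
      rw [Finset.mul_sum]
      refine Finset.sum_congr rfl fun i _ => ?_
      simp only [Pi.smul_apply, smul_eq_mul]
      ring
    rw [h2, h1, mul_zero]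

/-- `S ⊆ ℝ ^ (2 e)` is a smooth real algebraic variety of dimension `e` cut out by
polynomials of degree at most `C`: it is the set of common zeros of the polynomials of
degree at most `C` vanishing on it, and at each of its points the gradients of these
polynomials span a space of dimension `e = 2 e - e`. -/
structure IsSurface (e C : ℕ) (S : Set (Fin (2 * e) → ℝ)) : Prop where
  cut : ∀ x, (∀ f ∈ van C S, eval x f = 0) → x ∈ S
  rank : ∀ x ∈ S, Module.finrank ℝ (Submodule.span ℝ (grad x '' van C S)) = e

open scoped Classical in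
/-- The admissible families of surfaces: any two distinct surfaces have at most `C` common
points and at most `C` surfaces contain any `k` given points. -/
structure Admissible (e k C : ℕ) (F : Finset (Set (Fin (2 * e) → ℝ))) : Prop where
  surf : ∀ S ∈ F, IsSurface e C S
  inter : ∀ S ∈ F, ∀ T ∈ F, S ≠ T → (S ∩ T).encard ≤ C
  deg : ∀ Q : Finset (Fin (2 * e) → ℝ), Q.card = k →
    (F.filter fun S => (Q : Set (Fin (2 * e) → ℝ)) ⊆ S).card ≤ C

open scoped Classical in
/-- The number of incidences between the points of `P` and the surfaces of `F`. -/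
noncomputable def inc {e : ℕ} (P : Finset (Fin (2 * e) → ℝ))
    (F : Finset (Set (Fin (2 * e) → ℝ))) : ℕ :=
  ((P ×ˢ F).filter fun q => q.1 ∈ q.2).card

/-- Transversality: at each point of `P` two distinct surfaces of `F` through it have only
the zero vector as common tangent vector. -/
def Transversal {e : ℕ} (C : ℕ) (P : Finset (Fin (2 * e) → ℝ))
    (F : Finset (Set (Fin (2 * e) → ℝ))) : Prop :=
  ∀ p ∈ P, ∀ S ∈ F, ∀ T ∈ F, S ≠ T → p ∈ S → p ∈ T →
    ∀ v, v ∈ tan C S p → v ∈ tan C T p → v = 0

/-! ## Technical definitions (not used in the statement) -/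

/-- Jacobian matrix of a square system. -/
noncomputable def jac {ι : Type*} (h : ι → MvPolynomial ι ℝ) (x : ι → ℝ) : Matrix ι ι ℝ :=
  Matrix.of fun i j => eval x (pderiv j (h i))

/-- The minor of the Jacobian matrix of `f` belonging to the first group of variables. -/
noncomputable def mu {c s : ℕ} (f : Fin c → MvPolynomial (Fin c ⊕ Fin s) ℝ) :
    MvPolynomial (Fin c ⊕ Fin s) ℝ :=
  (Matrix.of fun a b : Fin c => pderiv (Sum.inl b) (f a)).det

/-- The bordered determinants. -/
noncomputable def bord {c s : ℕ} (f : Fin c → MvPolynomial (Fin c ⊕ Fin s) ℝ)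
    (φ : MvPolynomial (Fin c ⊕ Fin s) ℝ) (j : Fin s) : MvPolynomial (Fin c ⊕ Fin s) ℝ :=
  (Matrix.fromBlocks (Matrix.of fun a b : Fin c => pderiv (Sum.inl b) (f a))
    (Matrix.of fun (a : Fin c) (_ : Unit) => pderiv (Sum.inr j) (f a))
    (Matrix.of fun (_ : Unit) (b : Fin c) => pderiv (Sum.inl b) φ)
    (Matrix.of fun (_ : Unit) (_ : Unit) => pderiv (Sum.inr j) φ)).det

/-- The square system of the perturbed critical point equations. -/
noncomputable def sys {c s : ℕ} (f : Fin c → MvPolynomial (Fin c ⊕ Fin s) ℝ)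
    (φ : MvPolynomial (Fin c ⊕ Fin s) ℝ) (w : Fin c → ℝ) (v : Fin s → ℝ) :
    Fin c ⊕ Fin s → MvPolynomial (Fin c ⊕ Fin s) ℝ :=
  Sum.elim (fun a => f a - C (w a)) (fun j => bord f φ j + C (v j) * mu f)

/-- Two points are separated by a threshold. -/
def Sep {ι : Type*} (Θ : ι → Finset ℝ) (p q : ι → ℝ) : Prop :=
  ∃ i, ∃ θ ∈ Θ i, (p i < θ ∧ θ < q i) ∨ (q i < θ ∧ θ < p i)

/-- Number of thresholds below `y`. -/
noncomputable def rk (Θ : Finset ℝ) (y : ℝ) : ℕ := (Θ.filter fun θ => θ < y).card

/-- The label of a point: exact coordinates in `J`, cell numbers outside `J`. -/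
noncomputable def lab {n : ℕ} (J : Finset (Fin n)) (Θ : Fin n → Finset ℝ)
    (p : Fin n → ℝ) : Fin n → ℝ :=
  fun i => if i ∈ J then p i else (rk (Θ i) (p i) : ℝ)

/-- `X` is a set of coordinates for the subspace `U`. -/
def IsB {n : ℕ} (U : Submodule ℝ (Fin n → ℝ)) (X : Finset (Fin n)) : Prop :=
  X.card = Module.finrank ℝ U ∧ ∀ v ∈ U, (∀ i ∈ X, v i = 0) → v = 0

end HDI
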