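import Mathlib
import Pool.Agent.HDI.Defs

/-!
# HDI-Interp: a square system `h_i + ε x_i ^ (δ_i + 1)` has at most `∏ (δ_i + 1)` zeros

PLAN. Let `Z` be the finite set and `W` the span (submodule of `Z → ℝ`) of the functions
`z ↦ ∏ i, z i ^ a i` with `a : (i : ι) → Fin (δ i + 1)`.
1. Every monomial function `z ↦ ∏ i, z i ^ a i` (`a : ι → ℕ`) restricted to `Z` lies in `W`:
   strong induction on `∑ i, a i`. If all `a i ≤ δ i` it is a generator. Otherwise
   `a i ≥ δ i + 1` for some `i` and `z i ^ (δ i + 1) = - ε⁻¹ * eval z (h i)` on `Z`, so that the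
   monomial equals `- ε⁻¹` times `(∏ j, z j ^ (a - (δ i + 1) e_i) j) * eval z (h i)`, and
   `h i` is a sum of monomials of degree `≤ δ i` (`MvPolynomial.eval_eq'`,
   `MvPolynomial.le_totalDegree`): all the monomials which occur have degree
   `≤ ∑ a - (δ i + 1) + δ i < ∑ a`.
2. Hence every polynomial function on `Z` is in `W`. Every function on a finite set of points
   is a polynomial function: for `z ≠ z'` choose `i` with `z i ≠ z' i`; the product over
   `z' ≠ z` of `(x i - z' i) / (z i - z' i)` is a polynomial function equal to `Pi.single z 1`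
   on `Z`. So `W = ⊤`.
3. `Z.card = finrank (Z → ℝ) = finrank W ≤ card (Π i, Fin (δ i + 1)) = ∏ (δ i + 1)`
   (`finrank_range_le_card` / `finrank_span_le_card`, `Fintype.card_pi`, `Fintype.card_fin`).
-/

namespace HDI

open MvPolynomial

/-- monomial function restricted to a finite set -/
noncomputable def monoF {ι : Type*} [Fintype ι] (Z : Finset (ι → ℝ)) (a : ι → ℕ) : Z → ℝ :=
  fun z => ∏ i, (z : ι → ℝ) i ^ a i

theorem monoF_add {ι : Type*} [Fintype ι] (Z : Finset (ι → ℝ)) (a b : ι → ℕ) :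
    monoF Z (a + b) = monoF Z a * monoF Z b := by
  funext z
  simp [monoF, pow_add, Finset.prod_mul_distrib]

theorem monoF_single {ι : Type*} [Fintype ι] [DecidableEq ι] (Z : Finset (ι → ℝ)) (i : ι) (k : ℕ)
    (z : Z) : monoF Z (Pi.single i k) z = (z : ι → ℝ) i ^ k := by
  unfold monoF
  rw [Finset.prod_eq_single i]
  · simp
  · intro j _ hj
    simp [Pi.single_eq_of_ne hj]
  · simp

theorem polyF {ι : Type*} [Fintype ι] (Z : Finset (ι → ℝ)) (p : MvPolynomial ι ℝ) :
    (fun z : Z => eval (z : ι → ℝ) p) = ∑ m ∈ p.support, p.coeff m • monoF Z (fun i => m i) := by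
  funext z
  rw [MvPolynomial.eval_eq', Finset.sum_apply]
  rfl

theorem monoF_mem {ι : Type*} [Fintype ι] [DecidableEq ι] (δ : ι → ℕ)
    (h : ι → MvPolynomial ι ℝ) (hd : ∀ i, (h i).totalDegree ≤ δ i) (ε : ℝ) (hε : ε ≠ 0)
    (Z : Finset (ι → ℝ))
    (hZ : ∀ z ∈ Z, ∀ i, eval z (h i) + ε * z i ^ (δ i + 1) = 0)
    (W : Submodule ℝ (Z → ℝ)) (hW : ∀ a : ι → ℕ, (∀ i, a i ≤ δ i) → monoF Z a ∈ W) :
    ∀ (N : ℕ) (a : ι → ℕ), ∑ i, a i ≤ N → monoF Z a ∈ W := by
  intro N
  induction N using Nat.strong_induction_on with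
  | _ N ih =>
    intro a ha
    by_cases hc : ∀ i, a i ≤ δ i
    · exact hW a hc
    · push Not at hc
      obtain ⟨i, hi⟩ := hc
      set b : ι → ℕ := Function.update a i (a i - (δ i + 1)) with hb
      have hab : a = b + Pi.single i (δ i + 1) := by
        funext j
        by_cases hj : j = i
        · subst hj
          simp [hb]
          omega
        · simp [hb, hj]
      have e1 : monoF Z a = ∑ m ∈ (h i).support, (- ε⁻¹ * (h i).coeff m) • monoF Z (b + fun i => m i) := by
        have e2 : monoF Z a = monoF Z b * ((- ε⁻¹) • (fun z : Z => eval (z : ι → ℝ) (h i))) := by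
          rw [hab, monoF_add]
          congr 1
          funext z
          rw [monoF_single]
          have := hZ z z.2 i
          simp only [Pi.smul_apply, smul_eq_mul]
          field_simp
          linarith
        rw [e2, polyF, Finset.smul_sum, Finset.mul_sum]
        refine Finset.sum_congr rfl fun m _ => ?_
        rw [monoF_add, smul_smul, mul_smul_comm]
      rw [e1]
      refine Submodule.sum_mem _ fun m hm => Submodule.smul_mem _ _ ?_
      have h3 : ∑ j, m j ≤ δ i := by
        have h4 := (le_totalDegree hm).trans (hd i)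
        rwa [Finsupp.sum_fintype] at h4
        simp
      have h5 : ∑ j, a j = ∑ j, b j + (δ i + 1) := by
        conv_lhs => rw [hab]
        simp [Finset.sum_add_distrib]
      have h6 : ∑ j, (b + fun i => m i) j = ∑ j, b j + ∑ j, m j := by
        simp [Finset.sum_add_distrib]
      refine ih (∑ j, (b + fun i => m i) j) ?_ _ le_rfl
      omega

theorem card_zeros_le {ι : Type*} [Fintype ι] [DecidableEq ι] (δ : ι → ℕ)
    (h : ι → MvPolynomial ι ℝ) (hd : ∀ i, (h i).totalDegree ≤ δ i) (ε : ℝ) (hε : ε ≠ 0)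
    (Z : Finset (ι → ℝ))
    (hZ : ∀ z ∈ Z, ∀ i, eval z (h i) + ε * z i ^ (δ i + 1) = 0) :
    Z.card ≤ ∏ i, (δ i + 1) := by
  set g : ((i : ι) → Fin (δ i + 1)) → (Z → ℝ) := fun a => monoF Z (fun i => (a i : ℕ)) with hg
  set W := Submodule.span ℝ (Set.range g) with hWd
  have hW : ∀ a : ι → ℕ, (∀ i, a i ≤ δ i) → monoF Z a ∈ W := by
    intro a ha
    refine Submodule.subset_span ⟨fun i => ⟨a i, Nat.lt_succ_of_le (ha i)⟩, rfl⟩
  have hall : ∀ a : ι → ℕ, monoF Z a ∈ W := fun a =>
    monoF_mem δ h hd ε hε Z hZ W hW _ a le_rfl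
  have hpoly : ∀ p : MvPolynomial ι ℝ, (fun z : Z => eval (z : ι → ℝ) p) ∈ W := by
    intro p
    rw [polyF]
    exact Submodule.sum_mem _ fun m _ => Submodule.smul_mem _ _ (hall _)
  have hsingle : ∀ z : Z, (Pi.single z 1 : Z → ℝ) ∈ W := by
    intro z
    have hex : ∀ z' : Z, z' ≠ z → ∃ q : MvPolynomial ι ℝ,
        eval (z : ι → ℝ) q = 1 ∧ eval (z' : ι → ℝ) q = 0 := by
      intro z' hne
      have hi : ∃ i, (z : ι → ℝ) i ≠ (z' : ι → ℝ) i := by
        by_contra hcon
        push Not at hcon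
        exact hne (Subtype.ext (funext fun i => (hcon i).symm))
      obtain ⟨i, hi⟩ := hi
      have h2 : (z : ι → ℝ) i - (z' : ι → ℝ) i ≠ 0 := sub_ne_zero.mpr hi
      refine ⟨C (((z : ι → ℝ) i - (z' : ι → ℝ) i)⁻¹) * (X i - C ((z' : ι → ℝ) i)), ?_, ?_⟩
      · simp [h2]
      · simp
    choose! q hq1 hq2 using hex
    set p : MvPolynomial ι ℝ := ∏ z' ∈ (Finset.univ : Finset Z).erase z, q z' with hp
    have : (Pi.single z 1 : Z → ℝ) = fun w : Z => eval (w : ι → ℝ) p := by
      funext w
      rw [hp, map_prod]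
      by_cases hw : w = z
      · subst hw
        rw [Pi.single_eq_same]
        symm
        exact Finset.prod_eq_one fun z' hz' => hq1 z' (Finset.ne_of_mem_erase hz')
      · rw [Pi.single_eq_of_ne hw]
        symm
        exact Finset.prod_eq_zero (i := w) (Finset.mem_erase.mpr ⟨hw, Finset.mem_univ _⟩) (hq2 w hw)
    rw [this]
    exact hpoly p
  have htop : W = ⊤ := by
    rw [eq_top_iff]
    intro f _
    have : f = ∑ z, f z • (Pi.single z 1 : Z → ℝ) := by
      funext w
      rw [Finset.sum_apply]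
      simp [Pi.single_apply]
    rw [this]
    exact Submodule.sum_mem _ fun z _ => Submodule.smul_mem _ _ (hsingle z)
  have h1 : Module.finrank ℝ W ≤ Fintype.card ((i : ι) → Fin (δ i + 1)) := finrank_range_le_card g
  rw [htop, finrank_top, Module.finrank_fintype_fun_eq_card, Fintype.card_coe, Fintype.card_pi] at h1
  simpa using h1

end HDI
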