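import Mathlib
import Pool.Agent.HDI.Defs

/-!
# HDI-Base: calculus of polynomial functions

* `hasStrictFDerivAt_eval`: the strict derivative of `y ↦ eval y f` at `x` is
  `∑ i, eval x (pderiv i f) • proj i`. Induction on `f` (`MvPolynomial.induction_on`):
  constants (`hasStrictFDerivAt_const`, `pderiv_C`), sums (`add`), and `f * X i`
  (`HasStrictFDerivAt.mul`, `pderiv_mul`, `pderiv_X`, `Pi.single_apply`; projection
  `hasStrictFDerivAt_apply`).
* `contDiff_eval`: `y ↦ eval y f` is `C^∞` (same induction, or
  `MvPolynomial.continuous_eval` style lemmas; any proof).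
* `continuous_evalp`: immediate from `contDiff_eval` or `MvPolynomial.continuous_eval`.
-/

namespace HDI

open MvPolynomial

theorem hasStrictFDerivAt_eval {ι : Type*} [Fintype ι] (f : MvPolynomial ι ℝ)
    (x : ι → ℝ) :
    HasStrictFDerivAt (fun y : ι → ℝ => eval y f)
      (∑ i, eval x (pderiv i f) • (ContinuousLinearMap.proj i : (ι → ℝ) →L[ℝ] ℝ)) x := by
  induction f using MvPolynomial.induction_on with
  | C a =>
    have h1 : (∑ i, eval x (pderiv i (C a)) • (ContinuousLinearMap.proj i : (ι → ℝ) →L[ℝ] ℝ)) =
        0 := by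
      refine Finset.sum_eq_zero fun i _ => ?_
      rw [pderiv_C, map_zero, zero_smul]
    rw [h1]
    simp only [eval_C]
    exact hasStrictFDerivAt_const a x
  | add p q hp hq =>
    have h1 : (∑ i, eval x (pderiv i (p + q)) •
        (ContinuousLinearMap.proj i : (ι → ℝ) →L[ℝ] ℝ)) =
        (∑ i, eval x (pderiv i p) • (ContinuousLinearMap.proj i : (ι → ℝ) →L[ℝ] ℝ)) +
        ∑ i, eval x (pderiv i q) • (ContinuousLinearMap.proj i : (ι → ℝ) →L[ℝ] ℝ) := by
      rw [← Finset.sum_add_distrib]
      refine Finset.sum_congr rfl fun i _ => ?_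
      rw [map_add, map_add, add_smul]
    rw [h1]
    simp only [map_add]
    exact hp.add hq
  | mul_X p j hp =>
    classical
    have h2 : HasStrictFDerivAt (fun y : ι → ℝ => y j)
        (ContinuousLinearMap.proj j : (ι → ℝ) →L[ℝ] ℝ) x := hasStrictFDerivAt_apply j x
    have h3 := hp.mul h2
    have h1 : (∑ i, eval x (pderiv i (p * X j)) •
        (ContinuousLinearMap.proj i : (ι → ℝ) →L[ℝ] ℝ)) =
        eval x p • (ContinuousLinearMap.proj j : (ι → ℝ) →L[ℝ] ℝ) +
        x j • ∑ i, eval x (pderiv i p) • (ContinuousLinearMap.proj i : (ι → ℝ) →L[ℝ] ℝ) := by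
      ext1 v
      rw [ContinuousLinearMap.sum_apply, ContinuousLinearMap.add_apply,
        ContinuousLinearMap.smul_apply, ContinuousLinearMap.smul_apply,
        ContinuousLinearMap.sum_apply]
      simp only [ContinuousLinearMap.smul_apply, ContinuousLinearMap.proj_apply, smul_eq_mul]
      have h4 : ∀ i, eval x (pderiv i (p * X j)) * v i =
          (if i = j then eval x p * v i else 0) + x j * (eval x (pderiv i p) * v i) := by
        intro i
        rw [pderiv_mul, map_add, map_mul, map_mul, eval_X, pderiv_X]
        by_cases hij : i = j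
        · subst hij
          rw [Pi.single_eq_same, map_one, if_pos rfl]
          ring
        · rw [Pi.single_eq_of_ne (Ne.symm hij), map_zero, if_neg hij]
          ring
      rw [Finset.sum_congr rfl fun i _ => h4 i, Finset.sum_add_distrib, ← Finset.mul_sum,
        Finset.sum_ite_eq' Finset.univ j (fun i => eval x p * v i), if_pos (Finset.mem_univ j)]
    rw [h1]
    simp only [map_mul, eval_X]
    exact h3

theorem contDiff_eval {ι : Type*} [Fintype ι] (f : MvPolynomial ι ℝ) :
    ContDiff ℝ ⊤ (fun y : ι → ℝ => eval y f) := by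
  induction f using MvPolynomial.induction_on with
  | C a =>
    simp only [eval_C]
    exact contDiff_const
  | add p q hp hq =>
    simp only [map_add]
    exact hp.add hq
  | mul_X p j hp =>
    simp only [map_mul, eval_X]
    exact hp.mul (contDiff_apply ℝ ℝ j)

theorem continuous_evalp {ι : Type*} [Fintype ι] (f : MvPolynomial ι ℝ) :
    Continuous (fun y : ι → ℝ => eval y f) := by
  exact MvPolynomial.continuous_eval f

end HDI
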