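import Mathlib
import Pool.Agent.HDI.Base

/-!
# HDI-Persist: nondegenerate zeros persist under small perturbations

The map `Φ (x, ε) = (fun i => eval x (h i) + ε * x i ^ (δ i + 1), ε)` is strictly differentiable at `(z, 0)` with
a surjective derivative, so it maps the neighbourhoods of `(z, 0)` onto the neighbourhoods of `(0, 0)`.
-/

namespace HDI

open MvPolynomial Topology

private theorem strict_coord {ι : Type*} [Fintype ι] (δ : ι → ℕ)
    (h : ι → MvPolynomial ι ℝ) (z : ι → ℝ) (i : ι) :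
    ∃ D : ((ι → ℝ) × ℝ) →L[ℝ] ℝ,
      HasStrictFDerivAt (fun p : (ι → ℝ) × ℝ => eval p.1 (h i) + p.2 * p.1 i ^ (δ i + 1)) D (z, 0) ∧
      ∀ (v : ι → ℝ) (t : ℝ), D (v, t) = ∑ j, eval z (pderiv j (h i)) * v j + t * z i ^ (δ i + 1) := by
  have h0 := hasStrictFDerivAt_eval (h i) z
  have h1 := HasStrictFDerivAt.comp (g := fun y : ι → ℝ => eval y (h i))
    (f := fun p : (ι → ℝ) × ℝ => p.1) (z, (0 : ℝ)) h0 hasStrictFDerivAt_fst
  have h2 : HasStrictFDerivAt (fun p : (ι → ℝ) × ℝ => p.1 i)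
      ((ContinuousLinearMap.proj i : (ι → ℝ) →L[ℝ] ℝ).comp (ContinuousLinearMap.fst ℝ (ι → ℝ) ℝ)) (z, (0 : ℝ)) :=
    ((ContinuousLinearMap.proj i : (ι → ℝ) →L[ℝ] ℝ).comp
      (ContinuousLinearMap.fst ℝ (ι → ℝ) ℝ)).hasStrictFDerivAt
  have h3 := h2.pow (δ i + 1)
  have h4 : HasStrictFDerivAt (fun p : (ι → ℝ) × ℝ => p.2) (ContinuousLinearMap.snd ℝ (ι → ℝ) ℝ)
    (z, (0 : ℝ)) := hasStrictFDerivAt_snd
  have h5 := h1.add (h4.mul h3)
  refine ⟨_, h5, fun v t => ?_⟩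
  simp only [ContinuousLinearMap.add_apply, ContinuousLinearMap.comp_apply, ContinuousLinearMap.sum_apply,
    ContinuousLinearMap.smul_apply, ContinuousLinearMap.proj_apply, ContinuousLinearMap.coe_fst',
    ContinuousLinearMap.coe_snd', smul_eq_mul, zero_mul, zero_add]
  ring

theorem persist {ι : Type*} [Fintype ι] [DecidableEq ι] (δ : ι → ℕ)
    (h : ι → MvPolynomial ι ℝ) (z : ι → ℝ) (hz : ∀ i, eval z (h i) = 0)
    (hj : (jac h z).det ≠ 0) (U : Set (ι → ℝ)) (hU : U ∈ 𝓝 z) :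
    ∀ᶠ ε in 𝓝 (0 : ℝ), ∃ z' ∈ U, ∀ i, eval z' (h i) + ε * z' i ^ (δ i + 1) = 0 := by
  choose D hD hD' using fun i => strict_coord δ h z i
  have h1 : HasStrictFDerivAt
      (fun p : (ι → ℝ) × ℝ => ((fun i => eval p.1 (h i) + p.2 * p.1 i ^ (δ i + 1) : ι → ℝ), p.2))
      ((ContinuousLinearMap.pi D).prod (ContinuousLinearMap.snd ℝ (ι → ℝ) ℝ)) (z, (0 : ℝ)) :=
    (hasStrictFDerivAt_pi.2 hD).prodMk hasStrictFDerivAt_snd
  have h2 : ((ContinuousLinearMap.pi D).prod (ContinuousLinearMap.snd ℝ (ι → ℝ) ℝ)).range = ⊤ := by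
    rw [LinearMap.range_eq_top]
    rintro ⟨w, t⟩
    set g : ι → ℝ := fun i => z i ^ (δ i + 1) with hg
    have hu : IsUnit (jac h z).det := isUnit_iff_ne_zero.2 hj
    obtain ⟨v, hv⟩ : ∃ v, (jac h z).mulVec v = w - t • g := by
      refine ⟨(jac h z)⁻¹.mulVec (w - t • g), ?_⟩
      rw [Matrix.mulVec_mulVec, Matrix.mul_nonsing_inv _ hu, Matrix.one_mulVec]
    refine ⟨(v, t), ?_⟩
    refine Prod.ext ?_ rfl
    funext i
    have h4 := congrFun hv i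
    simp only [Matrix.mulVec, dotProduct, jac, Matrix.of_apply, Pi.sub_apply, Pi.smul_apply, smul_eq_mul] at h4
    have h5 := hD' i v t
    rw [h4] at h5
    refine h5.trans ?_
    simp only [hg]
    ring
  have h3 := h1.map_nhds_eq_of_surj h2
  have h4 : ((fun i => eval z (h i) + 0 * z i ^ (δ i + 1) : ι → ℝ), (0 : ℝ)) = ((0 : ι → ℝ), (0 : ℝ)) := by
    refine Prod.ext ?_ rfl
    funext i
    simp only [hz, zero_mul, add_zero, Pi.zero_apply]
  rw [h4] at h3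
  have h5 : U ×ˢ (Set.univ : Set ℝ) ∈ 𝓝 (z, (0 : ℝ)) := prod_mem_nhds hU Filter.univ_mem
  have h6 := Filter.image_mem_map (m := fun p : (ι → ℝ) × ℝ =>
    ((fun i => eval p.1 (h i) + p.2 * p.1 i ^ (δ i + 1) : ι → ℝ), p.2)) h5
  rw [h3] at h6
  have h7 : Filter.Tendsto (fun ε : ℝ => ((0 : ι → ℝ), ε)) (𝓝 0) (𝓝 ((0 : ι → ℝ), (0 : ℝ))) := by
    have : Continuous (fun ε : ℝ => ((0 : ι → ℝ), ε)) := by fun_prop
    exact this.tendsto 0
  filter_upwards [h7 h6] with ε hε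
  obtain ⟨⟨z', ε'⟩, hz', he⟩ := hε
  have h8 := Prod.ext_iff.1 he
  have h9 : ε' = ε := h8.2
  refine ⟨z', hz'.1, fun i => ?_⟩
  have h10 := congrFun h8.1 i
  rw [← h9]
  exact h10

end HDI
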