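import Mathlib
import Pool.Agent.HDI.Interp
import Pool.Agent.HDI.Persist

/-!
# HDI-Bezout: at most `∏ (δ_i + 1)` nondegenerate common zeros

PLAN. Separate the finitely many points of `Z` by pairwise disjoint open sets
(`Set.Finite.t2_separation` or balls of radius half the minimal distance). By `persist` for
each `z ∈ Z` and all small `ε` there is a zero of the perturbed system in the neighbourhood of
`z`. Take one `ε ≠ 0` which works for all `z ∈ Z` (finite intersection of eventually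
statements, `Filter.eventually_all_finset`; `(𝓝[≠] 0).NeBot`). The zeros are distinct (disjoint
neighbourhoods); apply `card_zeros_le` to their set (`Finset.image`, `card_image_of_injOn`).
-/

namespace HDI

open MvPolynomial Topology

theorem bezout {ι : Type*} [Fintype ι] [DecidableEq ι] (δ : ι → ℕ)
    (h : ι → MvPolynomial ι ℝ) (hd : ∀ i, (h i).totalDegree ≤ δ i) (Z : Finset (ι → ℝ))
    (hZ : ∀ z ∈ Z, (∀ i, eval z (h i) = 0) ∧ (jac h z).det ≠ 0) :
    Z.card ≤ ∏ i, (δ i + 1) := by
  classical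
  obtain ⟨U, hU, hdis⟩ := (Finset.finite_toSet Z).t2_separation
  have h1 : ∀ᶠ ε in 𝓝 (0 : ℝ), ∀ z ∈ Z, ∃ z' ∈ U z, ∀ i,
      eval z' (h i) + ε * z' i ^ (δ i + 1) = 0 := by
    rw [Filter.eventually_all_finset]
    intro z hz
    exact persist δ h z (hZ z hz).1 (hZ z hz).2 (U z) ((hU z).2.mem_nhds (hU z).1)
  have h2 : ∀ᶠ ε in 𝓝[≠] (0 : ℝ), (∀ z ∈ Z, ∃ z' ∈ U z, ∀ i,
      eval z' (h i) + ε * z' i ^ (δ i + 1) = 0) ∧ ε ≠ 0 := by
    refine (h1.filter_mono nhdsWithin_le_nhds).and ?_
    exact eventually_mem_nhdsWithin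
  obtain ⟨ε, hε, hε0⟩ := h2.exists
  choose! f hfU hf using hε
  have hinj : Set.InjOn f (Z : Set (ι → ℝ)) := by
    intro z hz z' hz' heq
    by_contra hne
    have h3 := hdis hz hz' hne
    exact Set.disjoint_left.mp h3 (hfU z hz) (heq ▸ hfU z' hz')
  rw [← Finset.card_image_of_injOn hinj]
  refine card_zeros_le δ h hd ε hε0 (Z.image f) ?_
  intro y hy i
  obtain ⟨z, hz, rfl⟩ := Finset.mem_image.mp hy
  exact hf z hz i

end HDI
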