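import Mathlib
import Pool.Agent.HDI.Defs

/-!
# HDI-Bord: linear algebra of the bordered determinants

1. `bord_iff` (real matrices): if `A` is invertible then all the bordered determinants vanish
   iff the last row `(u, v)` is a combination of the rows of `(A | B)`. Use
   `Matrix.det_fromBlocks₁₁` (`A` invertible: `Matrix.invertibleOfIsUnitDet`): the determinant
   is `det A * (v j - u A⁻¹ B_j)`. Right to left: substitute `u = l A`, so `u A⁻¹ = l`. Left to
   right: `l = u A⁻¹` (`Matrix.vecMul`). (`s = 0` is allowed.)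
2. `eval_mu`, `eval_bord`: evaluation commutes with determinants (`RingHom.map_det`,
   `Matrix.fromBlocks_map`).
3. `eval_bord_add`: adding `∑ v j x_(inr j)` to `φ` adds `v j * mu f` to the `j`-th bordered
   determinant: derivatives: `pderiv (inl b)` of the linear form is `0`, `pderiv (inr j)` is
   `C (v j)`; then linearity of the determinant in the last row
   (`Matrix.det_fromBlocks₁₁` is not available in the polynomial ring; use
   `Matrix.det_updateRow_add` or expand `det_fromBlocks` along the last entry: the difference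
   of the two matrices is only in the last entry, whose cofactor is `det A`; e.g.
   `Matrix.det_updateRow_add` + `Matrix.det_fromBlocks_zero₂₁`).
4. degrees: `(mu f).totalDegree ≤ c * C`, `(bord f φ j).totalDegree ≤ c * C + E`
   (`Matrix.det_apply`, `totalDegree_finset_sum`, `totalDegree_finset_prod`; every entry of the
   first `c` rows has degree `≤ C` and of the last row `≤ E`:
   `MvPolynomial.totalDegree_pderiv_le` or by hand from the support; each product has one factor
   from each row). -/

namespace HDI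

open MvPolynomial

theorem det_unit (M : Matrix Unit Unit ℝ) : M.det = M () () := Matrix.det_unique M

theorem bord_iff {c s : ℕ} (A : Matrix (Fin c) (Fin c) ℝ) (B : Matrix (Fin c) (Fin s) ℝ)
    (u : Fin c → ℝ) (v : Fin s → ℝ) (hA : A.det ≠ 0) :
    (∀ j, (Matrix.fromBlocks A (Matrix.of fun a (_ : Unit) => B a j)
      (Matrix.of fun (_ : Unit) b => u b)
      (Matrix.of fun (_ : Unit) (_ : Unit) => v j)).det = 0) ↔
    ∃ l : Fin c → ℝ, (∀ b, u b = ∑ a, l a * A a b) ∧ (∀ j, v j = ∑ a, l a * B a j) := by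
  have hu : IsUnit A.det := isUnit_iff_ne_zero.mpr hA
  have := Matrix.invertibleOfIsUnitDet A hu
  have key : ∀ j, (Matrix.fromBlocks A (Matrix.of fun a (_ : Unit) => B a j)
      (Matrix.of fun (_ : Unit) b => u b)
      (Matrix.of fun (_ : Unit) (_ : Unit) => v j)).det
      = A.det * (v j - ∑ a, (∑ b, u b * (⅟A) b a) * B a j) := by
    intro j
    rw [Matrix.det_fromBlocks₁₁, det_unit]
    simp [Matrix.mul_apply]
  constructor
  · intro h
    refine ⟨fun a => ∑ b, u b * (⅟A) b a, ?_, ?_⟩
    · intro b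
      have h1 : ∀ b, ∑ a, (∑ b', u b' * (⅟A) b' a) * A a b = (Matrix.vecMul (Matrix.vecMul u (⅟A)) A) b := by
        intro b
        simp [Matrix.vecMul, dotProduct]
      rw [h1, Matrix.vecMul_vecMul, invOf_mul_self, Matrix.vecMul_one]
    · intro j
      have h2 := h j
      rw [key] at h2
      have h3 := (mul_eq_zero.mp h2).resolve_left hA
      linarith
  · rintro ⟨l, hl1, hl2⟩ j
    rw [key]
    have h4 : ∀ a, ∑ b, u b * (⅟A) b a = l a := by
      intro a
      have h5 : u = Matrix.vecMul l A := by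
        funext b
        rw [hl1 b]
        simp [Matrix.vecMul, dotProduct]
      have h6 : ∑ b, u b * (⅟A) b a = (Matrix.vecMul u (⅟A)) a := by
        simp [Matrix.vecMul, dotProduct]
      rw [h6, h5, Matrix.vecMul_vecMul, mul_invOf_self, Matrix.vecMul_one]
    simp only [h4]
    rw [hl2 j, sub_self, mul_zero]

theorem eval_mu {c s : ℕ} (f : Fin c → MvPolynomial (Fin c ⊕ Fin s) ℝ)
    (x : Fin c ⊕ Fin s → ℝ) :
    eval x (mu f) = (Matrix.of fun a b : Fin c => eval x (pderiv (Sum.inl b) (f a))).det := by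
  unfold mu
  rw [RingHom.map_det]
  rfl

theorem eval_bord {c s : ℕ} (f : Fin c → MvPolynomial (Fin c ⊕ Fin s) ℝ)
    (φ : MvPolynomial (Fin c ⊕ Fin s) ℝ) (j : Fin s) (x : Fin c ⊕ Fin s → ℝ) :
    eval x (bord f φ j) =
      (Matrix.fromBlocks (Matrix.of fun a b : Fin c => eval x (pderiv (Sum.inl b) (f a)))
        (Matrix.of fun (a : Fin c) (_ : Unit) => eval x (pderiv (Sum.inr j) (f a)))
        (Matrix.of fun (_ : Unit) (b : Fin c) => eval x (pderiv (Sum.inl b) φ))
        (Matrix.of fun (_ : Unit) (_ : Unit) => eval x (pderiv (Sum.inr j) φ))).det := by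
  unfold bord
  rw [RingHom.map_det, RingHom.mapMatrix_apply, Matrix.fromBlocks_map]
  rfl

theorem eval_bord_add {c s : ℕ} (f : Fin c → MvPolynomial (Fin c ⊕ Fin s) ℝ)
    (φ : MvPolynomial (Fin c ⊕ Fin s) ℝ) (v : Fin s → ℝ) (j : Fin s)
    (x : Fin c ⊕ Fin s → ℝ) :
    eval x (bord f (φ + ∑ i, C (v i) * X (Sum.inr i)) j) =
      eval x (bord f φ j) + v j * eval x (mu f) := by
  have hl : ∀ b : Fin c, eval x (pderiv (Sum.inl b) (φ + ∑ i, C (v i) * X (Sum.inr i)))
      = eval x (pderiv (Sum.inl b) φ) := by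
    intro b
    rw [map_add, map_sum]
    simp [pderiv_X]
  have hr : eval x (pderiv (Sum.inr j) (φ + ∑ i, C (v i) * X (Sum.inr i)))
      = eval x (pderiv (Sum.inr j) φ) + v j := by
    rw [map_add, map_sum]
    simp [pderiv_X, Pi.single_apply]
  rw [eval_bord, eval_bord, eval_mu]
  simp only [hl, hr]
  set A := (Matrix.of fun a b : Fin c => eval x (pderiv (Sum.inl b) (f a))) with hA
  set B := (Matrix.of fun (a : Fin c) (_ : Unit) => eval x (pderiv (Sum.inr j) (f a))) with hB
  set u := (Matrix.of fun (_ : Unit) (b : Fin c) => eval x (pderiv (Sum.inl b) φ)) with hu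
  set t := eval x (pderiv (Sum.inr j) φ) with ht
  have e1 : Matrix.fromBlocks A B u (Matrix.of fun (_ : Unit) (_ : Unit) => t + v j)
      = Matrix.updateRow (Matrix.fromBlocks A B u (Matrix.of fun (_ : Unit) (_ : Unit) => t))
          (Sum.inr ()) ((Matrix.fromBlocks A B u (Matrix.of fun (_ : Unit) (_ : Unit) => t)) (Sum.inr ()) +
            (Sum.elim (fun _ => 0) (fun _ => v j))) := by
    ext i k
    rcases i with i | i <;> rcases k with k | k <;> simp [Matrix.updateRow_apply]
  have e2 : Matrix.updateRow (Matrix.fromBlocks A B u (Matrix.of fun (_ : Unit) (_ : Unit) => t))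
          (Sum.inr ()) (Sum.elim (fun _ => 0) (fun _ => v j))
      = Matrix.fromBlocks A B 0 (Matrix.of fun (_ : Unit) (_ : Unit) => v j) := by
    ext i k
    rcases i with i | i <;> rcases k with k | k <;> simp [Matrix.updateRow_apply]
  rw [e1, Matrix.det_updateRow_add, e2, Matrix.det_fromBlocks_zero₂₁, Matrix.updateRow_eq_self,
    det_unit]
  simp [mul_comm]

theorem totalDegree_pderiv_le' {ι : Type*} (i : ι) (f : MvPolynomial ι ℝ) :
    (pderiv i f).totalDegree ≤ f.totalDegree := by
  classical
  conv_lhs => rw [f.as_sum]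
  rw [map_sum]
  refine (totalDegree_finsetSum _ _).trans ?_
  refine Finset.sup_le fun m hm => ?_
  rw [pderiv_monomial]
  refine (totalDegree_monomial_le _ _).trans ?_
  refine le_trans ?_ (le_totalDegree hm)
  have h1 : m - Finsupp.single i 1 ≤ m := tsub_le_self
  exact Finsupp.degree_mono h1

theorem totalDegree_mu_le {c s : ℕ} (D : ℕ) (f : Fin c → MvPolynomial (Fin c ⊕ Fin s) ℝ)
    (hf : ∀ a, (f a).totalDegree ≤ D) : (mu f).totalDegree ≤ c * D := by
  unfold mu
  rw [Matrix.det_apply]
  refine (totalDegree_finsetSum _ _).trans (Finset.sup_le fun σ _ => ?_)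
  have h1 : ∀ p : MvPolynomial (Fin c ⊕ Fin s) ℝ, (Equiv.Perm.sign σ • p).totalDegree ≤ p.totalDegree := by
    intro p
    rcases Int.units_eq_one_or (Equiv.Perm.sign σ) with h | h <;> rw [h] <;> simp [totalDegree_neg]
  refine (h1 _).trans ?_
  refine (totalDegree_finsetProd _ _).trans ?_
  refine (Finset.sum_le_card_nsmul _ _ D ?_).trans ?_
  · intro i _
    exact (totalDegree_pderiv_le' _ _).trans (hf _)
  · simp

theorem totalDegree_bord_le {c s : ℕ} (D E : ℕ)
    (f : Fin c → MvPolynomial (Fin c ⊕ Fin s) ℝ) (hf : ∀ a, (f a).totalDegree ≤ D)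
    (φ : MvPolynomial (Fin c ⊕ Fin s) ℝ) (hφ : φ.totalDegree ≤ E) (j : Fin s) :
    (bord f φ j).totalDegree ≤ c * D + E := by
  unfold bord
  rw [← Matrix.det_transpose, Matrix.det_apply]
  refine (totalDegree_finsetSum _ _).trans (Finset.sup_le fun σ _ => ?_)
  have h1 : ∀ p : MvPolynomial (Fin c ⊕ Fin s) ℝ, (Equiv.Perm.sign σ • p).totalDegree ≤ p.totalDegree := by
    intro p
    rcases Int.units_eq_one_or (Equiv.Perm.sign σ) with h | h <;> rw [h] <;> simp [totalDegree_neg]
  refine (h1 _).trans ?_
  refine (totalDegree_finsetProd _ _).trans ?_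
  rw [Fintype.sum_sum_type]
  refine add_le_add ?_ ?_
  · refine (Finset.sum_le_card_nsmul _ _ D ?_).trans ?_
    · intro i _
      rw [Matrix.transpose_apply]
      rcases σ (Sum.inl i) with k | k
      · exact (totalDegree_pderiv_le' _ _).trans (hf _)
      · exact (totalDegree_pderiv_le' _ _).trans (hf _)
    · simp
  · rw [Fintype.sum_unique, Matrix.transpose_apply]
    rcases σ (Sum.inr default) with k | k
    · exact (totalDegree_pderiv_le' _ _).trans hφ
    · exact (totalDegree_pderiv_le' _ _).trans hφ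

end HDI
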