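import Mathlib
import Pool.Agent.HDI.Base
import Pool.Agent.HDI.Bord

/-!
# HDI-MaxP: each piece contains a critical point of every small perturbation

Compactness and Lagrange multipliers.
-/

namespace HDI

open MvPolynomial

private noncomputable def gr {c s : ℕ} (g : MvPolynomial (Fin c ⊕ Fin s) ℝ)
    (x : Fin c ⊕ Fin s → ℝ) : (Fin c ⊕ Fin s → ℝ) →L[ℝ] ℝ :=
  ∑ i, eval x (pderiv i g) • (ContinuousLinearMap.proj i : (Fin c ⊕ Fin s → ℝ) →L[ℝ] ℝ)

private theorem gr_apply {c s : ℕ} (g : MvPolynomial (Fin c ⊕ Fin s) ℝ)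
    (x v : Fin c ⊕ Fin s → ℝ) : gr g x v = ∑ i, eval x (pderiv i g) * v i := by
  simp only [gr, FunLike.coe_sum, Finset.sum_apply, _root_.smul_apply,
    ContinuousLinearMap.proj_apply, smul_eq_mul]

private theorem gr_single {c s : ℕ} (g : MvPolynomial (Fin c ⊕ Fin s) ℝ)
    (x : Fin c ⊕ Fin s → ℝ) (i : Fin c ⊕ Fin s) :
    gr g x (Pi.single i 1) = eval x (pderiv i g) := by
  classical
  rw [gr_apply, Finset.sum_eq_single i]
  · rw [Pi.single_eq_same, mul_one]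
  · intro j _ hj
    rw [Pi.single_eq_of_ne hj, mul_zero]
  · intro h
    exact absurd (Finset.mem_univ i) h

/-- the level set moves a little -/
private theorem level {c s : ℕ} (f : Fin c → MvPolynomial (Fin c ⊕ Fin s) ℝ)
    (p : Fin c ⊕ Fin s → ℝ) (hpf : ∀ a, eval p (f a) = 0) (hpm : eval p (mu f) ≠ 0)
    (N : Set (Fin c ⊕ Fin s → ℝ)) (hN : N ∈ nhds p) :
    ∃ ε : ℝ, 0 < ε ∧ ∀ w : Fin c → ℝ, (∀ a, |w a| < ε) → ∃ x ∈ N, ∀ a, eval x (f a) = w a := by
  classical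
  have hF : HasStrictFDerivAt (fun x : Fin c ⊕ Fin s → ℝ => fun a : Fin c => eval x (f a))
      (ContinuousLinearMap.pi fun a => gr (f a) p) p := by
    rw [hasStrictFDerivAt_pi]
    intro a
    exact hasStrictFDerivAt_eval (f a) p
  have hsurj : (ContinuousLinearMap.pi fun a => gr (f a) p :
      (Fin c ⊕ Fin s → ℝ) →L[ℝ] (Fin c → ℝ)).range = ⊤ := by
    rw [eq_top_iff]
    intro w _
    obtain ⟨A, hA⟩ : ∃ A : Matrix (Fin c) (Fin c) ℝ,
        A = Matrix.of fun a b : Fin c => eval p (pderiv (Sum.inl b) (f a)) := ⟨_, rfl⟩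
    have hdet : IsUnit A.det := by
      rw [hA, ← eval_mu]
      exact isUnit_iff_ne_zero.2 hpm
    refine ⟨Sum.elim (A⁻¹.mulVec w) 0, ?_⟩
    funext a
    have h1 : A.mulVec (A⁻¹.mulVec w) = w := by
      rw [Matrix.mulVec_mulVec, Matrix.mul_nonsing_inv A hdet, Matrix.one_mulVec]
    have h2 : gr (f a) p (Sum.elim (A⁻¹.mulVec w) 0) = A.mulVec (A⁻¹.mulVec w) a := by
      rw [gr_apply, Fintype.sum_sum_type, hA]
      simp only [Sum.elim_inl, Sum.elim_inr, Pi.zero_apply, mul_zero, Finset.sum_const_zero,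
        add_zero]
      rfl
    rw [h1] at h2
    exact h2
  have hmap := hF.map_nhds_eq_of_surj hsurj
  have h0 : (fun a : Fin c => eval p (f a)) = 0 := funext hpf
  rw [h0] at hmap
  have him := Filter.image_mem_map (m := fun x : Fin c ⊕ Fin s → ℝ => fun a : Fin c =>
    eval x (f a)) hN
  rw [hmap] at him
  obtain ⟨ε, hε, hball⟩ := Metric.mem_nhds_iff.1 him
  refine ⟨ε, hε, fun w hw => ?_⟩
  have hwb : w ∈ Metric.ball (0 : Fin c → ℝ) ε := by
    rw [Metric.mem_ball, dist_pi_lt_iff hε]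
    intro a
    rw [Pi.zero_apply, Real.dist_0_eq_abs]
    exact hw a
  obtain ⟨x, hx, hxw⟩ := hball hwb
  exact ⟨x, hx, fun a => congrFun hxw a⟩

/-- Lagrange multipliers -/
private theorem lagr {c s : ℕ} (f : Fin c → MvPolynomial (Fin c ⊕ Fin s) ℝ)
    (ψ : MvPolynomial (Fin c ⊕ Fin s) ℝ) (x : Fin c ⊕ Fin s → ℝ) (hm : eval x (mu f) ≠ 0)
    (hx : IsLocalMaxOn (fun y : Fin c ⊕ Fin s → ℝ => eval y ψ)
      {y | ∀ a, eval y (f a) = eval x (f a)} x) (j : Fin s) : eval x (bord f ψ j) = 0 := by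
  classical
  have hext : IsLocalExtrOn (fun y : Fin c ⊕ Fin s → ℝ => eval y ψ)
      {y | ∀ a, eval y (f a) = eval x (f a)} x := Or.inr hx
  obtain ⟨Λ, Λ₀, hne, hsum⟩ := hext.exists_multipliers_of_hasStrictFDerivAt
    (fun a => hasStrictFDerivAt_eval (f a) x) (hasStrictFDerivAt_eval ψ x)
  have hsum' : (∑ a, Λ a • gr (f a) x) + Λ₀ • gr ψ x = 0 := hsum
  have h1 : ∀ i, (∑ a, Λ a * eval x (pderiv i (f a))) + Λ₀ * eval x (pderiv i ψ) = 0 := by
    intro i
    have h2 := congrArg (fun T : (Fin c ⊕ Fin s → ℝ) →L[ℝ] ℝ => T (Pi.single i 1)) hsum'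
    simp only [_root_.add_apply, FunLike.coe_sum, Finset.sum_apply,
      _root_.smul_apply, gr_single, smul_eq_mul,
      _root_.zero_apply] at h2
    exact h2
  have hA : (Matrix.of fun a b : Fin c => eval x (pderiv (Sum.inl b) (f a))).det ≠ 0 := by
    rw [← eval_mu]
    exact hm
  have hΛ : Λ₀ ≠ 0 := by
    intro h0
    have h3 : Matrix.vecMul Λ (Matrix.of fun a b : Fin c =>
        eval x (pderiv (Sum.inl b) (f a))) = 0 := by
      funext b
      have h4 := h1 (Sum.inl b)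
      rw [h0, zero_mul, add_zero] at h4
      exact h4
    have h5 := Matrix.eq_zero_of_vecMul_eq_zero hA h3
    exact hne (Prod.ext h5 h0)
  have h6 : ∀ i, eval x (pderiv i ψ) = ∑ a, (-Λ a / Λ₀) * eval x (pderiv i (f a)) := by
    intro i
    have h7 := h1 i
    have h8 : ∑ a, (-Λ a / Λ₀) * eval x (pderiv i (f a)) =
        -(∑ a, Λ a * eval x (pderiv i (f a))) / Λ₀ := by
      rw [neg_div, Finset.sum_div, ← Finset.sum_neg_distrib]
      refine Finset.sum_congr rfl fun a _ => ?_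
      ring
    rw [h8, eq_div_iff hΛ]
    linarith
  have h9 := (bord_iff (Matrix.of fun a b : Fin c => eval x (pderiv (Sum.inl b) (f a)))
    (Matrix.of fun (a : Fin c) (j : Fin s) => eval x (pderiv (Sum.inr j) (f a)))
    (fun b => eval x (pderiv (Sum.inl b) ψ)) (fun j => eval x (pderiv (Sum.inr j) ψ)) hA).2
    ⟨fun a => -Λ a / Λ₀, fun b => h6 (Sum.inl b), fun j => h6 (Sum.inr j)⟩ j
  rw [eval_bord]
  exact h9

theorem exists_crit {c s : ℕ} (f : Fin c → MvPolynomial (Fin c ⊕ Fin s) ℝ)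
    (φ : MvPolynomial (Fin c ⊕ Fin s) ℝ) (U : Set (Fin c ⊕ Fin s → ℝ)) (hU : IsOpen U)
    (hb : Bornology.IsBounded U) (ε0 : ℝ) (h0 : 0 < ε0)
    (hcl : ∀ x ∈ closure U, (∀ a, |eval x (f a)| ≤ ε0) → 0 < eval x φ →
      x ∈ U ∧ eval x (mu f) ≠ 0)
    (p : Fin c ⊕ Fin s → ℝ) (hp : p ∈ U) (hpf : ∀ a, eval p (f a) = 0)
    (hpm : eval p (mu f) ≠ 0) (hpφ : 0 < eval p φ) :
    ∃ ε : ℝ, 0 < ε ∧ ∀ (w : Fin c → ℝ) (v : Fin s → ℝ), (∀ a, |w a| < ε) →
      (∀ j, |v j| < ε) → ∃ x ∈ U, eval x (mu f) ≠ 0 ∧ ∀ i, eval x (sys f φ w v i) = 0 := by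
  classical
  obtain ⟨m, hm⟩ : ∃ m, m = eval p φ := ⟨_, rfl⟩
  rw [← hm] at hpφ
  have hN : U ∩ {x | m / 2 < eval x φ} ∈ nhds p := by
    refine Filter.inter_mem (hU.mem_nhds hp) ?_
    refine (isOpen_lt continuous_const (continuous_evalp φ)).mem_nhds ?_
    show m / 2 < eval p φ
    rw [← hm]
    linarith
  obtain ⟨ε1, hε1, hlev⟩ := level f p hpf hpm _ hN
  have hcpt : IsCompact (closure U) :=
    Metric.isCompact_of_isClosed_isBounded isClosed_closure hb.closure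
  obtain ⟨ρ, hρ⟩ := hb.closure.exists_norm_le
  have hρ0 : 0 ≤ ρ := (norm_nonneg p).trans (hρ p (subset_closure hp))
  have hρ' : ∀ x ∈ closure U, ∀ i, |x i| ≤ ρ := fun x hx i =>
    (norm_le_pi_norm x i).trans (hρ x hx)
  have hden : 0 < 8 * ((s : ℝ) + 1) * (ρ + 1) := by positivity
  refine ⟨min (min ε1 ε0) (m / (8 * ((s : ℝ) + 1) * (ρ + 1))),
    lt_min (lt_min hε1 h0) (div_pos hpφ hden), fun w v hw hv => ?_⟩
  obtain ⟨xw, ⟨hxwU, hxwm⟩, hxw⟩ := hlev w fun a =>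
    (hw a).trans_le ((min_le_left _ _).trans (min_le_left _ _))
  obtain ⟨ψ, hψ⟩ : ∃ ψ : MvPolynomial (Fin c ⊕ Fin s) ℝ,
      ψ = φ + ∑ i, C (v i) * X (Sum.inr i) := ⟨_, rfl⟩
  have hψe : ∀ y : Fin c ⊕ Fin s → ℝ, eval y ψ = eval y φ + ∑ j, v j * y (Sum.inr j) := by
    intro y
    rw [hψ, map_add, map_sum]
    simp only [map_mul, eval_C, eval_X]
  have hsmall : ∀ y ∈ closure U, |∑ j, v j * y (Sum.inr j)| ≤ m / 8 := by
    intro y hy
    have h1 : ∀ j : Fin s, |v j * y (Sum.inr j)| ≤ m / (8 * ((s : ℝ) + 1) * (ρ + 1)) * ρ := by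
      intro j
      rw [abs_mul]
      exact mul_le_mul ((hv j).le.trans (min_le_right _ _)) (hρ' y hy _) (abs_nonneg _)
        (div_pos hpφ hden).le
    have h2 : |∑ j, v j * y (Sum.inr j)| ≤
        ∑ _j : Fin s, m / (8 * ((s : ℝ) + 1) * (ρ + 1)) * ρ :=
      (Finset.abs_sum_le_sum_abs _ _).trans (Finset.sum_le_sum fun j _ => h1 j)
    rw [Finset.sum_const, Finset.card_univ, Fintype.card_fin, nsmul_eq_mul] at h2
    refine h2.trans ?_
    have h3 : (s : ℝ) * (m / (8 * ((s : ℝ) + 1) * (ρ + 1)) * ρ) =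
        ((s : ℝ) * ρ) * m / (8 * ((s : ℝ) + 1) * (ρ + 1)) := by ring
    rw [h3, div_le_div_iff₀ hden (by norm_num)]
    have hs0 : (0 : ℝ) ≤ s := Nat.cast_nonneg s
    nlinarith [mul_nonneg hs0 hpφ.le, mul_nonneg hρ0 hpφ.le, hpφ.le]
  have hKc : IsCompact (closure U ∩ {x | ∀ a, eval x (f a) = w a}) := by
    refine hcpt.inter_right ?_
    rw [show {x : Fin c ⊕ Fin s → ℝ | ∀ a, eval x (f a) = w a} =
      ⋂ a, {x | eval x (f a) = w a} by ext x; simp]
    exact isClosed_iInter fun a => isClosed_eq (continuous_evalp (f a)) continuous_const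
  obtain ⟨x, hxK, hmax⟩ := hKc.exists_isMaxOn ⟨xw, subset_closure hxwU, hxw⟩
    (continuous_evalp ψ).continuousOn
  have h1 := hmax (a := xw) ⟨subset_closure hxwU, hxw⟩
  have h1' : eval xw ψ ≤ eval x ψ := h1
  have h2 := hsmall x hxK.1
  have h3 := hsmall xw (subset_closure hxwU)
  have h4 : 0 < eval x φ := by
    rw [hψe, hψe] at h1'
    rw [abs_le] at h2 h3
    have h5 : m / 2 < eval xw φ := hxwm
    linarith [h2.1, h2.2, h3.1, h3.2]
  obtain ⟨hxU, hxm⟩ := hcl x hxK.1 (fun a => by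
    rw [hxK.2 a]
    exact ((hw a).trans_le ((min_le_left _ _).trans (min_le_right _ _))).le) h4
  refine ⟨x, hxU, hxm, ?_⟩
  have hloc : IsLocalMaxOn (fun y : Fin c ⊕ Fin s → ℝ => eval y ψ)
      {y | ∀ a, eval y (f a) = eval x (f a)} x := by
    have h5 : U ∈ nhdsWithin x {y | ∀ a, eval y (f a) = eval x (f a)} :=
      mem_nhdsWithin_of_mem_nhds (hU.mem_nhds hxU)
    filter_upwards [h5, self_mem_nhdsWithin] with y hy1 hy2
    exact hmax (a := y) ⟨subset_closure hy1, fun a => (hy2 a).trans (hxK.2 a)⟩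
  rintro (a | j)
  · simp only [sys, Sum.elim_inl, map_sub, eval_C]
    rw [hxK.2 a, sub_self]
  · have h6 := lagr f ψ x hxm hloc j
    rw [hψ, eval_bord_add] at h6
    simp only [sys, Sum.elim_inr, map_add, map_mul, eval_C]
    exact h6

end HDI
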