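import Mathlib
import Pool.Agent.HDI.Base
import Pool.Agent.HDI.Bord

/-!
# HDI-Sard: generic small perturbations have only nondegenerate critical points

PLAN. Let `Ω = {x | eval x (mu f) ≠ 0}` and `Θ : (Fin c ⊕ Fin s → ℝ) → (Fin c ⊕ Fin s → ℝ)`,
`Θ x (inl a) = eval x (f a)`, `Θ x (inr j) = - eval x (bord f φ j) / eval x (mu f)`.
`Θ` is differentiable at the points of `Ω` (`hasStrictFDerivAt_eval`, `HasFDerivAt.div` or
`.mul` with `.inv`, `hasFDerivAt_pi`). By
`MeasureTheory.addHaar_image_eq_zero_of_det_fderivWithin_eq_zero` (Sard in equal dimension; measure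
`volume` on `Fin c ⊕ Fin s → ℝ`) the image under `Θ` of
`{x ∈ Ω | (Θ' x).det = 0}` has measure zero, so its complement is dense / meets the box
`{y | ∀ i, |y i| < ε}`, which is open and nonempty, hence of positive measure. Take `y` in the
box and not in the image, `w a = y (inl a)`, `v j = y (inr j)`.
Let `x` be a solution of `sys f φ w v` with `mu ≠ 0`. Then `Θ x = y`
(`bord + v * mu = 0` gives `v = - bord / mu`), so `(Θ' x).det ≠ 0`. The rows of
`jac (sys f φ w v) x` are: for `inl a` the gradient of `f a`, i.e. row `inl a` of `Θ' x`; for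
`inr j` the gradient of `bord f φ j + v j * mu f`, and because
`eval y (bord f φ j) + v j * eval y (mu f) = eval y (mu f) * (v j - Θ y (inr j))` on `Ω` and
the second factor vanishes at `x`, it is `- eval x (mu f)` times row `inr j` of `Θ' x`
(product/quotient rule, or compare the formulas of the two derivatives directly). So
`det (jac ..) = (∏ over inr j of (- mu)) * det Θ' ≠ 0` (`Matrix.det_mul_column` /
`Matrix.det_mul_row` / `Matrix.det_diagonal` and `det_mul`; or show that the kernel is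
trivial: `Matrix.exists_mulVec_eq_zero_iff`).
-/

namespace HDI

open MvPolynomial

/-- the differential of a polynomial function -/
private noncomputable def G {ι : Type} [Fintype ι] (p : MvPolynomial ι ℝ) (x : ι → ℝ) :
    (ι → ℝ) →L[ℝ] ℝ :=
  ∑ i, eval x (pderiv i p) • (ContinuousLinearMap.proj i : (ι → ℝ) →L[ℝ] ℝ)

private theorem G_apply {ι : Type} [Fintype ι] (p : MvPolynomial ι ℝ) (x z : ι → ℝ) :
    G p x z = ∑ i, eval x (pderiv i p) * z i := by
  unfold G
  rw [_root_.sum_apply]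
  rfl

private theorem hasG {ι : Type} [Fintype ι] (p : MvPolynomial ι ℝ) (x : ι → ℝ) :
    HasFDerivAt (fun y : ι → ℝ => eval y p) (G p x) x :=
  (hasStrictFDerivAt_eval p x).hasFDerivAt

/-- the map to which Sard's theorem is applied -/
private noncomputable def Th {c s : ℕ} (f : Fin c → MvPolynomial (Fin c ⊕ Fin s) ℝ)
    (φ : MvPolynomial (Fin c ⊕ Fin s) ℝ) (x : Fin c ⊕ Fin s → ℝ) : Fin c ⊕ Fin s → ℝ :=
  fun i => Sum.elim (fun a => eval x (f a))
    (fun j => eval x (bord f φ j) * -(eval x (mu f))⁻¹) i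

/-- its differential -/
private noncomputable def Th' {c s : ℕ} (f : Fin c → MvPolynomial (Fin c ⊕ Fin s) ℝ)
    (φ : MvPolynomial (Fin c ⊕ Fin s) ℝ) (x : Fin c ⊕ Fin s → ℝ) :
    (Fin c ⊕ Fin s → ℝ) →L[ℝ] (Fin c ⊕ Fin s → ℝ) :=
  ContinuousLinearMap.pi fun i => Sum.elim (fun a => G (f a) x)
    (fun j => eval x (bord f φ j) • -(-(eval x (mu f) ^ 2)⁻¹ • G (mu f) x) +
      -(eval x (mu f))⁻¹ • G (bord f φ j) x) i

private theorem hasTh {c s : ℕ} (f : Fin c → MvPolynomial (Fin c ⊕ Fin s) ℝ)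
    (φ : MvPolynomial (Fin c ⊕ Fin s) ℝ) (x : Fin c ⊕ Fin s → ℝ) (hx : eval x (mu f) ≠ 0) :
    HasFDerivAt (Th f φ) (Th' f φ x) x := by
  rw [hasFDerivAt_pi']
  intro i
  cases i with
  | inl a =>
    have h : (ContinuousLinearMap.proj (Sum.inl a) : (Fin c ⊕ Fin s → ℝ) →L[ℝ] ℝ).comp
        (Th' f φ x) = G (f a) x := by
      ext z
      rfl
    rw [h]
    exact hasG (f a) x
  | inr j =>
    have h : (ContinuousLinearMap.proj (Sum.inr j) : (Fin c ⊕ Fin s → ℝ) →L[ℝ] ℝ).comp
        (Th' f φ x) = eval x (bord f φ j) • -(-(eval x (mu f) ^ 2)⁻¹ • G (mu f) x) +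
      -(eval x (mu f))⁻¹ • G (bord f φ j) x := by
      ext z
      rfl
    rw [h]
    have h1 : HasFDerivAt (fun y : Fin c ⊕ Fin s → ℝ => (eval y (mu f))⁻¹)
        (-(eval x (mu f) ^ 2)⁻¹ • G (mu f) x) x :=
      (hasDerivAt_inv hx).comp_hasFDerivAt x (hasG (mu f) x)
    exact (hasG (bord f φ j) x).mul h1.neg

theorem generic {c s : ℕ} (f : Fin c → MvPolynomial (Fin c ⊕ Fin s) ℝ)
    (φ : MvPolynomial (Fin c ⊕ Fin s) ℝ) (ε : ℝ) (hε : 0 < ε) :
    ∃ (w : Fin c → ℝ) (v : Fin s → ℝ), (∀ a, |w a| < ε) ∧ (∀ j, |v j| < ε) ∧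
      ∀ x : Fin c ⊕ Fin s → ℝ, eval x (mu f) ≠ 0 → (∀ i, eval x (sys f φ w v i) = 0) →
        (jac (sys f φ w v) x).det ≠ 0 := by
  classical
  let U : Set (Fin c ⊕ Fin s → ℝ) := {x | eval x (mu f) ≠ 0 ∧ (Th' f φ x).det = 0}
  have h0 : MeasureTheory.volume (Th f φ '' U) = 0 := by
    refine MeasureTheory.addHaar_image_eq_zero_of_det_fderivWithin_eq_zero _
      (f' := fun x => Th' f φ x) ?_ ?_
    · intro x hx
      exact (hasTh f φ x hx.1).hasFDerivWithinAt
    · intro x hx
      exact hx.2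
  have h1 : ∃ y ∈ Metric.ball (0 : Fin c ⊕ Fin s → ℝ) ε, y ∉ Th f φ '' U := by
    by_contra hcon
    push Not at hcon
    have h2 : MeasureTheory.volume (Metric.ball (0 : Fin c ⊕ Fin s → ℝ) ε) ≤ 0 := by
      rw [← h0]
      exact MeasureTheory.measure_mono hcon
    exact absurd h2 (not_le.mpr (Metric.measure_ball_pos _ _ hε))
  obtain ⟨y, hy, hyU⟩ := h1
  have hyb : ∀ i, |y i| < ε := by
    intro i
    rw [mem_ball_zero_iff] at hy
    exact (norm_le_pi_norm y i).trans_lt hy
  refine ⟨fun a => y (Sum.inl a), fun j => y (Sum.inr j), fun a => hyb _, fun j => hyb _, ?_⟩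
  intro x hx hsys
  have hTh : Th f φ x = y := by
    funext i
    cases i with
    | inl a =>
      have h2 := hsys (Sum.inl a)
      simp only [sys, Sum.elim_inl, map_sub, eval_C] at h2
      show eval x (f a) = y (Sum.inl a)
      linarith
    | inr j =>
      have h2 := hsys (Sum.inr j)
      simp only [sys, Sum.elim_inr, map_add, map_mul, eval_C] at h2
      show eval x (bord f φ j) * -(eval x (mu f))⁻¹ = y (Sum.inr j)
      field_simp
      linarith
  have hdet : (Th' f φ x).det ≠ 0 := by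
    intro h2
    exact hyU ⟨x, ⟨hx, h2⟩, hTh⟩
  have hinj : ∀ z, Th' f φ x z = 0 → z = 0 := by
    have h2 : IsUnit ((Th' f φ x : (Fin c ⊕ Fin s → ℝ) →L[ℝ] (Fin c ⊕ Fin s → ℝ)) :
        (Fin c ⊕ Fin s → ℝ) →ₗ[ℝ] (Fin c ⊕ Fin s → ℝ)) := by
      rw [LinearMap.isUnit_iff_isUnit_det]
      exact isUnit_iff_ne_zero.mpr hdet
    have h3 := ((Module.End.isUnit_iff _).mp h2).1
    intro z hz
    exact h3 (by simpa using hz)
  intro hj
  obtain ⟨z, hz, hz0⟩ := Matrix.exists_mulVec_eq_zero_iff.mpr hj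
  apply hz
  apply hinj
  funext i
  have h2 := congrFun hz0 i
  cases i with
  | inl a =>
    show G (f a) x z = 0
    rw [G_apply]
    simp only [Matrix.mulVec, dotProduct, jac, Matrix.of_apply, sys, Sum.elim_inl, map_sub,
      pderiv_C, sub_zero, map_zero, Pi.zero_apply] at h2
    exact h2
  | inr j =>
    show eval x (bord f φ j) * -(-(eval x (mu f) ^ 2)⁻¹ * G (mu f) x z) +
      -(eval x (mu f))⁻¹ * G (bord f φ j) x z = 0
    have h3 : G (bord f φ j) x z + y (Sum.inr j) * G (mu f) x z = 0 := by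
      rw [G_apply, G_apply, Finset.mul_sum, ← Finset.sum_add_distrib]
      simp only [Matrix.mulVec, dotProduct, jac, Matrix.of_apply, sys, Sum.elim_inr, map_add,
        Derivation.leibniz, pderiv_C, smul_zero, add_zero, map_zero, Pi.zero_apply,
        smul_eq_mul, map_mul, eval_C] at h2
      rw [← h2]
      refine Finset.sum_congr rfl fun i _ => ?_
      ring
    have h4 : y (Sum.inr j) = eval x (bord f φ j) * -(eval x (mu f))⁻¹ := by
      rw [← hTh]
      rfl
    rw [h4] at h3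
    have h5 : G (bord f φ j) x z = eval x (bord f φ j) * (eval x (mu f))⁻¹ * G (mu f) x z := by
      linarith
    rw [h5]
    field_simp
    ring

end HDI
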