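import Mathlib

/-!
# HDI-Deriv: a derivation which does not kill a transcendental element (characteristic 0)

Mathlib only. Extend `t` to a transcendence basis `B` of `L` over `K`; `L` is formally étale over `K[B]`
(localisation followed by a separable algebraic extension), so the derivation `∂/∂t` of `K[B]` extends to `L`.
-/

namespace HDI

/-- extension of derivations along formally étale maps -/
private theorem extend_der {K S L : Type*} [CommRing K] [CommRing S] [CommRing L] [Algebra K S]
    [Algebra K L] [Algebra S L] [IsScalarTower K S L] [Algebra.FormallyEtale S L]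
    (D₁ : Derivation K S L) : ∃ D : Derivation K L L, ∀ s : S, D (algebraMap S L s) = D₁ s := by
  let e := (KaehlerDifferential.tensorKaehlerEquivOfFormallyEtale K S L).symm
  let f : TensorProduct S L (KaehlerDifferential K S) →ₗ[L] L :=
    LinearMap.liftBaseChange L D₁.liftKaehlerDifferential
  refine ⟨(f ∘ₗ e.toLinearMap).compDer (KaehlerDifferential.D K L), fun s => ?_⟩
  have h1 : e (KaehlerDifferential.D K L (algebraMap S L s)) =
      TensorProduct.tmul S (1 : L) (KaehlerDifferential.D K S s) :=
    KaehlerDifferential.tensorKaehlerEquivOfFormallyEtale_symm_D_algebraMap K S L s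
  show f (e (KaehlerDifferential.D K L (algebraMap S L s))) = D₁ s
  rw [h1]
  simp [f]

open scoped IntermediateField.algebraAdjoinAdjoin in
theorem exists_derivation {K L : Type*} [Field K] [CharZero K] [Field L] [Algebra K L]
    (t : L) (ht : Transcendental K t) : ∃ D : Derivation K L L, D t ≠ 0 := by
  classical
  have hs : AlgebraicIndepOn K id ({t} : Set L) := by
    have h1 : AlgebraicIndependent K (fun x : ({t} : Set L) => (x : L)) := by
      rw [algebraicIndependent_unique_type_iff]
      exact ht
    exact h1
  obtain ⟨B, htB, hB⟩ := exists_isTranscendenceBasis_superset hs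
  have hind : AlgebraicIndependent K (fun x : B => (x : L)) := hB.1
  have hFL : Algebra.IsAlgebraic
      (IntermediateField.adjoin K (Set.range (fun x : B => (x : L)))) L := hB.isAlgebraic_field
  have e1 : Algebra.FormallyEtale
      (IntermediateField.adjoin K (Set.range (fun x : B => (x : L)))) L :=
    Algebra.FormallyEtale.of_isSeparable _ L
  have e2 : Algebra.FormallyEtale (Algebra.adjoin K (Set.range (fun x : B => (x : L))))
      (IntermediateField.adjoin K (Set.range (fun x : B => (x : L)))) :=
    Algebra.FormallyEtale.of_isLocalization (nonZeroDivisors _)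
  have e3 : Algebra.FormallyEtale (Algebra.adjoin K (Set.range (fun x : B => (x : L)))) L :=
    Algebra.FormallyEtale.comp _
      (IntermediateField.adjoin K (Set.range (fun x : B => (x : L)))) L
  let x₀ : B := ⟨t, htB rfl⟩
  let ev := hind.aevalEquiv
  let D₁ : Derivation K (Algebra.adjoin K (Set.range (fun x : B => (x : L)))) L :=
    Derivation.mk'
      ((MvPolynomial.aeval (fun x : B => (x : L))).toLinearMap ∘ₗ
        ((MvPolynomial.pderiv x₀ : Derivation K (MvPolynomial B K) (MvPolynomial B K)) :
          MvPolynomial B K →ₗ[K] MvPolynomial B K) ∘ₗ ev.symm.toLinearMap)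
      (by
        intro a b
        have ha : ∀ a : Algebra.adjoin K (Set.range (fun x : B => (x : L))),
            MvPolynomial.aeval (fun x : B => (x : L)) (ev.symm a) = (a : L) := fun a =>
          hind.aeval_repr a
        simp only [LinearMap.comp_apply, AlgEquiv.toLinearMap_apply, AlgHom.toLinearMap_apply,
          map_mul]
        show MvPolynomial.aeval (fun x : B => (x : L))
          (MvPolynomial.pderiv x₀ (ev.symm a * ev.symm b)) =
          (a : L) * MvPolynomial.aeval (fun x : B => (x : L)) (MvPolynomial.pderiv x₀ (ev.symm b)) +
          (b : L) * MvPolynomial.aeval (fun x : B => (x : L)) (MvPolynomial.pderiv x₀ (ev.symm a))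
        rw [Derivation.leibniz, map_add, smul_eq_mul, smul_eq_mul, map_mul, map_mul, ha, ha])
  obtain ⟨D, hD⟩ := extend_der D₁
  refine ⟨D, ?_⟩
  have h1 : algebraMap (Algebra.adjoin K (Set.range (fun x : B => (x : L)))) L
      (ev (MvPolynomial.X x₀)) = t := by
    rw [hind.algebraMap_aevalEquiv, MvPolynomial.aeval_X]
  have h2 : D t = 1 := by
    rw [← h1, hD]
    show MvPolynomial.aeval (fun x : B => (x : L))
      (MvPolynomial.pderiv x₀ (ev.symm (ev (MvPolynomial.X x₀)))) = 1
    rw [AlgEquiv.symm_apply_apply, MvPolynomial.pderiv_X_self, map_one]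
  rw [h2]
  exact one_ne_zero

end HDI
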