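import Mathlib
import Pool.Agent.HDI.Defs
import Pool.Agent.HDI.Deriv

/-!
# HDI-FinCrit: a coordinate has finitely many critical values (algebraic Sard theorem)

An infinite sequence of critical values gives, in an ultrapower `L` of `ℝ`, a point of the variety at which the differential of
the coordinate `i0` is a combination of the differentials of the equations, and whose coordinate `t` is transcendental over
`ℝ`. A derivation `D` of `L` over `ℝ` with `D t ≠ 0` (`exists_derivation`) contradicts the chain rule.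
-/

namespace HDI

open MvPolynomial

private theorem chain {ι L : Type*} [Fintype ι] [Field L] [Algebra ℝ L] (D : Derivation ℝ L L) (ξ : ι → L)
    (g : MvPolynomial ι ℝ) : D (aeval ξ g) = ∑ i, aeval ξ (pderiv i g) * D (ξ i) := by
  classical
  induction g using MvPolynomial.induction_on with
  | C a =>
    rw [aeval_C, Derivation.map_algebraMap]
    simp
  | add p q hp hq =>
    rw [map_add, map_add, hp, hq, ← Finset.sum_add_distrib]
    refine Finset.sum_congr rfl fun i _ => ?_
    rw [map_add, map_add, add_mul]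
  | mul_X p j hp =>
    rw [map_mul, aeval_X, Derivation.leibniz, hp, smul_eq_mul, smul_eq_mul, Finset.mul_sum]
    have h1 : ∀ i, aeval ξ (pderiv i (p * X j)) * D (ξ i) =
        aeval ξ p * (if i = j then D (ξ i) else 0) + ξ j * (aeval ξ (pderiv i p) * D (ξ i)) := by
      intro i
      rw [pderiv_mul, map_add, map_mul, map_mul, aeval_X, pderiv_X]
      by_cases h : i = j
      · rw [h, Pi.single_eq_same, if_pos rfl, map_one]
        ring
      · rw [Pi.single_eq_of_ne (Ne.symm h), if_neg h, map_zero]
        ring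
    simp_rw [h1]
    rw [Finset.sum_add_distrib, ← Finset.mul_sum, ← Finset.mul_sum, Finset.sum_ite_eq' Finset.univ j,
      if_pos (Finset.mem_univ j)]

private theorem core {ι : Type*} [Fintype ι] [DecidableEq ι] {c : ℕ} {L : Type*} [Field L]
    (φ : (ℕ → ℝ) →+* L) (hφ : ∀ s, φ s = 0 → {n | s n = 0}.Infinite)
    (f : Fin c → MvPolynomial ι ℝ) (i0 : ι) (x : ℕ → ι → ℝ) (l : ℕ → Fin c → ℝ)
    (h0 : ∀ k a, eval (x k) (f a) = 0)
    (h1 : ∀ k i, (if i = i0 then (1 : ℝ) else 0) = ∑ a, l k a * eval (x k) (pderiv i (f a)))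
    (hinj : Function.Injective fun k => x k i0) : False := by
  let _ : Algebra ℝ L := (φ.comp (Pi.constRingHom ℕ ℝ)).toAlgebra
  have halg : ∀ r : ℝ, algebraMap ℝ L r = φ (fun _ => r) := fun r => rfl
  set ξ : ι → L := fun i => φ fun k => x k i with hξ
  have haev : ∀ g : MvPolynomial ι ℝ, aeval ξ g = φ fun k => eval (x k) g := by
    intro g
    have h2 : (φ.comp (RingHom.pi fun k => (eval (x k) : MvPolynomial ι ℝ →+* ℝ))) =
        ((aeval ξ : MvPolynomial ι ℝ →ₐ[ℝ] L) : MvPolynomial ι ℝ →+* L) := by
      refine MvPolynomial.ringHom_ext (fun r => ?_) (fun i => ?_)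
      · show φ (fun k => eval (x k) (C r)) = aeval ξ (C r)
        rw [aeval_C, halg]
        congr 1
        funext k
        rw [eval_C]
      · show φ (fun k => eval (x k) (X i)) = aeval ξ (X i)
        rw [aeval_X]
        congr 1
        funext k
        rw [eval_X]
    exact (congrArg (fun r : MvPolynomial ι ℝ →+* L => r g) h2).symm
  have htr : Transcendental ℝ (ξ i0) := by
    rintro ⟨p, hp0, hp⟩
    have h2 : (φ.comp (RingHom.pi fun k => (Polynomial.evalRingHom (x k i0) : Polynomial ℝ →+* ℝ))) =
        ((Polynomial.aeval (ξ i0) : Polynomial ℝ →ₐ[ℝ] L) : Polynomial ℝ →+* L) := by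
      refine Polynomial.ringHom_ext (fun r => ?_) ?_
      · show φ (fun k => (Polynomial.C r).eval (x k i0)) = Polynomial.aeval (ξ i0) (Polynomial.C r)
        rw [Polynomial.aeval_C, halg]
        congr 1
        funext k
        rw [Polynomial.eval_C]
      · show φ (fun k => (Polynomial.X : Polynomial ℝ).eval (x k i0)) = Polynomial.aeval (ξ i0) Polynomial.X
        rw [Polynomial.aeval_X]
        congr 1
        funext k
        rw [Polynomial.eval_X]
    have h3 : φ (fun k => p.eval (x k i0)) = 0 := by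
      rw [← hp]
      exact congrArg (fun r : Polynomial ℝ →+* L => r p) h2
    have h4 := hφ _ h3
    apply hp0
    refine Polynomial.eq_zero_of_infinite_isRoot p ?_
    refine (h4.image hinj.injOn).mono ?_
    rintro _ ⟨k, hk, rfl⟩
    exact hk
  obtain ⟨D, hD⟩ := exists_derivation (ξ i0) htr
  apply hD
  set Λ : Fin c → L := fun a => φ fun k => l k a with hΛ
  have hf : ∀ a, aeval ξ (f a) = 0 := by
    intro a
    have h2 : (fun k => eval (x k) (f a)) = fun _ => (0 : ℝ) := by
      funext k
      rw [h0 k a]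
    rw [haev, h2]
    exact map_zero φ
  have hg : ∀ i, (if i = i0 then (1 : L) else 0) = ∑ a, Λ a * aeval ξ (pderiv i (f a)) := by
    intro i
    have h2 : (fun k : ℕ => (if i = i0 then (1 : ℝ) else 0)) =
        ∑ a, (fun k => l k a) * (fun k => eval (x k) (pderiv i (f a))) := by
      funext k
      rw [Finset.sum_apply]
      exact h1 k i
    have h3 := congrArg φ h2
    rw [map_sum] at h3
    have h4 : φ (fun k : ℕ => (if i = i0 then (1 : ℝ) else 0)) = if i = i0 then (1 : L) else 0 := by
      split_ifs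
      · exact map_one φ
      · exact map_zero φ
    rw [← h4, h3]
    refine Finset.sum_congr rfl fun a _ => ?_
    rw [map_mul, haev]
  have h5 : D (ξ i0) = ∑ i, (if i = i0 then (1 : L) else 0) * D (ξ i) := by
    simp
  rw [h5]
  have h6 : ∑ i, (if i = i0 then (1 : L) else 0) * D (ξ i) = ∑ a, Λ a * D (aeval ξ (f a)) := by
    simp_rw [hg, chain, Finset.sum_mul, Finset.mul_sum]
    rw [Finset.sum_comm]
    refine Finset.sum_congr rfl fun a _ => Finset.sum_congr rfl fun i _ => ?_
    ring
  rw [h6]
  refine Finset.sum_eq_zero fun a _ => ?_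
  rw [hf, map_zero, mul_zero]

theorem finite_crit {ι : Type*} [Fintype ι] [DecidableEq ι] {c : ℕ}
    (f : Fin c → MvPolynomial ι ℝ) (i0 : ι) :
    {t : ℝ | ∃ x : ι → ℝ, (∀ a, eval x (f a) = 0) ∧
      (∃ l : Fin c → ℝ, ∀ i, (if i = i0 then (1 : ℝ) else 0) =
        ∑ a, l a * eval x (pderiv i (f a))) ∧ x i0 = t}.Finite := by
  by_contra hinf
  have hinf' : Set.Infinite {t : ℝ | ∃ x : ι → ℝ, (∀ a, eval x (f a) = 0) ∧
      (∃ l : Fin c → ℝ, ∀ i, (if i = i0 then (1 : ℝ) else 0) =
        ∑ a, l a * eval x (pderiv i (f a))) ∧ x i0 = t} := hinf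
  set τ := hinf'.natEmbedding with hτ
  choose x hx0 hx1 hx2 using fun k => (τ k).2
  choose l hl using hx1
  refine core (Filter.Germ.coeRingHom (R := ℝ) (Filter.hyperfilter ℕ : Filter ℕ)) ?_ f i0 x l hx0 hl ?_
  · intro s hs
    have h1 : ∀ᶠ n in (Filter.hyperfilter ℕ : Filter ℕ), s n = 0 := Filter.Germ.coe_eq.mp hs
    intro hfin
    exact Filter.notMem_hyperfilter_of_finite hfin h1
  · intro k k' hk
    apply τ.injective
    apply Subtype.ext
    rw [← hx2 k, ← hx2 k']
    exact hk

end HDI
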