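import Mathlib
import Pool.Agent.HDI.Defs

/-!
# HDI-Ren: renaming of variables and finite dimensionality

Elementary lemmas used by BoxesF and CritF.
* `eval_ren`: `eval (p ∘ σ.symm) (rename σ f) = eval p f` (`eval_rename`).
* `pderiv_ren`: `eval (p ∘ σ.symm) (pderiv (σ i) (rename σ f)) = eval p (pderiv i f)`
  (`MvPolynomial.pderiv_rename` for injective maps, or by induction on `f`).
* `totalDegree_ren`: `(rename σ f).totalDegree ≤ f.totalDegree` (`totalDegree_rename_le`).
* `exists_basis`: every space of polynomials of degree `≤ D` in `n` variables is spanned by at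
  most `r0 = r0 (n, D)` polynomials: it is a subspace of the finite-dimensional space spanned by
  the finitely many monomials `x ^ a`, `a i ≤ D` (e.g. `r0 = (D + 1) ^ n`).
-/

namespace HDI

open MvPolynomial

theorem eval_ren {n : ℕ} {τ : Type*} (σ : Fin n ≃ τ) (p : Fin n → ℝ)
    (f : MvPolynomial (Fin n) ℝ) : eval (p ∘ σ.symm) (rename σ f) = eval p f := by
  rw [eval_rename]
  congr 2
  funext i
  simp

theorem pderiv_ren {n : ℕ} {τ : Type*} (σ : Fin n ≃ τ) (p : Fin n → ℝ)
    (f : MvPolynomial (Fin n) ℝ) (i : Fin n) :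
    eval (p ∘ σ.symm) (pderiv (σ i) (rename σ f)) = eval p (pderiv i f) := by
  rw [pderiv_rename σ.injective, eval_ren]

theorem totalDegree_ren {n : ℕ} {τ : Type*} (σ : Fin n ≃ τ) (f : MvPolynomial (Fin n) ℝ) :
    (rename σ f).totalDegree ≤ f.totalDegree := totalDegree_rename_le _ _

theorem exists_basis (n D : ℕ) : ∃ r0 : ℕ, ∀ F : Submodule ℝ (MvPolynomial (Fin n) ℝ),
    (∀ f ∈ F, f.totalDegree ≤ D) → ∃ (r : ℕ) (b : Fin r → MvPolynomial (Fin n) ℝ),
      r ≤ r0 ∧ (∀ j, b j ∈ F) ∧ Submodule.span ℝ (Set.range b) = F := by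
  refine ⟨Module.finrank ℝ (restrictTotalDegree (Fin n) ℝ D), fun F hF => ?_⟩
  have hle : F ≤ restrictTotalDegree (Fin n) ℝ D := fun f hf =>
    (mem_restrictTotalDegree _ _ _).2 (hF f hf)
  have hfin : Module.Finite ℝ (restrictTotalDegree (Fin n) ℝ D) := inferInstance
  have : FiniteDimensional ℝ (restrictTotalDegree (Fin n) ℝ D) := hfin
  have : FiniteDimensional ℝ F := Submodule.finiteDimensional_of_le hle
  refine ⟨Module.finrank ℝ F, fun j => (Module.finBasis ℝ F j : MvPolynomial (Fin n) ℝ),
    Submodule.finrank_mono hle, fun j => (Module.finBasis ℝ F j).2, ?_⟩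
  have h1 := (Module.finBasis ℝ F).span_eq
  have h2 : Set.range (fun j => (Module.finBasis ℝ F j : MvPolynomial (Fin n) ℝ)) =
      F.subtype '' Set.range (Module.finBasis ℝ F) := by
    ext x
    simp
  rw [h2, ← Submodule.map_span, h1]
  simp

/-- The gradients of the members of `F` are spanned by the gradients of the generators. -/
theorem map_gradL_span {n r : ℕ} (F : Submodule ℝ (MvPolynomial (Fin n) ℝ))
    (b : Fin r → MvPolynomial (Fin n) ℝ) (hb : Submodule.span ℝ (Set.range b) = F)
    (p : Fin n → ℝ) :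
    F.map (gradL p) = Submodule.span ℝ (Set.range fun j => grad p (b j)) := by
  rw [← hb, Submodule.map_span]
  congr 1
  ext x
  simp [gradL]

end HDI
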