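import Mathlib

/-!
# HDI-Assem: the exponent computation (Mathlib only, real powers)
-/

namespace HDI

private theorem assem_a_pos (k : ℕ) (hk : 2 ≤ k) : (0 : ℝ) < 2 * k - 1 := by
  have : (2 : ℝ) ≤ k := by exact_mod_cast hk
  linarith

theorem nR_eq (k : ℕ) (hk : 2 ≤ k) (m n : ℝ) (hm : 1 ≤ m) (hn : 1 ≤ n) :
    n * (m ^ k / n) ^ ((1 : ℝ) / (2 * k - 1)) =
      m ^ ((k : ℝ) / (2 * k - 1)) * n ^ ((2 * k - 2 : ℝ) / (2 * k - 1)) := by
  have ha := assem_a_pos k hk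
  have hm0 : 0 < m := by linarith
  have hn0 : 0 < n := by linarith
  rw [Real.div_rpow (by positivity) hn0.le, ← Real.rpow_natCast_mul hm0.le]
  have e1 : (k : ℝ) * (1 / (2 * k - 1)) = (k : ℝ) / (2 * k - 1) := by ring
  have e2 : (2 * k - 2 : ℝ) / (2 * k - 1) = 1 - 1 / (2 * k - 1) := by
    field_simp
    ring
  rw [e1, e2, Real.rpow_sub hn0, Real.rpow_one]
  ring

theorem one_le_R (k : ℕ) (hk : 2 ≤ k) (m n : ℝ) (hm : 1 ≤ m) (hn : 1 ≤ n)
    (h : n ≤ m ^ k) : 1 ≤ (m ^ k / n) ^ ((1 : ℝ) / (2 * k - 1)) := by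
  have ha := assem_a_pos k hk
  have hn0 : 0 < n := by linarith
  refine Real.one_le_rpow ?_ (by positivity)
  rw [one_le_div hn0]
  exact h

theorem R_sq_le (k : ℕ) (hk : 2 ≤ k) (m n : ℝ) (hm : 1 ≤ m) (hn : 1 ≤ n)
    (h : m ≤ n ^ 2) : ((m ^ k / n) ^ ((1 : ℝ) / (2 * k - 1))) ^ 2 ≤ m := by
  have ha := assem_a_pos k hk
  have hm0 : 0 < m := by linarith
  have hn0 : 0 < n := by linarith
  have hq : 0 < m ^ k / n := by positivity
  have h1 : ((m ^ k / n) ^ ((1 : ℝ) / (2 * k - 1))) ^ 2 =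
      ((m ^ k / n) ^ 2) ^ ((1 : ℝ) / (2 * k - 1)) := by
    rw [← Real.rpow_natCast_mul hq.le, ← Real.rpow_mul_natCast hq.le]
    congr 1
    exact mul_comm _ _
  have h2 : (m ^ k / n) ^ 2 ≤ m ^ ((2 * k - 1 : ℝ)) := by
    have e1 : m ^ ((2 * k - 1 : ℝ)) = (m ^ k) ^ 2 / m := by
      rw [Real.rpow_sub hm0, Real.rpow_one]
      congr 1
      rw [← pow_mul, ← Real.rpow_natCast]
      congr 1
      push_cast
      ring
    rw [e1, div_pow]
    exact div_le_div_of_nonneg_left (by positivity) hm0 h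
  rw [h1]
  calc ((m ^ k / n) ^ 2) ^ ((1 : ℝ) / (2 * k - 1))
      ≤ (m ^ ((2 * k - 1 : ℝ))) ^ ((1 : ℝ) / (2 * k - 1)) :=
        Real.rpow_le_rpow (by positivity) h2 (by positivity)
    _ = m := by
        rw [← Real.rpow_mul hm0.le, mul_one_div_cancel ha.ne', Real.rpow_one]

private theorem assem_R_pow (j : ℕ) (m n : ℝ) (hm : 1 ≤ m) (hn : 1 ≤ n) (R : ℝ)
    (hR : R = (m ^ (j + 1) / n) ^ ((1 : ℝ) / (2 * ((j + 1 : ℕ) : ℝ) - 1))) :
    R ^ (2 * j + 1) * n = m ^ (j + 1) := by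
  have hm0 : 0 < m := by linarith
  have hn0 : 0 < n := by linarith
  have hq : 0 < m ^ (j + 1) / n := by positivity
  have ha : (0 : ℝ) < 2 * ((j + 1 : ℕ) : ℝ) - 1 := by
    push_cast
    have : (0 : ℝ) ≤ j := Nat.cast_nonneg j
    linarith
  have h1 : R ^ (2 * j + 1) = m ^ (j + 1) / n := by
    rw [hR, ← Real.rpow_mul_natCast hq.le]
    have e : (1 : ℝ) / (2 * ((j + 1 : ℕ) : ℝ) - 1) * ((2 * j + 1 : ℕ) : ℝ) = 1 := by
      rw [one_div, inv_mul_eq_one₀ ha.ne']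
      push_cast
      ring
    rw [e, Real.rpow_one]
  rw [h1, div_mul_cancel₀ _ hn0.ne']

theorem assemble (k C : ℕ) (hk : 2 ≤ k) (m n M v R K1 K2 : ℝ) (hm : 1 ≤ m) (hn : 1 ≤ n)
    (hv : 0 < v) (hM : 0 ≤ M) (hK1 : 0 < K1)
    (hR : R = (m ^ k / n) ^ ((1 : ℝ) / (2 * k - 1))) (h1 : v ≤ K1 * R)
    (h2 : M * v * R ≤ K2 * m) :
    (k : ℝ) ≤ k * K1 * R / v ∧
      (k * K1 * R / v) * v * n + C * k * (k * M / (k * K1 * R / v)) ^ (k - 1) * m ≤
        (k * K1 + C * k * (K2 / K1) ^ (k - 1)) *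
          (m ^ ((k : ℝ) / (2 * k - 1)) * n ^ ((2 * k - 2 : ℝ) / (2 * k - 1))) := by
  have hm0 : 0 < m := by linarith
  have hn0 : 0 < n := by linarith
  have hk0 : (0 : ℝ) < k := by
    have : 0 < k := by omega
    exact_mod_cast this
  have hR0 : 0 < R := by
    rw [hR]
    have : 0 < m ^ k / n := by positivity
    positivity
  rw [← nR_eq k hk m n hm hn, ← hR]
  obtain ⟨j, rfl⟩ : ∃ j, k = j + 1 := ⟨k - 1, by omega⟩
  have hRp := assem_R_pow j m n hm hn R hR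
  rw [Nat.add_sub_cancel]
  set K : ℝ := ((j + 1 : ℕ) : ℝ) with hKdef
  constructor
  · rw [le_div_iff₀ hv]
    calc K * v ≤ K * (K1 * R) := mul_le_mul_of_nonneg_left h1 hk0.le
      _ = K * K1 * R := by ring
  · have e1 : K * K1 * R / v * v * n = K * K1 * (n * R) := by
      field_simp
    have e2 : K * M / (K * K1 * R / v) = M * v / (K1 * R) := by
      field_simp
    have h3 : M * v / (K1 * R) ≤ (K2 / K1) * (m / R ^ 2) := by
      rw [div_le_iff₀ (by positivity)]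
      have e3 : K2 / K1 * (m / R ^ 2) * (K1 * R) = K2 * m / R := by
        field_simp
      rw [e3, le_div_iff₀ hR0]
      exact h2
    have h4 : (M * v / (K1 * R)) ^ j ≤ ((K2 / K1) * (m / R ^ 2)) ^ j :=
      pow_le_pow_left₀ (by positivity) h3 j
    have e5 : ((K2 / K1) * (m / R ^ 2)) ^ j * m = (K2 / K1) ^ j * (n * R) := by
      rw [mul_pow, mul_assoc]
      congr 1
      rw [div_pow, ← pow_mul, div_mul_eq_mul_div, div_eq_iff (by positivity), ← pow_succ, ← hRp]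
      ring
    rw [e1, e2]
    calc K * K1 * (n * R) + C * K * (M * v / (K1 * R)) ^ j * m
        ≤ K * K1 * (n * R) + C * K * (((K2 / K1) * (m / R ^ 2)) ^ j * m) := by
          have h5 : (M * v / (K1 * R)) ^ j * m ≤ ((K2 / K1) * (m / R ^ 2)) ^ j * m :=
            mul_le_mul_of_nonneg_right h4 hm0.le
          have h6 : (C : ℝ) * K * ((M * v / (K1 * R)) ^ j * m) ≤
              C * K * (((K2 / K1) * (m / R ^ 2)) ^ j * m) :=
            mul_le_mul_of_nonneg_left h5 (by positivity)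
          linarith
      _ = (K * K1 + C * K * (K2 / K1) ^ j) * (n * R) := by
          rw [e5]
          ring

end HDI
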