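import Mathlib
import Pool.Agent.HDI.Bezout
import Pool.Agent.HDI.Sard
import Pool.Agent.HDI.MaxP

/-!
# HDI-Pieces: counting pieces

`exists_crit` gives `ε l > 0` for every `l : L`; let `ε` be the minimum and take `w, v` from
`generic f φ ε`. For every `l` there is a solution `x l ∈ U l` of `sys f φ w v` with `mu ≠ 0`; it is
nondegenerate, and `x` is injective because the `U l` are pairwise disjoint. Apply `bezout`.
-/

namespace HDI

open MvPolynomial

theorem pieces {c s : ℕ} (D E : ℕ) (f : Fin c → MvPolynomial (Fin c ⊕ Fin s) ℝ)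
    (hf : ∀ a, (f a).totalDegree ≤ D) (φ : MvPolynomial (Fin c ⊕ Fin s) ℝ)
    (hφ : φ.totalDegree ≤ E) {L : Type*} [Fintype L] (U : L → Set (Fin c ⊕ Fin s → ℝ))
    (p : L → Fin c ⊕ Fin s → ℝ) (hopen : ∀ l, IsOpen (U l))
    (hbd : ∀ l, Bornology.IsBounded (U l)) (hdis : ∀ l l', l ≠ l' → Disjoint (U l) (U l'))
    (ε0 : ℝ) (h0 : 0 < ε0)
    (hcl : ∀ l, ∀ x ∈ closure (U l), (∀ a, |eval x (f a)| ≤ ε0) → 0 < eval x φ →
      x ∈ U l ∧ eval x (mu f) ≠ 0)
    (hp : ∀ l, p l ∈ U l) (hpf : ∀ l a, eval (p l) (f a) = 0)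
    (hpm : ∀ l, eval (p l) (mu f) ≠ 0) (hpφ : ∀ l, 0 < eval (p l) φ) :
    Fintype.card L ≤ (D + 1) ^ c * (c * D + E + 1) ^ s := by
  classical
  rcases isEmpty_or_nonempty L with hL | hL
  · rw [Fintype.card_eq_zero]
    exact Nat.zero_le _
  choose ε hε hε' using fun l => exists_crit f φ (U l) (hopen l) (hbd l) ε0 h0 (hcl l) (p l)
    (hp l) (hpf l) (hpm l) (hpφ l)
  obtain ⟨l0, hl0⟩ := Finite.exists_min ε
  obtain ⟨w, v, hw, hv, hgen⟩ := generic f φ (ε l0) (hε l0)
  choose x hxU hxm hxs using fun l => hε' l w v (fun a => (hw a).trans_le (hl0 l))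
    (fun j => (hv j).trans_le (hl0 l))
  have hinj : Function.Injective x := by
    intro l l' h
    by_contra hne
    exact Set.disjoint_left.1 (hdis l l' hne) (hxU l) (h ▸ hxU l')
  have hdeg : ∀ i, (sys f φ w v i).totalDegree ≤
      (Sum.elim (fun _ : Fin c => D) (fun _ : Fin s => c * D + E)) i := by
    rintro (a | j)
    · simp only [sys, Sum.elim_inl]
      exact (totalDegree_sub_C_le _ _).trans (hf a)
    · simp only [sys, Sum.elim_inr]
      refine (totalDegree_add _ _).trans (max_le (totalDegree_bord_le D E f hf φ hφ j) ?_)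
      refine (totalDegree_mul _ _).trans ?_
      rw [totalDegree_C, zero_add]
      exact (totalDegree_mu_le D f hf).trans (Nat.le_add_right _ _)
  have hb := bezout (Sum.elim (fun _ : Fin c => D) (fun _ : Fin s => c * D + E))
    (sys f φ w v) hdeg (Finset.univ.image x) (by
      intro z hz
      obtain ⟨l, -, rfl⟩ := Finset.mem_image.1 hz
      exact ⟨hxs l, hgen (x l) (hxm l) (hxs l)⟩)
  rw [Finset.card_image_of_injective _ hinj, Finset.card_univ, Fintype.prod_sum_type] at hb
  simpa only [Sum.elim_inl, Sum.elim_inr, Finset.prod_const, Finset.card_univ,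
    Fintype.card_fin] using hb

end HDI
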