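import Mathlib
import Pool.Agent.HDI.Pieces

/-!
# HDI-BoxesG: number of boxes of a grid visited (one nonvanishing minor)

`G = ∏ i, ∏ θ ∈ Θ i, (X i - C θ)` has degree `≤ T = ∑ i, (Θ i).card`; `ρ > 0` with `∑ i, (p i) ^ 2 < ρ ^ 2` for all
`p ∈ Q`, and `φ = (G * mu f) ^ 2 * (C (ρ ^ 2) - ∑ i, X i ^ 2)`, of degree `≤ 2 * (T + c * D) + 2`. The boxes
`U p = {x | ∑ i, (x i) ^ 2 < ρ ^ 2 ∧ ∀ i, ∀ θ ∈ Θ i, 0 < (x i - θ) * (p i - θ)}`, `p ∈ Q`, are pairwise disjoint; `pieces`.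
-/

namespace HDI

open MvPolynomial

private noncomputable def bgG {ι : Type*} [Fintype ι] (Θ : ι → Finset ℝ) : MvPolynomial ι ℝ :=
  ∏ i, ∏ θ ∈ Θ i, (X i - C θ)

private theorem bgG_eval {ι : Type*} [Fintype ι] (Θ : ι → Finset ℝ) (x : ι → ℝ) :
    eval x (bgG Θ) ≠ 0 ↔ ∀ i, x i ∉ Θ i := by
  unfold bgG
  rw [map_prod, Finset.prod_ne_zero_iff]
  have h1 : ∀ i, eval x (∏ θ ∈ Θ i, (X i - C θ)) ≠ 0 ↔ x i ∉ Θ i := by
    intro i
    rw [map_prod, Finset.prod_ne_zero_iff]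
    simp only [map_sub, eval_X, eval_C, sub_ne_zero]
    constructor
    · intro h2 h3
      exact h2 _ h3 rfl
    · intro h2 θ hθ h3
      exact h2 (h3 ▸ hθ)
  constructor
  · intro h2 i
    exact (h1 i).1 (h2 i (Finset.mem_univ i))
  · intro h2 i _
    exact (h1 i).2 (h2 i)

private theorem bgG_deg {ι : Type*} [Fintype ι] (Θ : ι → Finset ℝ) :
    (bgG Θ).totalDegree ≤ ∑ i, (Θ i).card := by
  unfold bgG
  refine (totalDegree_finsetProd _ _).trans (Finset.sum_le_sum fun i _ => ?_)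
  refine (totalDegree_finsetProd _ _).trans ?_
  refine (Finset.sum_le_card_nsmul _ _ 1 fun θ _ => ?_).trans (by simp)
  refine (totalDegree_sub _ _).trans (max_le ?_ ?_)
  · exact (totalDegree_X (R := ℝ) i).le
  · rw [totalDegree_C]
    exact Nat.zero_le _

private theorem bg_sq {ι : Type*} [Fintype ι] (r : ℝ) :
    (C r - ∑ i, X i ^ 2 : MvPolynomial ι ℝ).totalDegree ≤ 2 := by
  refine (totalDegree_sub _ _).trans (max_le ?_ ?_)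
  · rw [totalDegree_C]
    exact Nat.zero_le _
  · refine (totalDegree_finsetSum _ _).trans (Finset.sup_le fun i _ => ?_)
    refine (totalDegree_pow _ _).trans ?_
    rw [totalDegree_X]

theorem boxes_graph {c s : ℕ} (D : ℕ) (f : Fin c → MvPolynomial (Fin c ⊕ Fin s) ℝ)
    (hf : ∀ a, (f a).totalDegree ≤ D) (Θ : Fin c ⊕ Fin s → Finset ℝ)
    (Q : Finset (Fin c ⊕ Fin s → ℝ))
    (hQ : ∀ p ∈ Q, (∀ a, eval p (f a) = 0) ∧ eval p (mu f) ≠ 0 ∧ ∀ i, p i ∉ Θ i)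
    (hsep : ∀ p ∈ Q, ∀ q ∈ Q, p ≠ q → Sep Θ p q) :
    Q.card ≤ (D + 1) ^ c * (c * D + (2 * (∑ i, (Θ i).card + c * D) + 2) + 1) ^ s := by
  classical
  obtain ⟨ρ, hρ0, hρ⟩ : ∃ ρ : ℝ, 0 < ρ ∧ ∀ p ∈ Q, ∑ i, (p i) ^ 2 < ρ ^ 2 := by
    refine ⟨1 + ∑ p ∈ Q, ∑ i, (p i) ^ 2, ?_, fun p hp => ?_⟩
    · have : 0 ≤ ∑ p ∈ Q, ∑ i, (p i) ^ 2 :=
        Finset.sum_nonneg fun p _ => Finset.sum_nonneg fun i _ => sq_nonneg _
      linarith
    · have h1 : ∑ i, (p i) ^ 2 ≤ ∑ p ∈ Q, ∑ i, (p i) ^ 2 :=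
        Finset.single_le_sum (f := fun p : Fin c ⊕ Fin s → ℝ => ∑ i, (p i) ^ 2)
          (fun p _ => Finset.sum_nonneg fun i _ => sq_nonneg _) hp
      have h2 : 0 ≤ ∑ i, (p i) ^ 2 := Finset.sum_nonneg fun i _ => sq_nonneg _
      nlinarith
  let φ : MvPolynomial (Fin c ⊕ Fin s) ℝ := (bgG Θ * mu f) ^ 2 * (C (ρ ^ 2) - ∑ i, X i ^ 2)
  have hφd : φ.totalDegree ≤ 2 * (∑ i, (Θ i).card + c * D) + 2 := by
    refine (totalDegree_mul _ _).trans (add_le_add ?_ (bg_sq _))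
    refine (totalDegree_pow _ _).trans (Nat.mul_le_mul_left 2 ?_)
    exact (totalDegree_mul _ _).trans (add_le_add (bgG_deg Θ) (totalDegree_mu_le D f hf))
  have hφe : ∀ x, eval x φ = (eval x (bgG Θ) * eval x (mu f)) ^ 2 * (ρ ^ 2 - ∑ i, (x i) ^ 2) := by
    intro x
    simp only [φ, map_mul, map_pow, map_sub, map_sum, eval_C, eval_X]
  let U : {p // p ∈ Q} → Set (Fin c ⊕ Fin s → ℝ) := fun p =>
    {x | ∑ i, (x i) ^ 2 < ρ ^ 2 ∧ ∀ i, ∀ θ ∈ Θ i, 0 < (x i - θ) * (p.1 i - θ)}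
  have hnorm : Continuous fun x : Fin c ⊕ Fin s → ℝ => ∑ i, (x i) ^ 2 :=
    continuous_finsetSum _ fun i _ => (continuous_apply i).pow 2
  have hlin : ∀ (i : Fin c ⊕ Fin s) (θ y : ℝ), Continuous fun x : Fin c ⊕ Fin s → ℝ => (x i - θ) * y :=
    fun i θ y => ((continuous_apply i).sub continuous_const).mul continuous_const
  have hcl : ∀ p, ∀ x ∈ closure (U p), ∑ i, (x i) ^ 2 ≤ ρ ^ 2 ∧
      ∀ i, ∀ θ ∈ Θ i, 0 ≤ (x i - θ) * (p.1 i - θ) := by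
    intro p x hx
    have h1 : IsClosed {x : Fin c ⊕ Fin s → ℝ | ∑ i, (x i) ^ 2 ≤ ρ ^ 2 ∧
        ∀ i, ∀ θ ∈ Θ i, 0 ≤ (x i - θ) * (p.1 i - θ)} := by
      have h2 : {x : Fin c ⊕ Fin s → ℝ | ∑ i, (x i) ^ 2 ≤ ρ ^ 2 ∧
          ∀ i, ∀ θ ∈ Θ i, 0 ≤ (x i - θ) * (p.1 i - θ)} = {x | ∑ i, (x i) ^ 2 ≤ ρ ^ 2} ∩
          ⋂ i, ⋂ θ ∈ Θ i, {x | 0 ≤ (x i - θ) * (p.1 i - θ)} := by
        ext y
        simp only [Set.mem_ofPred_eq, Set.mem_inter_iff, Set.mem_iInter]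
      rw [h2]
      refine (isClosed_le hnorm continuous_const).inter (isClosed_iInter fun i => isClosed_iInter fun θ =>
        isClosed_iInter fun _ => isClosed_le continuous_const (hlin i θ _))
    have h3 : U p ⊆ {x : Fin c ⊕ Fin s → ℝ | ∑ i, (x i) ^ 2 ≤ ρ ^ 2 ∧
        ∀ i, ∀ θ ∈ Θ i, 0 ≤ (x i - θ) * (p.1 i - θ)} :=
      fun y hy => ⟨hy.1.le, fun i θ hθ => (hy.2 i θ hθ).le⟩
    exact closure_minimal h3 h1 hx
  have hmain := pieces D (2 * (∑ i, (Θ i).card + c * D) + 2) f hf φ hφd (L := {p // p ∈ Q}) U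
    (fun p => p.1) (fun p => ?_) (fun p => ?_) (fun p q hpq => ?_) 1 one_pos (fun p x hx _ hpos => ?_)
    (fun p => ?_) (fun p => (hQ p.1 p.2).1) (fun p => (hQ p.1 p.2).2.1) (fun p => ?_)
  · rw [Fintype.card_coe] at hmain
    exact hmain
  · have h2 : U p = {x | ∑ i, (x i) ^ 2 < ρ ^ 2} ∩
        ⋂ i, ⋂ θ ∈ Θ i, {x | 0 < (x i - θ) * (p.1 i - θ)} := by
      ext y
      simp only [U, Set.mem_ofPred_eq, Set.mem_inter_iff, Set.mem_iInter]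
    rw [h2]
    refine (isOpen_lt hnorm continuous_const).inter (isOpen_iInter_of_finite fun i => ?_)
    exact isOpen_biInter_finset fun θ _ => isOpen_lt continuous_const (hlin i θ _)
  · refine (Metric.isBounded_closedBall (x := (0 : Fin c ⊕ Fin s → ℝ)) (r := ρ)).subset fun x hx => ?_
    rw [mem_closedBall_zero_iff, pi_norm_le_iff_of_nonneg hρ0.le]
    intro i
    rw [Real.norm_eq_abs]
    have h1 : (x i) ^ 2 ≤ ∑ i, (x i) ^ 2 :=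
      Finset.single_le_sum (f := fun i => (x i) ^ 2) (fun i _ => sq_nonneg _) (Finset.mem_univ i)
    exact abs_le_of_sq_le_sq (h1.trans hx.1.le) hρ0.le
  · rw [Set.disjoint_left]
    intro x hx hy
    obtain ⟨i, θ, hθ, h1⟩ := hsep p.1 p.2 q.1 q.2 fun h => hpq (Subtype.ext h)
    have h2 := hx.2 i θ hθ
    have h3 := hy.2 i θ hθ
    rcases h1 with ⟨h4, h5⟩ | ⟨h4, h5⟩
    · have h6 : x i - θ < 0 := neg_of_mul_pos_left h2 (by linarith)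
      nlinarith
    · have h6 : x i - θ < 0 := neg_of_mul_pos_left h3 (by linarith)
      nlinarith
  · rw [hφe] at hpos
    obtain ⟨h1, h2⟩ := hcl p x hx
    have h3 : (eval x (bgG Θ) * eval x (mu f)) ^ 2 ≠ 0 := fun h => by
      rw [h, zero_mul] at hpos
      exact lt_irrefl _ hpos
    have h4 : 0 < (eval x (bgG Θ) * eval x (mu f)) ^ 2 := lt_of_le_of_ne (sq_nonneg _) (Ne.symm h3)
    have h5 : 0 < ρ ^ 2 - ∑ i, (x i) ^ 2 := pos_of_mul_pos_right hpos h4.le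
    have h6 := pow_ne_zero_iff (two_ne_zero) |>.1 h3
    have h7 := (bgG_eval Θ x).1 (left_ne_zero_of_mul h6)
    refine ⟨⟨by linarith, fun i θ hθ => lt_of_le_of_ne (h2 i θ hθ) (Ne.symm (mul_ne_zero ?_ ?_))⟩,
      right_ne_zero_of_mul h6⟩
    · exact sub_ne_zero.2 fun h => h7 i (h ▸ hθ)
    · exact sub_ne_zero.2 fun h => (hQ p.1 p.2).2.2 i (h ▸ hθ)
  · refine ⟨hρ p.1 p.2, fun i θ hθ => ?_⟩
    exact mul_self_pos.2 (sub_ne_zero.2 fun h => (hQ p.1 p.2).2.2 i (h ▸ hθ))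
  · show 0 < eval p.1 φ
    rw [hφe]
    have h1 := (bgG_eval Θ p.1).2 (hQ p.1 p.2).2.2
    have h2 := hρ p.1 p.2
    have h3 := (hQ p.1 p.2).2.1
    have h4 : 0 < ρ ^ 2 - ∑ i, (p.1 i) ^ 2 := by linarith
    positivity

end HDI
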