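import Mathlib
import Pool.Agent.HDI.Defs

/-!
# HDI-ChooseM: a family of vectors of rank `≥ c` has a nonvanishing `c × c` minor
-/

namespace HDI

private theorem choose_indep {ι V : Type} [Finite ι] [AddCommGroup V] [Module ℝ V] (g : ι → V)
    (c : ℕ) (hc : c ≤ Module.finrank ℝ (Submodule.span ℝ (Set.range g))) :
    ∃ J : Fin c → ι, LinearIndependent ℝ (g ∘ J) := by
  classical
  obtain ⟨κ, a, ha, hspan, hli⟩ := exists_linearIndependent' ℝ g
  haveI : Finite κ := Finite.of_injective a ha
  haveI := Fintype.ofFinite κ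
  have h1 : Module.finrank ℝ (Submodule.span ℝ (Set.range (g ∘ a))) = Fintype.card κ :=
    finrank_span_eq_card hli
  rw [← hspan, h1] at hc
  obtain ⟨emb⟩ : Nonempty (Fin c ↪ κ) :=
    Function.Embedding.nonempty_of_card_le (by rwa [Fintype.card_fin])
  exact ⟨a ∘ emb, hli.comp emb emb.injective⟩

theorem choose_minor {n r : ℕ} (g : Fin r → Fin n → ℝ) (c : ℕ)
    (hc : c ≤ Module.finrank ℝ (Submodule.span ℝ (Set.range g))) :
    ∃ (J : Fin c → Fin r) (σ : Fin n ≃ Fin c ⊕ Fin (n - c)),
      (Matrix.of fun a b : Fin c => g (J a) (σ.symm (Sum.inl b))).det ≠ 0 := by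
  classical
  obtain ⟨J, hJ⟩ := choose_indep g c hc
  set M : Matrix (Fin c) (Fin n) ℝ := Matrix.of fun a i => g (J a) i with hM
  have h1 : M.rank = c := by
    have : LinearIndependent ℝ M.row := hJ
    rw [this.rank_matrix, Fintype.card_fin]
  have h2 : c ≤ Module.finrank ℝ (Submodule.span ℝ (Set.range M.col)) := by
    rw [← Matrix.rank_eq_finrank_span_cols, h1]
  obtain ⟨κ, hκ⟩ := choose_indep M.col c h2
  have hinj : Function.Injective κ := (hκ.injective).of_comp
  have hcard : Fintype.card ((Set.range κ)ᶜ : Set (Fin n)) = Fintype.card (Fin (n - c)) := by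
    rw [Fintype.card_compl_set, Fintype.card_fin, Fintype.card_fin,
      Set.card_range_of_injective hinj, Fintype.card_fin]
  let e : Fin c ⊕ Fin (n - c) ≃ Fin n :=
    (Equiv.sumCongr (Equiv.ofInjective κ hinj) (Fintype.equivOfCardEq hcard).symm).trans
      (Equiv.Set.sumCompl (Set.range κ))
  have he : ∀ b, e (Sum.inl b) = κ b := fun b => by
    simp [e]
  refine ⟨J, e.symm, ?_⟩
  have h3 : (Matrix.of fun a b : Fin c => g (J a) (e.symm.symm (Sum.inl b))) =
      Matrix.of fun a b : Fin c => M a (κ b) := by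
    ext a b
    simp only [Equiv.symm_symm, he, Matrix.of_apply, hM]
  rw [h3]
  have h4 : LinearIndependent ℝ (Matrix.of fun a b : Fin c => M a (κ b)).col := hκ
  rw [Matrix.linearIndependent_cols_iff_isUnit, Matrix.isUnit_iff_isUnit_det] at h4
  exact h4.ne_zero

end HDI
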