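import Mathlib
import Pool.Agent.HDI.ChooseM
import Pool.Agent.HDI.Ren
import Pool.Agent.HDI.BoxesG

/-!
# HDI-BoxesF: number of boxes visited by a variety (general form)

The points of `Q` are divided according to a nonvanishing minor of the Jacobian matrix of finitely many generators of
`F` (`choose_minor`); for a fixed minor the variables are renamed and `boxes_graph` applies.
-/

namespace HDI

open MvPolynomial

private theorem mu_ren {n c s : ℕ} (σ : Fin n ≃ Fin c ⊕ Fin s) (g : Fin c → MvPolynomial (Fin n) ℝ)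
    (p : Fin n → ℝ) : eval (p ∘ σ.symm) (mu fun a => rename σ (g a)) =
      (Matrix.of fun a b : Fin c => grad p (g a) (σ.symm (Sum.inl b))).det := by
  unfold mu
  rw [RingHom.map_det]
  congr 1
  ext a b
  rw [RingHom.mapMatrix_apply, Matrix.map_apply, Matrix.of_apply, Matrix.of_apply]
  have h := pderiv_ren σ p (g a) (σ.symm (Sum.inl b))
  rw [Equiv.apply_symm_apply] at h
  exact h

private theorem one_minor {n : ℕ} (D c : ℕ) (hcn : c ≤ n) (Θ : Fin n → Finset ℝ) (Q : Finset (Fin n → ℝ))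
    (σ : Fin n ≃ Fin c ⊕ Fin (n - c)) (g : Fin c → MvPolynomial (Fin n) ℝ)
    (hg : ∀ a, (g a).totalDegree ≤ D)
    (hQ : ∀ p ∈ Q, (∀ a, eval p (g a) = 0) ∧
      (Matrix.of fun a b : Fin c => grad p (g a) (σ.symm (Sum.inl b))).det ≠ 0 ∧ ∀ i, p i ∉ Θ i)
    (hsep : ∀ p ∈ Q, ∀ q ∈ Q, p ≠ q → Sep Θ p q) :
    Q.card ≤ ((D + 1) ^ n * (3 * n * D + 3) ^ n) * (∑ i, (Θ i).card + 1) ^ (n - c) := by
  classical
  have hinj : Function.Injective (fun p : Fin n → ℝ => p ∘ σ.symm) := by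
    intro p q h
    funext i
    have h1 := congrFun h (σ i)
    simpa using h1
  have hcard : (Q.image (fun p : Fin n → ℝ => p ∘ σ.symm)).card = Q.card :=
    Finset.card_image_of_injective Q hinj
  have key := boxes_graph D (fun a => rename σ (g a))
    (fun a => (totalDegree_ren σ (g a)).trans (hg a)) (fun i => Θ (σ.symm i))
    (Q.image (fun p : Fin n → ℝ => p ∘ σ.symm)) (by
      intro p' hp'
      obtain ⟨p, hp, rfl⟩ := Finset.mem_image.mp hp'
      obtain ⟨h1, h2, h3⟩ := hQ p hp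
      refine ⟨fun a => ?_, ?_, fun i => h3 _⟩
      · rw [eval_ren]
        exact h1 a
      · rw [mu_ren]
        exact h2) (by
      intro p' hp' q' hq' hne
      obtain ⟨p, hp, rfl⟩ := Finset.mem_image.mp hp'
      obtain ⟨q, hq, rfl⟩ := Finset.mem_image.mp hq'
      have hne' : p ≠ q := fun h => hne (by rw [h])
      obtain ⟨i, θ, hθ, h⟩ := hsep p hp q hq hne'
      refine ⟨σ i, θ, ?_, ?_⟩
      · simpa using hθ
      · simpa using h)
  rw [hcard] at key
  have hT : ∑ i, (Θ (σ.symm i)).card = ∑ i, (Θ i).card :=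
    Equiv.sum_comp σ.symm (fun i => (Θ i).card)
  rw [hT] at key
  refine key.trans ?_
  set T := ∑ i, (Θ i).card
  have h1 : (D + 1) ^ c ≤ (D + 1) ^ n := Nat.pow_le_pow_right (Nat.succ_pos _) hcn
  have h2 : c * D + (2 * (T + c * D) + 2) + 1 ≤ (3 * n * D + 3) * (T + 1) := by
    have h3 : c * D ≤ n * D := Nat.mul_le_mul_right D hcn
    nlinarith [Nat.zero_le (n * D * T), Nat.zero_le T]
  have h4 : (c * D + (2 * (T + c * D) + 2) + 1) ^ (n - c) ≤ (3 * n * D + 3) ^ n * (T + 1) ^ (n - c) := by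
    calc _ ≤ ((3 * n * D + 3) * (T + 1)) ^ (n - c) := Nat.pow_le_pow_left h2 _
      _ = (3 * n * D + 3) ^ (n - c) * (T + 1) ^ (n - c) := Nat.mul_pow _ _ _
      _ ≤ (3 * n * D + 3) ^ n * (T + 1) ^ (n - c) :=
          Nat.mul_le_mul_right _ (Nat.pow_le_pow_right (by omega) (Nat.sub_le n c))
  calc _ ≤ (D + 1) ^ n * ((3 * n * D + 3) ^ n * (T + 1) ^ (n - c)) := Nat.mul_le_mul h1 h4
    _ = _ := by ring

theorem boxes_family (n D : ℕ) : ∃ K0 : ℕ, ∀ (F : Submodule ℝ (MvPolynomial (Fin n) ℝ)),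
    (∀ f ∈ F, f.totalDegree ≤ D) → ∀ (c : ℕ) (Θ : Fin n → Finset ℝ)
    (Q : Finset (Fin n → ℝ)),
    (∀ p ∈ Q, (∀ f ∈ F, eval p f = 0) ∧ c ≤ Module.finrank ℝ (F.map (gradL p)) ∧
      ∀ i, p i ∉ Θ i) →
    (∀ p ∈ Q, ∀ q ∈ Q, p ≠ q → Sep Θ p q) →
    Q.card ≤ K0 * (∑ i, (Θ i).card + 1) ^ (n - c) := by
  classical
  obtain ⟨r0, hr0⟩ := exists_basis n D
  obtain ⟨M, hM⟩ : ∃ M : ℕ, ∀ c ≤ n, ∀ r ≤ r0,
      Fintype.card ((Fin c → Fin r) × (Fin n ≃ Fin c ⊕ Fin (n - c))) ≤ M := by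
    refine ⟨∑ c ∈ Finset.range (n + 1), ∑ r ∈ Finset.range (r0 + 1),
      Fintype.card ((Fin c → Fin r) × (Fin n ≃ Fin c ⊕ Fin (n - c))), fun c hc r hr => ?_⟩
    have h1 := Finset.single_le_sum (f := fun r =>
      Fintype.card ((Fin c → Fin r) × (Fin n ≃ Fin c ⊕ Fin (n - c)))) (fun _ _ => Nat.zero_le _)
      (Finset.mem_range.mpr (Nat.lt_succ_of_le hr))
    have h2 := Finset.single_le_sum (f := fun c => ∑ r ∈ Finset.range (r0 + 1),
      Fintype.card ((Fin c → Fin r) × (Fin n ≃ Fin c ⊕ Fin (n - c)))) (fun _ _ => Nat.zero_le _)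
      (Finset.mem_range.mpr (Nat.lt_succ_of_le hc))
    exact h1.trans h2
  refine ⟨M * ((D + 1) ^ n * (3 * n * D + 3) ^ n), ?_⟩
  intro F hF c Θ Q hQ hsep
  obtain ⟨r, b, hr, hbF, hspan⟩ := hr0 F hF
  rcases Q.eq_empty_or_nonempty with rfl | ⟨p0, hp0⟩
  · simp
  have hcn : c ≤ n := by
    have h1 := (hQ p0 hp0).2.1
    have h2 := Submodule.finrank_le (F.map (gradL p0))
    rw [Module.finrank_fin_fun] at h2
    exact h1.trans h2
  have hcover : Q ⊆ (Finset.univ : Finset ((Fin c → Fin r) × (Fin n ≃ Fin c ⊕ Fin (n - c)))).biUnion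
      (fun π => Q.filter fun p =>
        (Matrix.of fun a b' : Fin c => grad p (b (π.1 a)) (π.2.symm (Sum.inl b'))).det ≠ 0) := by
    intro p hp
    rw [Finset.mem_biUnion]
    obtain ⟨J, σ, h⟩ := choose_minor (fun j => grad p (b j)) c (by
      rw [← map_gradL_span F b hspan p]
      exact (hQ p hp).2.1)
    exact ⟨(J, σ), Finset.mem_univ _, Finset.mem_filter.mpr ⟨hp, h⟩⟩
  calc Q.card ≤ _ := Finset.card_le_card hcover
    _ ≤ ∑ π : (Fin c → Fin r) × (Fin n ≃ Fin c ⊕ Fin (n - c)), (Q.filter fun p =>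
        (Matrix.of fun a b' : Fin c => grad p (b (π.1 a)) (π.2.symm (Sum.inl b'))).det ≠ 0).card :=
        Finset.card_biUnion_le
    _ ≤ ∑ _π : (Fin c → Fin r) × (Fin n ≃ Fin c ⊕ Fin (n - c)),
        ((D + 1) ^ n * (3 * n * D + 3) ^ n) * (∑ i, (Θ i).card + 1) ^ (n - c) := by
        refine Finset.sum_le_sum fun π _ => ?_
        refine one_minor D c hcn Θ _ π.2 (fun a => b (π.1 a)) (fun a => hF _ (hbF _)) ?_ ?_
        · intro p hp
          obtain ⟨hp1, hp2⟩ := Finset.mem_filter.mp hp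
          exact ⟨fun a => (hQ p hp1).1 _ (hbF _), hp2, (hQ p hp1).2.2⟩
        · intro p hp q hq
          exact hsep p (Finset.mem_filter.mp hp).1 q (Finset.mem_filter.mp hq).1
    _ = Fintype.card ((Fin c → Fin r) × (Fin n ≃ Fin c ⊕ Fin (n - c))) *
        (((D + 1) ^ n * (3 * n * D + 3) ^ n) * (∑ i, (Θ i).card + 1) ^ (n - c)) := by
        rw [Finset.sum_const, Finset.card_univ, smul_eq_mul]
    _ ≤ M * (((D + 1) ^ n * (3 * n * D + 3) ^ n) * (∑ i, (Θ i).card + 1) ^ (n - c)) :=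
        Nat.mul_le_mul_right _ (hM c hcn r hr)
    _ = _ := by ring

end HDI
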