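import Mathlib
import Pool.Agent.HDI.Pieces
import Pool.Agent.HDI.FinCrit

/-!
# HDI-CritG: bounded number of critical values of a coordinate (one nonvanishing minor)

PLAN. Let `Fv = ∑ j, (bord f (X i0) j) ^ 2` (degree `≤ 2 * (c * D + 1)`, `totalDegree_bord_le`)
and `m = mu f`. Call `x` critical if `∀ a, eval x (f a) = 0` and the unit vector of `i0` is a
combination of the gradients of the `f a` at `x`; if `eval x m ≠ 0` and all `f a` vanish at `x`
then `x` is critical iff `eval x Fv = 0` (`bord_iff`, `eval_bord`, `pderiv_X`). The points of `Q`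
are critical. By `finite_crit` the set of critical values is finite. List the values of
`p i0`, `p ∈ Q`, in increasing order; between two different values there is a noncritical
value. So: for every `p ∈ Q` there are noncritical numbers `α p < p i0 < β p` such that the
open intervals `(α p, β p)` are pairwise disjoint (e.g. choose a finite set `Tset` of
noncritical reals such that between any two values there is an element of `Tset`, plus one
below and one above all values; `α p` the largest element of `Tset` below `p i0`, `β p` the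
smallest one above).
Choose `κ > 0` with `κ < (eval p m) ^ 2` for `p ∈ Q` and `ρ` with `∑ (p i) ^ 2 < ρ ^ 2` for
`p ∈ Q`. The set `K1 = {x | ∑ (x i)^2 ≤ ρ^2, κ ≤ (eval x m)^2, x i0 ∈ Tset, all f a = 0}` is
compact and `Fv > 0` on it; so there is `η > 0` with `η < Fv` on `K1`
(`IsCompact.exists_isMinOn`, or `η = 1` if `K1` is empty). The set
`K2 = {x | ∑ (x i)^2 ≤ ρ^2, κ ≤ (eval x m)^2, x i0 ∈ Tset, Fv ≤ η}` is compact and contains no
point where all `f a` vanish; so there is `ε0 > 0` with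
`ε0 < max_a |eval x (f a)|`, i.e. `∃ a, ε0 < |eval x (f a)|`, on `K2` (minimum of the
continuous function `∑ a, |eval x (f a)|`, divided by `c + 1`).
Put `φ = (m ^ 2 - C κ) * (C η - Fv) * (C (ρ ^ 2) - ∑ i, X i ^ 2)` (degree
`≤ 2 * c * D + 2 * (c * D + 1) + 2`) and, for `p ∈ Q`,
`U p = {x | κ < (eval x m)^2, eval x Fv < η, ∑ (x i)^2 < ρ^2, α p < x i0 < β p}`. On the closure
the inequalities hold in the weak sense; if `0 < eval x φ` the first three are strict (product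
of three nonnegative numbers), `mu ≠ 0`, and if all `|f a| ≤ ε0` then `x i0 ∉ Tset` by the
choice of `ε0`, so `α p < x i0 < β p`: `x ∈ U p`. Apply `pieces` with `L = Q`.
-/

namespace HDI

open MvPolynomial

private theorem eval_pd_X {ι : Type*} [DecidableEq ι] (x : ι → ℝ) (i i0 : ι) :
    eval x (pderiv i (X i0 : MvPolynomial ι ℝ)) = if i = i0 then (1 : ℝ) else 0 := by
  by_cases h : i = i0
  · subst h
    rw [pderiv_X_self]
    simp
  · rw [pderiv_X_of_ne (Ne.symm h)]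
    simp [h]

private theorem crit_iff {c s : ℕ} (f : Fin c → MvPolynomial (Fin c ⊕ Fin s) ℝ)
    (i0 : Fin c ⊕ Fin s) (x : Fin c ⊕ Fin s → ℝ) (hm : eval x (mu f) ≠ 0) :
    (∀ j, eval x (bord f (X i0) j) = 0) ↔
      ∃ l : Fin c → ℝ, ∀ i, (if i = i0 then (1 : ℝ) else 0) =
        ∑ a, l a * eval x (pderiv i (f a)) := by
  have h1 := bord_iff (Matrix.of fun a b : Fin c => eval x (pderiv (Sum.inl b) (f a)))
    (Matrix.of fun (a : Fin c) (j : Fin s) => eval x (pderiv (Sum.inr j) (f a)))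
    (fun b => eval x (pderiv (Sum.inl b) (X i0)))
    (fun j => eval x (pderiv (Sum.inr j) (X i0))) (by rw [← eval_mu]; exact hm)
  constructor
  · intro h
    obtain ⟨l, hl1, hl2⟩ := h1.1 (fun j => by
      rw [← h j, eval_bord]
      rfl)
    refine ⟨l, fun i => ?_⟩
    rw [← eval_pd_X x i i0]
    rcases i with b | j
    · exact hl1 b
    · exact hl2 j
  · rintro ⟨l, hl⟩ j
    have h2 := h1.2 ⟨l, fun b => by rw [eval_pd_X]; exact hl (Sum.inl b),
      fun j => by rw [eval_pd_X]; exact hl (Sum.inr j)⟩ j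
    rw [eval_bord]
    exact h2

private theorem norm_le_of_sq {ι : Type*} [Fintype ι] {x : ι → ℝ} {ρ : ℝ} (hρ : 0 ≤ ρ)
    (h : ∑ i, x i ^ 2 ≤ ρ ^ 2) : x ∈ Metric.closedBall (0 : ι → ℝ) ρ := by
  rw [Metric.mem_closedBall, dist_zero_right, pi_norm_le_iff_of_nonneg hρ]
  intro i
  rw [Real.norm_eq_abs]
  have h1 : x i ^ 2 ≤ ∑ i, x i ^ 2 :=
    Finset.single_le_sum (f := fun i => x i ^ 2) (fun i _ => sq_nonneg _) (Finset.mem_univ i)
  exact abs_le_of_sq_le_sq (h1.trans h) hρ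

private theorem pos3 {a b c : ℝ} (ha : 0 ≤ a) (hb : 0 ≤ b) (hc : 0 ≤ c) (h : 0 < a * b * c) :
    0 < a ∧ 0 < b ∧ 0 < c := by
  refine ⟨lt_of_le_of_ne ha ?_, lt_of_le_of_ne hb ?_, lt_of_le_of_ne hc ?_⟩
  · rintro rfl
    simp at h
  · rintro rfl
    simp at h
  · rintro rfl
    simp at h

theorem crit_graph {c s : ℕ} (D : ℕ) (f : Fin c → MvPolynomial (Fin c ⊕ Fin s) ℝ)
    (hf : ∀ a, (f a).totalDegree ≤ D) (i0 : Fin c ⊕ Fin s)
    (Q : Finset (Fin c ⊕ Fin s → ℝ))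
    (hQ : ∀ p ∈ Q, (∀ a, eval p (f a) = 0) ∧ eval p (mu f) ≠ 0 ∧
      ∃ l : Fin c → ℝ, ∀ i, (if i = i0 then (1 : ℝ) else 0) =
        ∑ a, l a * eval p (pderiv i (f a)))
    (hinj : Set.InjOn (fun p : Fin c ⊕ Fin s → ℝ => p i0) (Q : Set (Fin c ⊕ Fin s → ℝ))) :
    Q.card ≤ (D + 1) ^ c * (c * D + (2 * (c * D) + 2 * (c * D + 1) + 2) + 1) ^ s := by
  classical
  -- the polynomials
  set Fv : MvPolynomial (Fin c ⊕ Fin s) ℝ := ∑ j, (bord f (X i0) j) ^ 2 with hFv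
  have eFv : ∀ x, eval x Fv = ∑ j, (eval x (bord f (X i0) j)) ^ 2 := by
    intro x
    rw [hFv, map_sum]
    simp
  have hFv0 : ∀ x, 0 ≤ eval x Fv := by
    intro x
    rw [eFv]
    exact Finset.sum_nonneg fun j _ => sq_nonneg _
  have hFviff : ∀ x, eval x (mu f) ≠ 0 → (eval x Fv = 0 ↔
      ∃ l : Fin c → ℝ, ∀ i, (if i = i0 then (1 : ℝ) else 0) =
        ∑ a, l a * eval x (pderiv i (f a))) := by
    intro x hx
    rw [← crit_iff f i0 x hx, eFv, Finset.sum_eq_zero_iff_of_nonneg fun j _ => sq_nonneg _]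
    constructor
    · intro h j
      exact pow_eq_zero_iff (two_ne_zero) |>.1 (h j (Finset.mem_univ j))
    · intro h j _
      rw [h j]
      ring
  have hTc := finite_crit f i0
  set Tc : Set ℝ := {t : ℝ | ∃ x : Fin c ⊕ Fin s → ℝ, (∀ a, eval x (f a) = 0) ∧
      (∃ l : Fin c → ℝ, ∀ i, (if i = i0 then (1 : ℝ) else 0) =
        ∑ a, l a * eval x (pderiv i (f a))) ∧ x i0 = t} with hTcdef
  -- continuity
  have cm : Continuous fun x : Fin c ⊕ Fin s → ℝ => eval x (mu f) := continuous_evalp _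
  have cF : Continuous fun x : Fin c ⊕ Fin s → ℝ => eval x Fv := continuous_evalp _
  have cf : ∀ a, Continuous fun x : Fin c ⊕ Fin s → ℝ => eval x (f a) :=
    fun a => continuous_evalp _
  have cN : Continuous fun x : Fin c ⊕ Fin s → ℝ => ∑ i, x i ^ 2 :=
    continuous_finsetSum _ fun i _ => (continuous_apply i).pow 2
  have ci : Continuous fun x : Fin c ⊕ Fin s → ℝ => x i0 := continuous_apply i0
  -- the width of the slabs
  obtain ⟨δ, hδ0, hδQ, hδT⟩ : ∃ δ : ℝ, 0 < δ ∧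
      (∀ q ∈ Q ×ˢ Q, q.1 ≠ q.2 → 2 * δ < |q.1 i0 - q.2 i0|) ∧
      (∀ q ∈ hTc.toFinset ×ˢ Q, δ ≠ |q.1 - q.2 i0|) := by
    have h1 : ∀ᶠ δ : ℝ in nhdsWithin 0 (Set.Ioi 0), 0 < δ := self_mem_nhdsWithin
    have h2 : ∀ᶠ δ : ℝ in nhdsWithin 0 (Set.Ioi 0),
        ∀ q ∈ Q ×ˢ Q, q.1 ≠ q.2 → 2 * δ < |q.1 i0 - q.2 i0| := by
      rw [Filter.eventually_all_finset]
      intro q hq
      by_cases hne : q.1 = q.2
      · exact Filter.Eventually.of_forall fun δ h => absurd hne h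
      · have h3 : 0 < |q.1 i0 - q.2 i0| := by
          rw [abs_pos, sub_ne_zero]
          intro h4
          rw [Finset.mem_product] at hq
          exact hne (hinj hq.1 hq.2 h4)
        have h4 : ∀ᶠ δ : ℝ in nhds 0, 2 * δ < |q.1 i0 - q.2 i0| := by
          have h5 : Filter.Tendsto (fun δ : ℝ => 2 * δ) (nhds 0) (nhds (2 * 0)) :=
            (continuous_const.mul continuous_id).tendsto 0
          rw [mul_zero] at h5
          exact h5.eventually_lt_const h3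
        filter_upwards [nhdsWithin_le_nhds h4] with δ h5 _
        exact h5
    have h3 : ∀ᶠ δ : ℝ in nhdsWithin 0 (Set.Ioi 0),
        ∀ q ∈ hTc.toFinset ×ˢ Q, δ ≠ |q.1 - q.2 i0| := by
      rw [Filter.eventually_all_finset]
      intro q _
      rcases (abs_nonneg (q.1 - q.2 i0)).eq_or_lt with h4 | h4
      · filter_upwards [h1] with δ h5
        rw [← h4]
        exact h5.ne'
      · filter_upwards [nhdsWithin_le_nhds (Iio_mem_nhds h4)] with δ h5
        exact (show δ < _ from h5).ne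
    obtain ⟨δ, h4, h5, h6⟩ := (h1.and (h2.and h3)).exists
    exact ⟨δ, h4, h5, h6⟩
  obtain ⟨κ, hκ0, hκ⟩ : ∃ κ : ℝ, 0 < κ ∧ ∀ p ∈ Q, κ < (eval p (mu f)) ^ 2 := by
    have h1 : ∀ᶠ κ : ℝ in nhdsWithin 0 (Set.Ioi 0), 0 < κ := self_mem_nhdsWithin
    have h2 : ∀ᶠ κ : ℝ in nhdsWithin 0 (Set.Ioi 0), ∀ p ∈ Q, κ < (eval p (mu f)) ^ 2 := by
      rw [Filter.eventually_all_finset]
      intro p hp
      have h3 : 0 < (eval p (mu f)) ^ 2 := by
        have := (hQ p hp).2.1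
        positivity
      filter_upwards [nhdsWithin_le_nhds (Iio_mem_nhds h3)] with κ h4
      exact h4
    obtain ⟨κ, h3, h4⟩ := (h1.and h2).exists
    exact ⟨κ, h3, h4⟩
  obtain ⟨ρ, hρ0, hρ⟩ : ∃ ρ : ℝ, 0 ≤ ρ ∧ ∀ p ∈ Q, ∑ i, (p i) ^ 2 < ρ ^ 2 := by
    have h0 : 0 ≤ ∑ p ∈ Q, ∑ i, (p i) ^ 2 :=
      Finset.sum_nonneg fun p _ => Finset.sum_nonneg fun i _ => sq_nonneg _
    refine ⟨∑ p ∈ Q, ∑ i, (p i) ^ 2 + 1, by linarith, fun p hp => ?_⟩
    have h1 : ∑ i, (p i) ^ 2 ≤ ∑ p ∈ Q, ∑ i, (p i) ^ 2 :=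
      Finset.single_le_sum (f := fun p : Fin c ⊕ Fin s → ℝ => ∑ i, (p i) ^ 2)
        (fun p _ => Finset.sum_nonneg fun i _ => sq_nonneg _) hp
    nlinarith
  -- the thresholds
  set Ts : Finset ℝ := Q.image (fun p => p i0 - δ) ∪ Q.image (fun p => p i0 + δ) with hTs
  have hTsTc : ∀ t ∈ Ts, t ∉ Tc := by
    intro t ht htc
    rw [hTs, Finset.mem_union, Finset.mem_image, Finset.mem_image] at ht
    have htc' : t ∈ hTc.toFinset := hTc.mem_toFinset.2 htc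
    rcases ht with ⟨p, hp, h1⟩ | ⟨p, hp, h1⟩
    · apply hδT (t, p) (Finset.mem_product.2 ⟨htc', hp⟩)
      show δ = |t - p i0|
      rw [← h1, show p i0 - δ - p i0 = -δ by ring, abs_neg, abs_of_pos hδ0]
    · apply hδT (t, p) (Finset.mem_product.2 ⟨htc', hp⟩)
      show δ = |t - p i0|
      rw [← h1, show p i0 + δ - p i0 = δ by ring, abs_of_pos hδ0]
  -- compact sets
  have hK0 : IsCompact {x : Fin c ⊕ Fin s → ℝ |
      ∑ i, x i ^ 2 ≤ ρ ^ 2 ∧ κ ≤ (eval x (mu f)) ^ 2 ∧ x i0 ∈ (Ts : Set ℝ)} := by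
    refine IsCompact.of_isClosed_subset (isCompact_closedBall (0 : Fin c ⊕ Fin s → ℝ) ρ) ?_
      fun x hx => norm_le_of_sq hρ0 hx.1
    exact (isClosed_le cN continuous_const).inter
      ((isClosed_le continuous_const (cm.pow 2)).inter (Ts.finite_toSet.isClosed.preimage ci))
  obtain ⟨η, hη0, hη⟩ : ∃ η : ℝ, 0 < η ∧ ∀ x : Fin c ⊕ Fin s → ℝ,
      ∑ i, x i ^ 2 ≤ ρ ^ 2 → κ ≤ (eval x (mu f)) ^ 2 → x i0 ∈ (Ts : Set ℝ) →
        (∀ a, eval x (f a) = 0) → η < eval x Fv := by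
    have hK1 : IsCompact ({x : Fin c ⊕ Fin s → ℝ |
        ∑ i, x i ^ 2 ≤ ρ ^ 2 ∧ κ ≤ (eval x (mu f)) ^ 2 ∧ x i0 ∈ (Ts : Set ℝ)} ∩
        {x | ∀ a, eval x (f a) = 0}) := by
      refine hK0.inter_right ?_
      have h1 : {x : Fin c ⊕ Fin s → ℝ | ∀ a, eval x (f a) = 0} =
          ⋂ a, {x | eval x (f a) = 0} := by
        ext x; simp
      rw [h1]
      exact isClosed_iInter fun a => isClosed_eq (cf a) continuous_const
    rcases Set.eq_empty_or_nonempty ({x : Fin c ⊕ Fin s → ℝ |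
        ∑ i, x i ^ 2 ≤ ρ ^ 2 ∧ κ ≤ (eval x (mu f)) ^ 2 ∧ x i0 ∈ (Ts : Set ℝ)} ∩
        {x | ∀ a, eval x (f a) = 0}) with he | hne
    · refine ⟨1, one_pos, fun x h1 h2 h3 h4 => ?_⟩
      have h5 : x ∈ ({x : Fin c ⊕ Fin s → ℝ |
        ∑ i, x i ^ 2 ≤ ρ ^ 2 ∧ κ ≤ (eval x (mu f)) ^ 2 ∧ x i0 ∈ (Ts : Set ℝ)} ∩
        {x | ∀ a, eval x (f a) = 0}) := ⟨⟨h1, h2, h3⟩, h4⟩
      rw [he] at h5
      exact absurd h5 (Set.notMem_empty x)
    · obtain ⟨y, ⟨⟨hy1, hy2, hy3⟩, hy4⟩, hymin⟩ := hK1.exists_isMinOn hne cF.continuousOn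
      have hmy : eval y (mu f) ≠ 0 := by
        intro h0
        rw [h0] at hy2
        linarith [hy2, show (0 : ℝ) ^ 2 = 0 by norm_num]
      have hpos : 0 < eval y Fv := by
        refine lt_of_le_of_ne (hFv0 y) fun h0 => ?_
        exact hTsTc _ hy3 ⟨y, hy4, (hFviff y hmy).1 h0.symm, rfl⟩
      refine ⟨eval y Fv / 2, by linarith, fun x h1 h2 h3 h4 => ?_⟩
      have h5 : eval y Fv ≤ eval x Fv := hymin ⟨⟨h1, h2, h3⟩, h4⟩
      linarith
  obtain ⟨ε0, hε0, hε⟩ : ∃ ε0 : ℝ, 0 < ε0 ∧ ∀ x : Fin c ⊕ Fin s → ℝ,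
      ∑ i, x i ^ 2 ≤ ρ ^ 2 → κ ≤ (eval x (mu f)) ^ 2 → x i0 ∈ (Ts : Set ℝ) →
        eval x Fv ≤ η → ¬ ∀ a, |eval x (f a)| ≤ ε0 := by
    have hK2 : IsCompact ({x : Fin c ⊕ Fin s → ℝ |
        ∑ i, x i ^ 2 ≤ ρ ^ 2 ∧ κ ≤ (eval x (mu f)) ^ 2 ∧ x i0 ∈ (Ts : Set ℝ)} ∩
        {x | eval x Fv ≤ η}) := hK0.inter_right (isClosed_le cF continuous_const)
    rcases Set.eq_empty_or_nonempty ({x : Fin c ⊕ Fin s → ℝ |
        ∑ i, x i ^ 2 ≤ ρ ^ 2 ∧ κ ≤ (eval x (mu f)) ^ 2 ∧ x i0 ∈ (Ts : Set ℝ)} ∩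
        {x | eval x Fv ≤ η}) with he | hne
    · refine ⟨1, one_pos, fun x h1 h2 h3 h4 => ?_⟩
      have h5 : x ∈ ({x : Fin c ⊕ Fin s → ℝ |
        ∑ i, x i ^ 2 ≤ ρ ^ 2 ∧ κ ≤ (eval x (mu f)) ^ 2 ∧ x i0 ∈ (Ts : Set ℝ)} ∩
        {x | eval x Fv ≤ η}) := ⟨⟨h1, h2, h3⟩, h4⟩
      rw [he] at h5
      exact absurd h5 (Set.notMem_empty x)
    · have cS : Continuous fun x : Fin c ⊕ Fin s → ℝ => ∑ a, |eval x (f a)| :=
        continuous_finsetSum _ fun a _ => (cf a).abs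
      obtain ⟨y, ⟨⟨hy1, hy2, hy3⟩, hy4⟩, hymin⟩ := hK2.exists_isMinOn hne cS.continuousOn
      have hpos : 0 < ∑ a, |eval y (f a)| := by
        refine lt_of_le_of_ne (Finset.sum_nonneg fun a _ => abs_nonneg _) fun h0 => ?_
        have h1 := (Finset.sum_eq_zero_iff_of_nonneg fun a _ => abs_nonneg _).1 h0.symm
        have h2 := hη y hy1 hy2 hy3 fun a => abs_eq_zero.1 (h1 a (Finset.mem_univ a))
        exact absurd hy4 (not_le.2 h2)
      refine ⟨(∑ a, |eval y (f a)|) / (c + 1), by positivity, fun x h1 h2 h3 h4 h5 => ?_⟩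
      have h6 : ∑ a, |eval y (f a)| ≤ ∑ a, |eval x (f a)| := hymin ⟨⟨h1, h2, h3⟩, h4⟩
      have h7 : ∑ a, |eval x (f a)| ≤ ∑ _a : Fin c, (∑ a, |eval y (f a)|) / (c + 1) :=
        Finset.sum_le_sum fun a _ => h5 a
      rw [Finset.sum_const, Finset.card_univ, Fintype.card_fin, nsmul_eq_mul] at h7
      have h8 : (c : ℝ) * ((∑ a, |eval y (f a)|) / (c + 1)) < ∑ a, |eval y (f a)| := by
        have h9 : (0 : ℝ) < c + 1 := by positivity
        rw [← mul_div_assoc, div_lt_iff₀ h9]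
        nlinarith
      linarith
  -- the polynomial phi
  set φ : MvPolynomial (Fin c ⊕ Fin s) ℝ :=
    ((mu f) ^ 2 - C κ) * (C η - Fv) * (C (ρ ^ 2) - ∑ i, X i ^ 2) with hφ
  have eφ : ∀ x, eval x φ =
      ((eval x (mu f)) ^ 2 - κ) * (η - eval x Fv) * (ρ ^ 2 - ∑ i, x i ^ 2) := by
    intro x
    rw [hφ, map_mul, map_mul, map_sub, map_sub, map_sub, map_pow, map_sum]
    simp
  have hdeg : φ.totalDegree ≤ 2 * (c * D) + 2 * (c * D + 1) + 2 := by
    have h1 : ((mu f) ^ 2 - C κ).totalDegree ≤ 2 * (c * D) := by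
      refine (totalDegree_sub _ _).trans (max_le ?_ ?_)
      · refine (totalDegree_pow _ _).trans ?_
        exact Nat.mul_le_mul_left 2 (totalDegree_mu_le D f hf)
      · rw [totalDegree_C]
        exact Nat.zero_le _
    have h2 : (C η - Fv).totalDegree ≤ 2 * (c * D + 1) := by
      refine (totalDegree_sub _ _).trans (max_le ?_ ?_)
      · rw [totalDegree_C]
        exact Nat.zero_le _
      · rw [hFv]
        refine totalDegree_finsetSum_le fun j _ => ?_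
        refine (totalDegree_pow _ _).trans ?_
        exact Nat.mul_le_mul_left 2 (totalDegree_bord_le D 1 f hf (X i0)
          (by rw [totalDegree_X]) j)
    have h3 : (C (ρ ^ 2) - ∑ i, X i ^ 2 : MvPolynomial (Fin c ⊕ Fin s) ℝ).totalDegree ≤ 2 := by
      refine (totalDegree_sub _ _).trans (max_le ?_ ?_)
      · rw [totalDegree_C]
        exact Nat.zero_le _
      · refine totalDegree_finsetSum_le fun i _ => ?_
        rw [totalDegree_X_pow]
    refine (totalDegree_mul _ _).trans (add_le_add ((totalDegree_mul _ _).trans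
      (add_le_add h1 h2)) h3)
  -- application of pieces
  have key := pieces (L := Q) D (2 * (c * D) + 2 * (c * D + 1) + 2) f hf φ hdeg
    (fun p => {x | κ < (eval x (mu f)) ^ 2 ∧ eval x Fv < η ∧ ∑ i, x i ^ 2 < ρ ^ 2 ∧
      (p : Fin c ⊕ Fin s → ℝ) i0 - δ < x i0 ∧ x i0 < (p : Fin c ⊕ Fin s → ℝ) i0 + δ})
    (fun p => (p : Fin c ⊕ Fin s → ℝ)) ?_ ?_ ?_ ε0 hε0 ?_ ?_ ?_ ?_ ?_
  · rwa [Fintype.card_coe] at key
  · intro p
    exact (isOpen_lt continuous_const (cm.pow 2)).inter ((isOpen_lt cF continuous_const).inter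
      ((isOpen_lt cN continuous_const).inter ((isOpen_lt continuous_const ci).inter
        (isOpen_lt ci continuous_const))))
  · intro p
    refine (Metric.isBounded_closedBall (x := (0 : Fin c ⊕ Fin s → ℝ)) (r := ρ)).subset ?_
    rintro x ⟨-, -, h1, -⟩
    exact norm_le_of_sq hρ0 h1.le
  · intro p q hpq
    rw [Set.disjoint_left]
    rintro x ⟨-, -, -, h1, h2⟩ ⟨-, -, -, h3, h4⟩
    have h5 := hδQ ((p : Fin c ⊕ Fin s → ℝ), (q : Fin c ⊕ Fin s → ℝ))
      (Finset.mem_product.2 ⟨p.2, q.2⟩) (fun h => hpq (Subtype.ext h))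
    have h6 : |(p : Fin c ⊕ Fin s → ℝ) i0 - (q : Fin c ⊕ Fin s → ℝ) i0| < 2 * δ := by
      rw [abs_lt]
      constructor <;> linarith
    exact absurd h5 (not_lt.2 h6.le)
  · intro p x hx hfx hφx
    have hcl : κ ≤ (eval x (mu f)) ^ 2 ∧ eval x Fv ≤ η ∧ ∑ i, x i ^ 2 ≤ ρ ^ 2 ∧
        (p : Fin c ⊕ Fin s → ℝ) i0 - δ ≤ x i0 ∧ x i0 ≤ (p : Fin c ⊕ Fin s → ℝ) i0 + δ := by
      have hclosed : IsClosed {x : Fin c ⊕ Fin s → ℝ | κ ≤ (eval x (mu f)) ^ 2 ∧
          eval x Fv ≤ η ∧ ∑ i, x i ^ 2 ≤ ρ ^ 2 ∧ (p : Fin c ⊕ Fin s → ℝ) i0 - δ ≤ x i0 ∧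
          x i0 ≤ (p : Fin c ⊕ Fin s → ℝ) i0 + δ} :=
        (isClosed_le continuous_const (cm.pow 2)).inter ((isClosed_le cF continuous_const).inter
          ((isClosed_le cN continuous_const).inter ((isClosed_le continuous_const ci).inter
            (isClosed_le ci continuous_const))))
      refine closure_minimal ?_ hclosed hx
      rintro y ⟨h1, h2, h3, h4, h5⟩
      exact ⟨h1.le, h2.le, h3.le, h4.le, h5.le⟩
    obtain ⟨h1, h2, h3, h4, h5⟩ := hcl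
    rw [eφ] at hφx
    obtain ⟨g1, g2, g3⟩ := pos3 (sub_nonneg.2 h1) (sub_nonneg.2 h2) (sub_nonneg.2 h3) hφx
    have hnT : x i0 ∉ (Ts : Set ℝ) := fun h => hε x h3 h1 h h2 hfx
    have hnT1 : x i0 ≠ (p : Fin c ⊕ Fin s → ℝ) i0 - δ := by
      intro h
      apply hnT
      rw [Finset.mem_coe, hTs, Finset.mem_union, Finset.mem_image]
      exact Or.inl ⟨p, p.2, h.symm⟩
    have hnT2 : x i0 ≠ (p : Fin c ⊕ Fin s → ℝ) i0 + δ := by
      intro h
      apply hnT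
      rw [Finset.mem_coe, hTs, Finset.mem_union, Finset.mem_image, Finset.mem_image]
      exact Or.inr ⟨p, p.2, h.symm⟩
    refine ⟨⟨by linarith, by linarith, by linarith, lt_of_le_of_ne h4 hnT1.symm,
      lt_of_le_of_ne h5 hnT2⟩, fun h0 => ?_⟩
    rw [h0] at g1
    have : (0 : ℝ) ^ 2 = 0 := by norm_num
    linarith
  · intro p
    refine ⟨hκ p p.2, ?_, hρ p p.2, by linarith, by linarith⟩
    have h1 := hQ p p.2
    rw [(hFviff p h1.2.1).2 h1.2.2]
    exact hη0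
  · intro p a
    exact (hQ p p.2).1 a
  · intro p
    exact (hQ p p.2).2.1
  · intro p
    have h1 := hQ p p.2
    have h2 := hκ p p.2
    have h3 := hρ p p.2
    rw [eφ, (hFviff p h1.2.1).2 h1.2.2]
    have g1 : 0 < (eval (p : Fin c ⊕ Fin s → ℝ) (mu f)) ^ 2 - κ := by linarith
    have g2 : 0 < η - 0 := by linarith
    have g3 : 0 < ρ ^ 2 - ∑ i, (p : Fin c ⊕ Fin s → ℝ) i ^ 2 := by linarith
    exact mul_pos (mul_pos g1 g2) g3

end HDI
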