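import Mathlib
import Pool.Agent.HDI.ChooseM
import Pool.Agent.HDI.Ren
import Pool.Agent.HDI.CritG

/-!
# HDI-CritF: uniformly bounded number of critical values of a coordinate (general form)

The points of `Q` are divided according to the rank and a nonvanishing minor of the Jacobian matrix of finitely many
generators of `F` (`choose_minor`); for a fixed minor the variables are renamed and `crit_graph` applies.
-/

namespace HDI

open MvPolynomial

private theorem mu_ren' {n c s : ℕ} (σ : Fin n ≃ Fin c ⊕ Fin s) (g : Fin c → MvPolynomial (Fin n) ℝ)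
    (p : Fin n → ℝ) : eval (p ∘ σ.symm) (mu fun a => rename σ (g a)) =
      (Matrix.of fun a b : Fin c => grad p (g a) (σ.symm (Sum.inl b))).det := by
  unfold mu
  rw [RingHom.map_det]
  congr 1
  ext a b
  rw [RingHom.mapMatrix_apply, Matrix.map_apply, Matrix.of_apply, Matrix.of_apply]
  have h := pderiv_ren σ p (g a) (σ.symm (Sum.inl b))
  rw [Equiv.apply_symm_apply] at h
  exact h

private theorem one_crit {n : ℕ} (D c : ℕ) (hcn : c ≤ n) (i0 : Fin n) (Q : Finset (Fin n → ℝ))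
    (σ : Fin n ≃ Fin c ⊕ Fin (n - c)) (g : Fin c → MvPolynomial (Fin n) ℝ)
    (hg : ∀ a, (g a).totalDegree ≤ D)
    (hQ : ∀ p ∈ Q, (∀ a, eval p (g a) = 0) ∧
      (Matrix.of fun a b : Fin c => grad p (g a) (σ.symm (Sum.inl b))).det ≠ 0 ∧
      ∃ l : Fin c → ℝ, ∀ i, (if i = i0 then (1 : ℝ) else 0) = ∑ a, l a * grad p (g a) i)
    (hinj : Set.InjOn (fun p : Fin n → ℝ => p i0) (Q : Set (Fin n → ℝ))) :
    Q.card ≤ (D + 1) ^ n * (5 * n * D + 5) ^ n := by
  classical
  have hinj' : Function.Injective (fun p : Fin n → ℝ => p ∘ σ.symm) := by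
    intro p q h
    funext i
    have h1 := congrFun h (σ i)
    simpa using h1
  have hcard : (Q.image (fun p : Fin n → ℝ => p ∘ σ.symm)).card = Q.card :=
    Finset.card_image_of_injective Q hinj'
  have key := crit_graph D (fun a => rename σ (g a))
    (fun a => (totalDegree_ren σ (g a)).trans (hg a)) (σ i0)
    (Q.image (fun p : Fin n → ℝ => p ∘ σ.symm)) (by
      intro p' hp'
      obtain ⟨p, hp, rfl⟩ := Finset.mem_image.mp hp'
      obtain ⟨h1, h2, l, hl⟩ := hQ p hp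
      refine ⟨fun a => ?_, ?_, l, fun i => ?_⟩
      · rw [eval_ren]
        exact h1 a
      · rw [mu_ren']
        exact h2
      · have h3 := hl (σ.symm i)
        have h4 : ∀ a, grad p (g a) (σ.symm i) = eval (p ∘ σ.symm) (pderiv i (rename σ (g a))) := by
          intro a
          have h := pderiv_ren σ p (g a) (σ.symm i)
          rw [Equiv.apply_symm_apply] at h
          exact h.symm
        simp only [h4, Equiv.symm_apply_eq] at h3
        exact h3) (by
      intro p' hp' q' hq' h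
      obtain ⟨p, hp, rfl⟩ := Finset.mem_image.mp (Finset.mem_coe.mp hp')
      obtain ⟨q, hq, rfl⟩ := Finset.mem_image.mp (Finset.mem_coe.mp hq')
      have h1 : p i0 = q i0 := by simpa using h
      rw [hinj (Finset.mem_coe.mpr hp) (Finset.mem_coe.mpr hq) h1])
  rw [hcard] at key
  refine key.trans ?_
  have h1 : (D + 1) ^ c ≤ (D + 1) ^ n := Nat.pow_le_pow_right (Nat.succ_pos _) hcn
  have h2 : c * D + (2 * (c * D) + 2 * (c * D + 1) + 2) + 1 ≤ 5 * n * D + 5 := by
    have h3 : c * D ≤ n * D := Nat.mul_le_mul_right D hcn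
    nlinarith
  have h4 : (c * D + (2 * (c * D) + 2 * (c * D + 1) + 2) + 1) ^ (n - c) ≤ (5 * n * D + 5) ^ n := by
    calc _ ≤ (5 * n * D + 5) ^ (n - c) := Nat.pow_le_pow_left h2 _
      _ ≤ (5 * n * D + 5) ^ n := Nat.pow_le_pow_right (by omega) (Nat.sub_le n c)
  exact Nat.mul_le_mul h1 h4

private theorem span_of_minor {n c : ℕ} (W : Submodule ℝ (Fin n → ℝ)) (v : Fin c → Fin n → ℝ)
    (hv : ∀ a, v a ∈ W) (hc : c = Module.finrank ℝ W) (κ : Fin c → Fin n)
    (hdet : (Matrix.of fun a b : Fin c => v a (κ b)).det ≠ 0) {w : Fin n → ℝ} (hw : w ∈ W) :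
    ∃ l : Fin c → ℝ, ∀ i, w i = ∑ a, l a * v a i := by
  have hli : LinearIndependent ℝ v := by
    rw [Fintype.linearIndependent_iff]
    intro l hl
    have h1 : Matrix.vecMul l (Matrix.of fun a b : Fin c => v a (κ b)) = 0 := by
      funext b
      have h2 := congrFun hl (κ b)
      rw [Finset.sum_apply] at h2
      simp only [Pi.smul_apply, smul_eq_mul] at h2
      simpa [Matrix.vecMul, dotProduct] using h2
    exact congrFun (Matrix.eq_zero_of_vecMul_eq_zero hdet h1)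
  have hle : Submodule.span ℝ (Set.range v) ≤ W := by
    rw [Submodule.span_le]
    rintro _ ⟨a, rfl⟩
    exact hv a
  have heq : Submodule.span ℝ (Set.range v) = W := by
    refine Submodule.eq_of_le_of_finrank_eq hle ?_
    rw [finrank_span_eq_card hli, Fintype.card_fin]
    exact hc
  rw [← heq] at hw
  obtain ⟨l, hl⟩ := (Submodule.mem_span_range_iff_exists_fun ℝ).mp hw
  refine ⟨l, fun i => ?_⟩
  rw [← hl, Finset.sum_apply]
  simp only [Pi.smul_apply, smul_eq_mul]

theorem crit_family (n D : ℕ) : ∃ K1 : ℕ, ∀ (F : Submodule ℝ (MvPolynomial (Fin n) ℝ)),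
    (∀ f ∈ F, f.totalDegree ≤ D) → ∀ (i0 : Fin n) (Q : Finset (Fin n → ℝ)),
    (∀ p ∈ Q, (∀ f ∈ F, eval p f = 0) ∧ Pi.single i0 (1 : ℝ) ∈ F.map (gradL p)) →
    Set.InjOn (fun p : Fin n → ℝ => p i0) (Q : Set (Fin n → ℝ)) → Q.card ≤ K1 := by
  classical
  obtain ⟨r0, hr0⟩ := exists_basis n D
  obtain ⟨M, hM⟩ : ∃ M : ℕ, ∀ r ≤ r0,
      Fintype.card (Σ c : Fin (n + 1), (Fin c → Fin r) × (Fin n ≃ Fin c ⊕ Fin (n - c))) ≤ M := by
    refine ⟨∑ r ∈ Finset.range (r0 + 1),
      Fintype.card (Σ c : Fin (n + 1), (Fin c → Fin r) × (Fin n ≃ Fin c ⊕ Fin (n - c))), fun r hr => ?_⟩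
    exact Finset.single_le_sum (f := fun r =>
      Fintype.card (Σ c : Fin (n + 1), (Fin c → Fin r) × (Fin n ≃ Fin c ⊕ Fin (n - c))))
      (fun _ _ => Nat.zero_le _) (Finset.mem_range.mpr (Nat.lt_succ_of_le hr))
  refine ⟨M * ((D + 1) ^ n * (5 * n * D + 5) ^ n), ?_⟩
  intro F hF i0 Q hQ hinj
  obtain ⟨r, b, hr, hbF, hspan⟩ := hr0 F hF
  have hcover : Q ⊆ (Finset.univ : Finset
      (Σ c : Fin (n + 1), (Fin c → Fin r) × (Fin n ≃ Fin c ⊕ Fin (n - c)))).biUnion
      (fun π => Q.filter fun p =>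
        (Matrix.of fun a b' : Fin π.1 => grad p (b (π.2.1 a)) (π.2.2.symm (Sum.inl b'))).det ≠ 0 ∧
        ∃ l : Fin π.1 → ℝ, ∀ i, (if i = i0 then (1 : ℝ) else 0) =
          ∑ a, l a * grad p (b (π.2.1 a)) i) := by
    intro p hp
    rw [Finset.mem_biUnion]
    have hcn : Module.finrank ℝ (F.map (gradL p)) ≤ n := by
      have h2 := Submodule.finrank_le (F.map (gradL p))
      rw [Module.finrank_fin_fun] at h2
      exact h2
    obtain ⟨c, hc⟩ : ∃ c, c = Module.finrank ℝ (F.map (gradL p)) := ⟨_, rfl⟩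
    have hcn' : c < n + 1 := by omega
    obtain ⟨J, σ, h⟩ := choose_minor (fun j => grad p (b j)) c (by
      rw [← map_gradL_span F b hspan p]
      exact hc.le)
    obtain ⟨l, hl⟩ := span_of_minor (F.map (gradL p)) (fun a => grad p (b (J a)))
      (fun a => ⟨b (J a), hbF _, rfl⟩) hc (fun b' => σ.symm (Sum.inl b')) h (hQ p hp).2
    refine ⟨⟨⟨c, hcn'⟩, (J, σ)⟩, Finset.mem_univ _, Finset.mem_filter.mpr ⟨hp, h, l, fun i => ?_⟩⟩
    rw [← hl i, Pi.single_apply]
  calc Q.card ≤ _ := Finset.card_le_card hcover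
    _ ≤ ∑ π : (Σ c : Fin (n + 1), (Fin c → Fin r) × (Fin n ≃ Fin c ⊕ Fin (n - c))),
        (Q.filter fun p =>
        (Matrix.of fun a b' : Fin π.1 => grad p (b (π.2.1 a)) (π.2.2.symm (Sum.inl b'))).det ≠ 0 ∧
        ∃ l : Fin π.1 → ℝ, ∀ i, (if i = i0 then (1 : ℝ) else 0) =
          ∑ a, l a * grad p (b (π.2.1 a)) i).card :=
        Finset.card_biUnion_le
    _ ≤ ∑ _π : (Σ c : Fin (n + 1), (Fin c → Fin r) × (Fin n ≃ Fin c ⊕ Fin (n - c))),
        ((D + 1) ^ n * (5 * n * D + 5) ^ n) := by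
        refine Finset.sum_le_sum fun π _ => ?_
        refine one_crit D π.1 (Nat.le_of_lt_succ π.1.2) i0 _ π.2.2 (fun a => b (π.2.1 a))
          (fun a => hF _ (hbF _)) ?_ ?_
        · intro p hp
          obtain ⟨hp1, hp2, hp3⟩ := Finset.mem_filter.mp hp
          exact ⟨fun a => (hQ p hp1).1 _ (hbF _), hp2, hp3⟩
        · intro p hp q hq h
          exact hinj (Finset.mem_coe.mpr (Finset.mem_filter.mp (Finset.mem_coe.mp hp)).1)
            (Finset.mem_coe.mpr (Finset.mem_filter.mp (Finset.mem_coe.mp hq)).1) h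
    _ = Fintype.card (Σ c : Fin (n + 1), (Fin c → Fin r) × (Fin n ≃ Fin c ⊕ Fin (n - c))) *
        ((D + 1) ^ n * (5 * n * D + 5) ^ n) := by
        rw [Finset.sum_const, Finset.card_univ, smul_eq_mul]
    _ ≤ M * ((D + 1) ^ n * (5 * n * D + 5) ^ n) :=
        Nat.mul_le_mul_right _ (hM r hr)

end HDI
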