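import Mathlib
import Pool.Agent.HDI.Defs

/-!
# HDI-Perp: orthogonal complements for the dot product, tangent spaces

* `perp W = {v | ∀ w ∈ W, ∑ i, w i * v i = 0}`.
* `finrank_perp`: `finrank (perp W) + finrank W = n`; `perp_perp`.
  PLAN: transport to `EuclideanSpace ℝ (Fin n)` (`Submodule.finrank_add_finrank_orthogonal`,
  `Submodule.orthogonal_orthogonal`, `WithLp.linearEquiv`), or use
  `Subspace.finrank_add_finrank_dualAnnihilator_eq` with the dot product identification
  (`Module.piEquiv` / `Pi.basisFun`, `dotProductEquiv`), or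
  `LinearMap.BilinForm.finrank_orthogonal` for the nondegenerate form `dotProduct`.
* `tan_eq_perp`: `tan C S p = perp (span (grad p '' van C S))` (span induction).
* `finrank_tan`: for a surface the tangent spaces have dimension `e` (from `rank` and
  `finrank_perp`: `2 * e - e`).
* `exists_isB`: every subspace has a set of coordinates. PLAN: the coordinate functionals
  restricted to `U` span the dual of `U` (a vector killed by all coordinates is `0`); choose a
  subset which is a basis of the dual (`exists_linearIndependent`...). Or: choose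
  `X` of minimal cardinality such that the coordinates in `X` are injective on `U` (exists:
  `univ`); then `card X = finrank U`: `≥` because `U` embeds in `X → ℝ`
  (`LinearMap.finrank_le_finrank_of_injective`); if `>` the map `U → (X → ℝ)` is injective and
  not surjective, the image lies in the kernel of a nonzero functional `∑ a_i v_i`, `a_j ≠ 0`,
  and `X.erase j` still works, contradiction.
-/

namespace HDI

open MvPolynomial

def perp {n : ℕ} (W : Submodule ℝ (Fin n → ℝ)) : Submodule ℝ (Fin n → ℝ) where
  carrier := {v | ∀ w ∈ W, ∑ i, w i * v i = 0}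
  add_mem' {u v} hu hv w hw := by
    have h1 := hu w hw
    have h2 := hv w hw
    simp only [Pi.add_apply, mul_add, Finset.sum_add_distrib, h1, h2, add_zero]
  zero_mem' w hw := by simp
  smul_mem' c v hv w hw := by
    have h1 := hv w hw
    have h2 : ∑ i, w i * (c • v) i = c * ∑ i, w i * v i := by
      rw [Finset.mul_sum]
      refine Finset.sum_congr rfl fun i _ => ?_
      simp only [Pi.smul_apply, smul_eq_mul]
      ring
    rw [h2, h1, mul_zero]

theorem mem_perp {n : ℕ} (W : Submodule ℝ (Fin n → ℝ)) (v : Fin n → ℝ) :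
    v ∈ perp W ↔ ∀ w ∈ W, ∑ i, w i * v i = 0 := Iff.rfl

private noncomputable def dotB (n : ℕ) : LinearMap.BilinForm ℝ (Fin n → ℝ) :=
  (dotProductEquiv ℝ (Fin n)).toLinearMap

private theorem dotB_apply {n : ℕ} (v w : Fin n → ℝ) : dotB n v w = ∑ i, v i * w i := rfl

private theorem dotB_refl (n : ℕ) : (dotB n).IsRefl := by
  intro v w h
  rw [dotB_apply] at h ⊢
  rw [← h]
  exact Finset.sum_congr rfl fun i _ => mul_comm _ _

private theorem dotB_left {n : ℕ} (v : Fin n → ℝ) (h : ∀ w, dotB n v w = 0) : v = 0 := by
  funext j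
  have h1 := h (Pi.single j 1)
  rw [dotB_apply] at h1
  simpa [Pi.single_apply] using h1

private theorem dotB_nondeg (n : ℕ) : (dotB n).Nondegenerate := by
  refine ⟨fun v h => dotB_left v h, fun v h => dotB_left v fun w => ?_⟩
  have h1 := h w
  rw [dotB_apply] at h1 ⊢
  rw [← h1]
  exact Finset.sum_congr rfl fun i _ => mul_comm _ _

private theorem perp_eq {n : ℕ} (W : Submodule ℝ (Fin n → ℝ)) :
    perp W = (dotB n).orthogonal W := by
  ext v
  rw [mem_perp, LinearMap.BilinForm.mem_orthogonal_iff]
  rfl

theorem finrank_perp {n : ℕ} (W : Submodule ℝ (Fin n → ℝ)) :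
    Module.finrank ℝ (perp W) + Module.finrank ℝ W = n := by
  rw [perp_eq, LinearMap.BilinForm.finrank_orthogonal (dotB_nondeg n)]
  have h1 : Module.finrank ℝ W ≤ Module.finrank ℝ (Fin n → ℝ) := Submodule.finrank_le W
  rw [Module.finrank_fin_fun] at h1 ⊢
  omega

theorem perp_perp {n : ℕ} (W : Submodule ℝ (Fin n → ℝ)) : perp (perp W) = W := by
  rw [perp_eq, perp_eq]
  exact LinearMap.BilinForm.orthogonal_orthogonal (dotB_nondeg n) (dotB_refl n) W

theorem tan_eq_perp {n : ℕ} (C : ℕ) (S : Set (Fin n → ℝ)) (p : Fin n → ℝ) :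
    tan C S p = perp (Submodule.span ℝ (grad p '' van C S)) := by
  ext v
  rw [mem_perp]
  constructor
  · intro hv w hw
    induction hw using Submodule.span_induction with
    | mem x hx =>
      obtain ⟨f, hf, rfl⟩ := hx
      exact hv f hf
    | zero => simp
    | add x y _ _ hx hy => simp only [Pi.add_apply, add_mul, Finset.sum_add_distrib, hx, hy,
        add_zero]
    | smul a x _ hx =>
      have : ∑ i, (a • x) i * v i = a * ∑ i, x i * v i := by
        rw [Finset.mul_sum]
        refine Finset.sum_congr rfl fun i _ => ?_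
        simp only [Pi.smul_apply, smul_eq_mul]
        ring
      rw [this, hx, mul_zero]
  · intro hv f hf
    exact hv _ (Submodule.subset_span ⟨f, hf, rfl⟩)

theorem finrank_tan {e C : ℕ} {S : Set (Fin (2 * e) → ℝ)} (hS : IsSurface e C S)
    {p : Fin (2 * e) → ℝ} (hp : p ∈ S) : Module.finrank ℝ (tan C S p) = e := by
  have h1 := finrank_perp (Submodule.span ℝ (grad p '' van C S))
  rw [hS.rank p hp] at h1
  rw [tan_eq_perp]
  omega

theorem exists_isB {n : ℕ} (U : Submodule ℝ (Fin n → ℝ)) : ∃ X, IsB U X := by
  classical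
  have hne : (Finset.univ.filter fun X : Finset (Fin n) =>
      ∀ v ∈ U, (∀ i ∈ X, v i = 0) → v = 0).Nonempty := by
    refine ⟨Finset.univ, ?_⟩
    rw [Finset.mem_filter]
    refine ⟨Finset.mem_univ _, fun v _ h => ?_⟩
    funext i
    exact h i (Finset.mem_univ i)
  obtain ⟨X, hX, hmin⟩ := Finset.exists_min_image _ (fun X : Finset (Fin n) => X.card) hne
  rw [Finset.mem_filter] at hX
  have hX2 := hX.2
  refine ⟨X, ?_, hX2⟩
  let L : U →ₗ[ℝ] (X → ℝ) :=
    { toFun := fun v i => (v : Fin n → ℝ) i
      map_add' := fun a b => by funext i; simp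
      map_smul' := fun a b => by funext i; simp }
  have hL : Function.Injective L := by
    rw [← LinearMap.ker_eq_bot, LinearMap.ker_eq_bot']
    intro v hv
    apply Subtype.ext
    refine hX2 v v.2 fun i hi => ?_
    exact congrFun hv ⟨i, hi⟩
  have h1 : Module.finrank ℝ U ≤ X.card := by
    have h2 := LinearMap.finrank_le_finrank_of_injective hL
    rwa [Module.finrank_fintype_fun_eq_card, Fintype.card_coe] at h2
  refine le_antisymm ?_ h1
  by_contra hlt
  push Not at hlt
  have h3 : LinearMap.range L < ⊤ := by
    rw [lt_top_iff_ne_top]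
    intro htop
    have h4 : Module.finrank ℝ (LinearMap.range L) = Module.finrank ℝ U :=
      LinearMap.finrank_range_of_inj hL
    rw [htop, finrank_top, Module.finrank_fintype_fun_eq_card, Fintype.card_coe] at h4
    omega
  obtain ⟨g, hg0, hg⟩ := Submodule.exists_le_ker_of_lt_top _ h3
  have hex : ∃ j : X, g (Pi.single j 1) ≠ 0 := by
    by_contra hno
    push Not at hno
    apply hg0
    apply (Pi.basisFun ℝ X).ext
    intro j
    simpa using hno j
  obtain ⟨j, hj⟩ := hex
  have hmem : X.erase j ∈ (Finset.univ.filter fun X : Finset (Fin n) =>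
      ∀ v ∈ U, (∀ i ∈ X, v i = 0) → v = 0) := by
    rw [Finset.mem_filter]
    refine ⟨Finset.mem_univ _, fun v hv h => ?_⟩
    have h5 : L ⟨v, hv⟩ = v j • (Pi.single j 1 : X → ℝ) := by
      funext i
      by_cases hij : i = j
      · subst hij
        simp [L]
      · have h6 : v i = 0 := h i (Finset.mem_erase.2 ⟨fun h7 => hij (Subtype.ext h7), i.2⟩)
        simp [L, h6, hij]
    have h7 : g (L ⟨v, hv⟩) = 0 := by
      have := hg (LinearMap.mem_range_self L ⟨v, hv⟩)
      simpa using this
    rw [h5, map_smul, smul_eq_mul] at h7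
    have h8 : v j = 0 := by
      rcases mul_eq_zero.1 h7 with h9 | h9
      · exact h9
      · exact absurd h9 hj
    refine hX2 v hv fun i hi => ?_
    by_cases hij : i = j
    · rw [hij]; exact h8
    · exact h i (Finset.mem_erase.2 ⟨hij, hi⟩)
  have h10 := hmin _ hmem
  have h11 : (X.erase (j : Fin n)).card < X.card := Finset.card_erase_lt_of_mem j.2
  omega

end HDI
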