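import Mathlib
import Pool.Agent.HDI.Perp

/-!
# HDI-Fam: a surface cut by coordinate hyperplanes

`fam C S X' a` is the space of polynomials spanned by the polynomials of degree `≤ C` vanishing
on `S` and the polynomials `x_i - a_i`, `i ∈ X'`. We bound the degrees of its elements, describe
the orthogonal complement of the gradients at a point of `S`, and compute the rank.
-/

namespace HDI

open MvPolynomial

noncomputable def fam {n : ℕ} (C : ℕ) (S : Set (Fin n → ℝ)) (X' : Finset (Fin n))
    (a : Fin n → ℝ) : Submodule ℝ (MvPolynomial (Fin n) ℝ) :=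
  Submodule.span ℝ (van C S ∪ {g | ∃ i ∈ X', g = X i - MvPolynomial.C (a i)})

theorem fam_degree {n C : ℕ} (hC : 1 ≤ C) (S : Set (Fin n → ℝ)) (X' : Finset (Fin n))
    (a : Fin n → ℝ) : ∀ f ∈ fam C S X' a, f.totalDegree ≤ C := by
  intro f hf
  unfold fam at hf
  induction hf using Submodule.span_induction with
  | mem x hx =>
    rcases hx with hx | ⟨i, -, rfl⟩
    · exact hx.1
    · refine (totalDegree_sub _ _).trans ?_
      rw [totalDegree_X, totalDegree_C]
      simpa using hC
  | zero => simp
  | add x y _ _ hx hy => exact (totalDegree_add x y).trans (max_le hx hy)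
  | smul c x _ hx => exact (totalDegree_smul_le c x).trans hx

theorem fam_zero {n C : ℕ} (S : Set (Fin n → ℝ)) (X' : Finset (Fin n))
    (a p : Fin n → ℝ) (hp : p ∈ S) (ha : ∀ i ∈ X', p i = a i) :
    ∀ f ∈ fam C S X' a, eval p f = 0 := by
  intro f hf
  unfold fam at hf
  induction hf using Submodule.span_induction with
  | mem x hx =>
    rcases hx with hx | ⟨i, hi, rfl⟩
    · exact hx.2 p hp
    · rw [map_sub, eval_X, eval_C, ha i hi, sub_self]
  | zero => simp
  | add x y _ _ hx hy => rw [map_add, hx, hy, add_zero]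
  | smul c x _ hx => rw [smul_eval, hx, mul_zero]

private theorem grad_lin {n : ℕ} (p a : Fin n → ℝ) (i : Fin n) :
    grad p (X i - MvPolynomial.C (a i)) = Pi.single i (1 : ℝ) := by
  classical
  funext j
  unfold grad
  rw [map_sub, pderiv_C, sub_zero, pderiv_X]
  by_cases h : j = i
  · subst h
    rw [Pi.single_eq_same, Pi.single_eq_same, map_one]
  · rw [Pi.single_eq_of_ne (Ne.symm h), Pi.single_eq_of_ne h, map_zero]

private theorem sum_single_mul {n : ℕ} (v : Fin n → ℝ) (i : Fin n) :
    ∑ j, (Pi.single i (1 : ℝ) : Fin n → ℝ) j * v j = v i := by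
  classical
  rw [Finset.sum_eq_single i]
  · rw [Pi.single_eq_same, one_mul]
  · intro j _ hj
    rw [Pi.single_eq_of_ne hj, zero_mul]
  · intro h
    exact absurd (Finset.mem_univ i) h

theorem fam_perp {n C : ℕ} (S : Set (Fin n → ℝ)) (X' : Finset (Fin n))
    (a p v : Fin n → ℝ) :
    v ∈ perp ((fam C S X' a).map (gradL p)) ↔ v ∈ tan C S p ∧ ∀ i ∈ X', v i = 0 := by
  rw [mem_perp]
  constructor
  · intro h
    constructor
    · intro f hf
      exact h (grad p f) ⟨f, Submodule.subset_span (Or.inl hf), rfl⟩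
    · intro i hi
      have h1 := h (grad p (X i - MvPolynomial.C (a i)))
        ⟨X i - MvPolynomial.C (a i), Submodule.subset_span (Or.inr ⟨i, hi, rfl⟩), rfl⟩
      rwa [grad_lin, sum_single_mul] at h1
  · rintro ⟨h1, h2⟩ w ⟨f, hf, rfl⟩
    unfold fam at hf
    induction hf using Submodule.span_induction with
    | mem x hx =>
      rcases hx with hx | ⟨i, hi, rfl⟩
      · exact h1 x hx
      · have h3 : (gradL p) (X i - MvPolynomial.C (a i)) = Pi.single i (1 : ℝ) := grad_lin p a i
        rw [h3, sum_single_mul, h2 i hi]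
    | zero => simp
    | add x y _ _ hx hy =>
      simp only [map_add, Pi.add_apply, add_mul, Finset.sum_add_distrib, hx, hy, add_zero]
    | smul c x _ hx =>
      have h4 : ∑ i, (gradL p) (c • x) i * v i = c * ∑ i, (gradL p) x i * v i := by
        rw [Finset.mul_sum]
        refine Finset.sum_congr rfl fun i _ => ?_
        rw [map_smul, Pi.smul_apply, smul_eq_mul]
        ring
      rw [h4, hx, mul_zero]

theorem fam_rank {e C : ℕ} (S : Set (Fin (2 * e) → ℝ)) (hS : IsSurface e C S)
    (X' X : Finset (Fin (2 * e))) (hX : X' ⊆ X) (a p : Fin (2 * e) → ℝ) (hp : p ∈ S)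
    (hB : IsB (tan C S p) X) :
    e + X'.card ≤ Module.finrank ℝ ((fam C S X' a).map (gradL p)) := by
  classical
  have h1 := finrank_perp ((fam C S X' a).map (gradL p))
  have h2 : Module.finrank ℝ (perp ((fam C S X' a).map (gradL p))) ≤ (X \ X').card := by
    have h3 : Module.finrank ℝ (↥(X \ X') → ℝ) = (X \ X').card := by
      rw [Module.finrank_fintype_fun_eq_card, Fintype.card_coe]
    rw [← h3]
    let L : (Fin (2 * e) → ℝ) →ₗ[ℝ] (↥(X \ X') → ℝ) :=
      { toFun := fun v i => v i
        map_add' := fun u v => rfl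
        map_smul' := fun c v => rfl }
    refine LinearMap.finrank_le_finrank_of_injective
      (f := L.comp (perp ((fam C S X' a).map (gradL p))).subtype) ?_
    rw [← LinearMap.ker_eq_bot, LinearMap.ker_eq_bot']
    rintro ⟨v, hv⟩ h0
    have h5 := (fam_perp S X' a p v).1 hv
    have h6 : v = 0 := by
      refine hB.2 v h5.1 fun i hi => ?_
      by_cases hi' : i ∈ X'
      · exact h5.2 i hi'
      · exact congrFun h0 ⟨i, Finset.mem_sdiff.2 ⟨hi, hi'⟩⟩
    exact Subtype.ext h6
  have h4 : (X \ X').card + X'.card = X.card := Finset.card_sdiff_add_card_eq_card hX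
  have h5 : X.card = e := by rw [hB.1, finrank_tan hS hp]
  omega

theorem fam_single {n C : ℕ} (S : Set (Fin n → ℝ)) (X' : Finset (Fin n))
    (a p : Fin n → ℝ) (j : Fin n)
    (hj : ∀ v ∈ tan C S p, (∀ i ∈ X', v i = 0) → v j = 0) :
    Pi.single j (1 : ℝ) ∈ (fam C S X' a).map (gradL p) := by
  rw [← perp_perp ((fam C S X' a).map (gradL p)), mem_perp]
  intro w hw
  obtain ⟨h1, h2⟩ := (fam_perp S X' a p w).1 hw
  have h3 := hj w h1 h2
  have h4 : ∑ i, w i * (Pi.single j (1 : ℝ) : Fin n → ℝ) i = w j := by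
    rw [← sum_single_mul w j]
    exact Finset.sum_congr rfl fun i _ => mul_comm _ _
  rw [h4, h3]

end HDI
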