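import Mathlib
import Pool.Agent.HDI.Fam
import Pool.Agent.HDI.BoxesF
import Pool.Agent.HDI.CritF

/-!
# HDI-CellsT: number of cells visited by a surface
-/

namespace HDI

open MvPolynomial

private theorem cellsT_rk {Θ : Finset ℝ} {y z : ℝ} (hy : y ∉ Θ) (hz : z ∉ Θ)
    (h : rk Θ y ≠ rk Θ z) : ∃ θ ∈ Θ, (y < θ ∧ θ < z) ∨ (z < θ ∧ θ < y) := by
  by_contra hcon
  apply h
  unfold rk
  congr 1
  refine Finset.filter_congr fun θ hθ => ?_
  constructor
  · intro h1
    by_contra h2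
    have h3 : z ≠ θ := fun h4 => hz (h4 ▸ hθ)
    exact hcon ⟨θ, hθ, Or.inr ⟨lt_of_le_of_ne (not_lt.1 h2) h3, h1⟩⟩
  · intro h1
    by_contra h2
    have h3 : y ≠ θ := fun h4 => hy (h4 ▸ hθ)
    exact hcon ⟨θ, hθ, Or.inl ⟨lt_of_le_of_ne (not_lt.1 h2) h3, h1⟩⟩

private theorem cellsT_inj {α β : Type*} [DecidableEq β] (s : Finset α) (f : α → β) :
    ∃ t ⊆ s, Set.InjOn f (t : Set α) ∧ t.image f = s.image f := by
  classical
  have h : ∀ b ∈ s.image f, ∃ a, a ∈ s ∧ f a = b := fun b hb => by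
    obtain ⟨a, ha, hab⟩ := Finset.mem_image.1 hb
    exact ⟨a, ha, hab⟩
  choose g hg1 hg2 using h
  refine ⟨(s.image f).attach.image fun b => g b.1 b.2, ?_, ?_, ?_⟩
  · intro a ha
    obtain ⟨b, _, rfl⟩ := Finset.mem_image.1 ha
    exact hg1 _ _
  · intro a ha a' ha' haa
    obtain ⟨b, _, rfl⟩ := Finset.mem_image.1 (Finset.mem_coe.1 ha)
    obtain ⟨b', _, rfl⟩ := Finset.mem_image.1 (Finset.mem_coe.1 ha')
    rw [hg2, hg2] at haa
    have : b = b' := Subtype.ext haa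
    rw [this]
  · ext b
    constructor
    · intro hb
      obtain ⟨a, ha, rfl⟩ := Finset.mem_image.1 hb
      obtain ⟨b', _, rfl⟩ := Finset.mem_image.1 ha
      rw [hg2]
      exact b'.2
    · intro hb
      exact Finset.mem_image.2 ⟨g b hb, Finset.mem_image.2 ⟨⟨b, hb⟩, Finset.mem_attach _ _, rfl⟩,
        hg2 b hb⟩

/-- restriction of a point to a set of coordinates -/
private noncomputable def cellsTRes {n : ℕ} (X : Finset (Fin n)) (p : Fin n → ℝ) :
    Fin n → ℝ := fun i => if i ∈ X then p i else 0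

private theorem cellsT_res {n : ℕ} {X : Finset (Fin n)} {p q : Fin n → ℝ}
    (h : cellsTRes X p = q) {i : Fin n} (hi : i ∈ X) : p i = q i := by
  rw [← h]
  exact (if_pos hi).symm

private theorem cellsT_box {n : ℕ} (X : Finset (Fin n)) (B : Fin n → Finset ℝ)
    (Q : Finset (Fin n → ℝ)) (hQ : ∀ p ∈ Q, ∀ i ∈ X, p i ∈ B i) :
    ∃ T : Finset (Fin n → ℝ), (∀ p ∈ Q, cellsTRes X p ∈ T) ∧ T.card = ∏ i ∈ X, (B i).card := by
  classical
  refine ⟨Fintype.piFinset fun i => if i ∈ X then B i else {0}, fun p hp => ?_, ?_⟩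
  · rw [Fintype.mem_piFinset]
    intro i
    unfold cellsTRes
    by_cases hi : i ∈ X
    · rw [if_pos hi, if_pos hi]
      exact hQ p hp i hi
    · rw [if_neg hi, if_neg hi]
      exact Finset.mem_singleton_self _
  · rw [Fintype.card_piFinset, ← Finset.prod_subset (Finset.subset_univ X)]
    · refine Finset.prod_congr rfl fun i hi => ?_
      rw [if_pos hi]
    · intro i _ hi
      rw [if_neg hi, Finset.card_singleton]

theorem cells_T (e C : ℕ) (hC : 1 ≤ C) : ∃ K' : ℕ, ∀ S : Set (Fin (2 * e) → ℝ),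
    IsSurface e C S → ∀ (B Θ : Fin (2 * e) → Finset ℝ) (J X' : Finset (Fin (2 * e))),
    X' ⊆ J → ∀ Q : Finset (Fin (2 * e) → ℝ),
    (∀ p ∈ Q, p ∈ S ∧ (∀ i, p i ∈ B i) ∧ (∀ i, p i ∉ Θ i) ∧
      (∃ X, X' ⊆ X ∧ IsB (tan C S p) X) ∧
      (∀ v ∈ tan C S p, (∀ i ∈ X', v i = 0) → ∀ j ∈ J, v j = 0)) →
    (Q.image (lab J Θ)).card ≤
      K' * (∏ i ∈ X', (B i).card) * (∑ i ∈ Jᶜ, (Θ i).card + 1) ^ (e - X'.card) := by
  classical
  obtain ⟨K0, hK0⟩ := boxes_family (2 * e) C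
  obtain ⟨K1, hK1⟩ := crit_family (2 * e) C
  refine ⟨(K1 + 1) ^ (2 * e) * K0, fun S hS B Θ J X' hXJ Q hQ => ?_⟩
  obtain ⟨Q₁, hQ₁, hinj, himg⟩ := cellsT_inj Q (lab J Θ)
  rw [← himg, Finset.card_image_of_injOn hinj]
  -- group by the coordinates in `X'`
  obtain ⟨T, hT1, hT2⟩ := cellsT_box X' B Q₁ fun p hp i _ => (hQ p (hQ₁ hp)).2.1 i
  have main : ∀ a ∈ T, (Q₁.filter fun p => cellsTRes X' p = a).card ≤
      (K1 + 1) ^ (2 * e) * K0 * (∑ i ∈ Jᶜ, (Θ i).card + 1) ^ (e - X'.card) := by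
    intro a _
    obtain ⟨Q₂, hQ₂⟩ : ∃ Q₂, Q₂ = Q₁.filter fun p => cellsTRes X' p = a := ⟨_, rfl⟩
    rw [← hQ₂]
    have hQ₂' : ∀ p ∈ Q₂, p ∈ Q₁ ∧ ∀ i ∈ X', p i = a i := by
      intro p hp
      rw [hQ₂, Finset.mem_filter] at hp
      exact ⟨hp.1, fun i hi => cellsT_res hp.2 hi⟩
    have hdeg := fam_degree hC S X' a
    have hzero : ∀ p ∈ Q₂, ∀ f ∈ fam C S X' a, eval p f = 0 := fun p hp =>
      fam_zero S X' a p (hQ p (hQ₁ (hQ₂' p hp).1)).1 (hQ₂' p hp).2
    -- number of values of a coordinate in `J`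
    have hval : ∀ j ∈ J, (Q₂.image fun p => p j).card ≤ K1 := by
      intro j hj
      obtain ⟨Q₃, hQ₃, hinj₃, himg₃⟩ := cellsT_inj Q₂ fun p => p j
      rw [← himg₃, Finset.card_image_of_injOn hinj₃]
      refine hK1 (fam C S X' a) hdeg j Q₃ (fun p hp => ⟨hzero p (hQ₃ hp), ?_⟩) hinj₃
      exact fam_single S X' a p j fun v hv hv0 =>
        (hQ p (hQ₁ (hQ₂' p (hQ₃ hp)).1)).2.2.2.2 v hv hv0 j hj
    obtain ⟨T', hT'1, hT'2⟩ := cellsT_box J (fun j => Q₂.image fun p => p j) Q₂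
      fun p hp i _ => Finset.mem_image.2 ⟨p, hp, rfl⟩
    have hT'3 : T'.card ≤ (K1 + 1) ^ (2 * e) := by
      rw [hT'2]
      calc ∏ i ∈ J, (Q₂.image fun p => p i).card ≤ ∏ i ∈ J, (K1 + 1) :=
            Finset.prod_le_prod' fun i hi => (hval i hi).trans (Nat.le_succ _)
        _ = (K1 + 1) ^ J.card := by rw [Finset.prod_const]
        _ ≤ (K1 + 1) ^ (2 * e) := Nat.pow_le_pow_right (Nat.succ_pos _) (by
            have := Finset.card_le_univ J
            rwa [Fintype.card_fin] at this)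
    have hfib : ∀ q ∈ T', (Q₂.filter fun p => cellsTRes J p = q).card ≤
        K0 * (∑ i ∈ Jᶜ, (Θ i).card + 1) ^ (e - X'.card) := by
      intro q _
      obtain ⟨Q₄, hQ₄⟩ : ∃ Q₄, Q₄ = Q₂.filter fun p => cellsTRes J p = q := ⟨_, rfl⟩
      rw [← hQ₄]
      have hQ₄' : ∀ p ∈ Q₄, p ∈ Q₂ ∧ ∀ i ∈ J, p i = q i := by
        intro p hp
        rw [hQ₄, Finset.mem_filter] at hp
        exact ⟨hp.1, fun i hi => cellsT_res hp.2 hi⟩
      have h1 := hK0 (fam C S X' a) hdeg (e + X'.card) (fun i => if i ∈ J then ∅ else Θ i) Q₄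
        (fun p hp => by
          have hp2 := (hQ₄' p hp).1
          have hp1 := (hQ₂' p hp2).1
          obtain ⟨hpS, _, hpΘ, ⟨X, hX, hB⟩, _⟩ := hQ p (hQ₁ hp1)
          refine ⟨hzero p hp2, fam_rank S hS X' X hX a p hpS hB, fun i => ?_⟩
          show p i ∉ (if i ∈ J then (∅ : Finset ℝ) else Θ i)
          by_cases hi : i ∈ J
          · rw [if_pos hi]
            exact Finset.notMem_empty _
          · rw [if_neg hi]
            exact hpΘ i)
        (fun p hp p' hp' hne => by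
          have hp2 := hQ₄' p hp
          have hp2' := hQ₄' p' hp'
          have hp1 := (hQ₂' p hp2.1).1
          have hp1' := (hQ₂' p' hp2'.1).1
          have hlab : lab J Θ p ≠ lab J Θ p' := fun h2 => hne (hinj hp1 hp1' h2)
          obtain ⟨i, hi⟩ := Function.ne_iff.1 hlab
          have hiJ : i ∉ J := by
            intro hiJ
            apply hi
            show (if i ∈ J then p i else (rk (Θ i) (p i) : ℝ)) =
              (if i ∈ J then p' i else (rk (Θ i) (p' i) : ℝ))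
            rw [if_pos hiJ, if_pos hiJ, hp2.2 i hiJ, hp2'.2 i hiJ]
          have hrk : rk (Θ i) (p i) ≠ rk (Θ i) (p' i) := by
            intro h3
            apply hi
            show (if i ∈ J then p i else (rk (Θ i) (p i) : ℝ)) =
              (if i ∈ J then p' i else (rk (Θ i) (p' i) : ℝ))
            rw [if_neg hiJ, if_neg hiJ, h3]
          obtain ⟨θ, hθ, h4⟩ := cellsT_rk ((hQ p (hQ₁ hp1)).2.2.1 i)
            ((hQ p' (hQ₁ hp1')).2.2.1 i) hrk
          refine ⟨i, θ, ?_, h4⟩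
          show θ ∈ (if i ∈ J then (∅ : Finset ℝ) else Θ i)
          rw [if_neg hiJ]
          exact hθ)
      have e1 : ∑ i, ((if i ∈ J then (∅ : Finset ℝ) else Θ i)).card = ∑ i ∈ Jᶜ, (Θ i).card := by
        rw [← Finset.sum_subset (Finset.subset_univ Jᶜ)]
        · refine Finset.sum_congr rfl fun i hi => ?_
          rw [if_neg (Finset.mem_compl.1 hi)]
        · intro i _ hi
          rw [Finset.mem_compl, not_not] at hi
          rw [if_pos hi, Finset.card_empty]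
      have e2 : 2 * e - (e + X'.card) = e - X'.card := by omega
      rw [e1, e2] at h1
      exact h1
    have h2 := Finset.card_le_mul_card_image_of_maps_to (s := Q₂) (t := T')
      (f := fun p => cellsTRes J p) hT'1 _ hfib
    refine h2.trans ?_
    calc K0 * (∑ i ∈ Jᶜ, (Θ i).card + 1) ^ (e - X'.card) * T'.card
        ≤ K0 * (∑ i ∈ Jᶜ, (Θ i).card + 1) ^ (e - X'.card) * (K1 + 1) ^ (2 * e) :=
          Nat.mul_le_mul_left _ hT'3
      _ = _ := by ring
  have h3 := Finset.card_le_mul_card_image_of_maps_to (s := Q₁) (t := T)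
    (f := fun p => cellsTRes X' p) hT1 _ main
  refine h3.trans (le_of_eq ?_)
  rw [hT2]
  ring

end HDI
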