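import Mathlib
import Pool.Agent.HDI.Perp

/-!
# HDI-ComplB: complementary subspaces have complementary sets of coordinates

PLAN. Let `e1 = finrank U`, `e2 = finrank V`, `e1 + e2 = n`. Choose bases `u` of `U`, `v` of `V`;
the `n` vectors `u_1, .., u_e1, v_1, .., v_e2` are a basis of `ℝ ^ n`: the matrix `M` with
rows indexed by the coordinate `i : Fin n` and columns by `Fin e1 ⊕ Fin e2`,
`M i (inl a) = u a i`, `M i (inr b) = v b i`, is invertible (reindex by an equivalence
`Fin n ≃ Fin e1 ⊕ Fin e2` to speak about its determinant). Write each row as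
`(A_i | 0) + (0 | B_i)`. The determinant is multilinear in the rows:
`MultilinearMap.map_add_univ` (for `Matrix.detRowAlternating`) gives
`det M = ∑ over Y : Finset (Fin n) of det (N_Y)`, where the row `i` of `N_Y` is `(A_i | 0)` for
`i ∈ Y` and `(0 | B_i)` for `i ∉ Y`. Some `N_Y` has nonzero determinant. Its rows are linearly
independent, those in `Y` lie in `ℝ ^ e1 × 0`, those outside in `0 × ℝ ^ e2`; so
`Y.card ≤ e1`, `Yᶜ.card ≤ e2`, hence equalities, and the `A_i`, `i ∈ Y`, are a basis of
`ℝ ^ e1`: if `w = ∑ c_a u_a ∈ U` has `w i = 0` for all `i ∈ Y` then `c ⟂ A_i` for all `i ∈ Y`, so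
`c = 0`. Same for `V` and `Yᶜ`. Take `X = Y`.
ALTERNATIVE without determinants (matroid style): maximal `X` with `IsIndep` etc.; any proof. -/

namespace HDI

theorem compl_bases {n : ℕ} (U V : Submodule ℝ (Fin n → ℝ)) (h : IsCompl U V) :
    ∃ X, IsB U X ∧ IsB V Xᶜ := by
  classical
  obtain ⟨p, hpU, hpV⟩ : ∃ p : (Fin n → ℝ) →ₗ[ℝ] (Fin n → ℝ),
      (∀ u ∈ U, p u = u) ∧ ∀ v ∈ V, p v = 0 := by
    refine ⟨U.subtype.comp (U.projectionOnto V h), ?_, ?_⟩
    · intro u hu
      have h1 := Submodule.projectionOnto_apply_left h ⟨u, hu⟩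
      exact congrArg Subtype.val h1
    · intro v hv
      have h1 := (Submodule.projectionOnto_apply_eq_zero_iff h).2 hv
      exact congrArg Subtype.val h1
  let P : Matrix (Fin n) (Fin n) ℝ := LinearMap.toMatrix' p
  let Q : Matrix (Fin n) (Fin n) ℝ := LinearMap.toMatrix' (LinearMap.id - p)
  have hP : ∀ x, P.mulVec x = p x := fun x => by
    show (LinearMap.toMatrix' p).mulVec x = p x
    rw [← Matrix.toLin'_apply, Matrix.toLin'_toMatrix']
  have hQ : ∀ x, Q.mulVec x = x - p x := fun x => by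
    show (LinearMap.toMatrix' (LinearMap.id - p)).mulVec x = x - p x
    rw [← Matrix.toLin'_apply, Matrix.toLin'_toMatrix']
    rfl
  have hPQ : P + Q = 1 := by
    show LinearMap.toMatrix' p + LinearMap.toMatrix' (LinearMap.id - p) = 1
    rw [← map_add, add_sub_cancel, LinearMap.toMatrix'_id]
  have hdet : ∑ Y : Finset (Fin n), Matrix.det (Y.piecewise P Q : Matrix (Fin n) (Fin n) ℝ) = 1 := by
    have h1 := (Matrix.detRowAlternating (n := Fin n) (R := ℝ)).toMultilinearMap.map_add_univ P Q
    have h2 : (Matrix.detRowAlternating (n := Fin n) (R := ℝ)).toMultilinearMap (P + Q) = 1 := by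
      rw [hPQ]
      exact Matrix.det_one
    exact (h1.symm.trans h2)
  obtain ⟨Y, -, hY⟩ := Finset.exists_ne_zero_of_sum_ne_zero
    (show ∑ Y : Finset (Fin n), Matrix.det (Y.piecewise P Q : Matrix (Fin n) (Fin n) ℝ) ≠ 0 by
      rw [hdet]
      exact one_ne_zero)
  have hker : ∀ x : Fin n → ℝ, (∀ i ∈ Y, p x i = 0) → (∀ i ∉ Y, x i - p x i = 0) → x = 0 := by
    intro x h1 h2
    have h3 : Matrix.mulVec (Y.piecewise P Q) x = 0 := by
      funext i
      by_cases hi : i ∈ Y
      · have h4 : Matrix.mulVec (Y.piecewise P Q) x i = P.mulVec x i := by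
          simp only [Matrix.mulVec, dotProduct]
          refine Finset.sum_congr rfl fun k _ => ?_
          rw [Finset.piecewise_eq_of_mem _ _ _ hi]
        rw [h4, hP, h1 i hi]
        rfl
      · have h4 : Matrix.mulVec (Y.piecewise P Q) x i = Q.mulVec x i := by
          simp only [Matrix.mulVec, dotProduct]
          refine Finset.sum_congr rfl fun k _ => ?_
          rw [Finset.piecewise_eq_of_notMem _ _ _ hi]
        rw [h4, hQ, Pi.sub_apply, h2 i hi]
        rfl
    exact Matrix.eq_zero_of_mulVec_eq_zero hY h3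
  have hU0 : ∀ v ∈ U, (∀ i ∈ Y, v i = 0) → v = 0 := by
    intro v hv h0
    apply hker v
    · intro i hi
      rw [hpU v hv]
      exact h0 i hi
    · intro i _
      rw [hpU v hv, sub_self]
  have hV0 : ∀ v ∈ V, (∀ i ∈ Yᶜ, v i = 0) → v = 0 := by
    intro v hv h0
    apply hker v
    · intro i _
      rw [hpV v hv]
      rfl
    · intro i hi
      rw [hpV v hv, h0 i (Finset.mem_compl.2 hi)]
      simp
  have hle : ∀ (W : Submodule ℝ (Fin n → ℝ)) (Z : Finset (Fin n)),
      (∀ v ∈ W, (∀ i ∈ Z, v i = 0) → v = 0) → Module.finrank ℝ W ≤ Z.card := by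
    intro W Z hZ
    let f : W →ₗ[ℝ] (Z → ℝ) :=
      (LinearMap.funLeft ℝ ℝ (Subtype.val : Z → Fin n)).comp W.subtype
    have hinj : Function.Injective f := by
      rw [← LinearMap.ker_eq_bot, LinearMap.ker_eq_bot']
      intro w hw
      have h1 := hZ w w.2 (fun i hi => congrFun hw ⟨i, hi⟩)
      exact Subtype.ext h1
    have h2 := LinearMap.finrank_le_finrank_of_injective hinj
    rwa [Module.finrank_fintype_fun_eq_card, Fintype.card_coe] at h2
  have h1 := hle U Y hU0
  have h2 := hle V Yᶜ hV0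
  have h3 := Submodule.finrank_add_eq_of_isCompl h
  rw [Module.finrank_fintype_fun_eq_card, Fintype.card_fin] at h3
  have h4 : Y.card + Yᶜ.card = n := by
    rw [Finset.card_add_card_compl, Fintype.card_fin]
  exact ⟨Y, ⟨by omega, hU0⟩, by omega, hV0⟩

/-- Form used later: two `e`-dimensional subspaces of `ℝ ^ (2 e)` with trivial
intersection. -/
theorem compl_bases' {e : ℕ} (U V : Submodule ℝ (Fin (2 * e) → ℝ))
    (hU : Module.finrank ℝ U = e) (hV : Module.finrank ℝ V = e)
    (h : ∀ v, v ∈ U → v ∈ V → v = 0) : ∃ X, IsB U X ∧ IsB V Xᶜ := by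
  apply compl_bases
  have hd : Disjoint U V := Submodule.disjoint_def.2 h
  refine ⟨hd, ?_⟩
  rw [codisjoint_iff]
  apply Submodule.eq_top_of_finrank_eq
  have h1 := Submodule.finrank_sup_add_finrank_inf_eq U V
  rw [disjoint_iff.1 hd, finrank_bot, hU, hV] at h1
  rw [Module.finrank_fintype_fun_eq_card, Fintype.card_fin]
  omega

end HDI
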