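import Mathlib

/-!
# HDI-Kst: Kővári-Sós-Turán counting inside cells (Mathlib only)

Let `a(s, g)` be the number of `p ∈ P` with `(p, s) ∈ E` and `χ p = g`. Then
`a ≤ l + k (k / l) ^ (k - 1) * a.choose k`, and the sum of the `a.choose k` is estimated by double
counting pairs (`s`, `k`-subset of a cell).
-/

namespace HDI

private theorem pow_div_le_choose (k : ℕ) (hk : 1 ≤ k) :
    ∀ a : ℕ, k ≤ a → ((a : ℝ) / k) ^ k ≤ (a.choose k : ℝ) := by
  induction k, hk using Nat.le_induction with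
  | base =>
    intro a _
    simp
  | succ k hk ih =>
    intro a ha
    obtain ⟨n, rfl⟩ : ∃ n, a = n + 1 := ⟨a - 1, by omega⟩
    have hn : k ≤ n := by omega
    have hk0 : (0 : ℝ) < k := by exact_mod_cast hk
    have h1 : ((n + 1 : ℕ) : ℝ) * (n.choose k : ℝ) =
        ((n + 1).choose (k + 1) : ℝ) * ((k + 1 : ℕ) : ℝ) := by
      exact_mod_cast Nat.add_one_mul_choose_eq n k
    have h2 := ih n hn
    have hk1 : (0 : ℝ) < ((k + 1 : ℕ) : ℝ) := by positivity
    have h3 : ((n + 1 : ℕ) : ℝ) / ((k + 1 : ℕ) : ℝ) ≤ (n : ℝ) / k := by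
      rw [div_le_div_iff₀ hk1 hk0]
      push_cast
      have : (k : ℝ) ≤ n := by exact_mod_cast hn
      nlinarith
    have h4 : ((n + 1).choose (k + 1) : ℝ) =
        ((n + 1 : ℕ) : ℝ) / ((k + 1 : ℕ) : ℝ) * (n.choose k : ℝ) := by
      rw [div_mul_eq_mul_div, h1, mul_div_assoc, div_self hk1.ne', mul_one]
    rw [h4, pow_succ, mul_comm]
    refine mul_le_mul_of_nonneg_left ?_ (by positivity)
    exact (pow_le_pow_left₀ (by positivity) h3 k).trans h2

private theorem one_cell (k : ℕ) (hk : 2 ≤ k) (l : ℝ) (hl : (k : ℝ) ≤ l) (a : ℕ) :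
    (a : ℝ) ≤ l + k * (k / l) ^ (k - 1) * (a.choose k : ℝ) := by
  have hk0 : (0 : ℝ) < k := by exact_mod_cast (by omega : 0 < k)
  have hl0 : 0 < l := hk0.trans_le hl
  have hnn : 0 ≤ (k : ℝ) * (k / l) ^ (k - 1) * (a.choose k : ℝ) := by positivity
  rcases lt_or_ge (a : ℝ) l with h | h
  · linarith
  · have hka : k ≤ a := by exact_mod_cast hl.trans h
    have h1 := pow_div_le_choose k (by omega) a hka
    have h2 : ((a : ℝ) / k) * (l / k) ^ (k - 1) ≤ (a.choose k : ℝ) := by
      refine le_trans ?_ h1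
      have e : ((a : ℝ) / k) ^ k = ((a : ℝ) / k) * ((a : ℝ) / k) ^ (k - 1) := by
        rw [← pow_succ']
        congr 1
        omega
      rw [e]
      refine mul_le_mul_of_nonneg_left ?_ (by positivity)
      exact pow_le_pow_left₀ (by positivity) (div_le_div_of_nonneg_right h hk0.le) _
    have h3 : (a : ℝ) = k * (k / l) ^ (k - 1) * (((a : ℝ) / k) * (l / k) ^ (k - 1)) := by
      have e : ((k : ℝ) / l) ^ (k - 1) * (l / k) ^ (k - 1) = 1 := by
        rw [← mul_pow]
        have : (k : ℝ) / l * (l / k) = 1 := by field_simp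
        rw [this, one_pow]
      calc (a : ℝ) = k * ((a : ℝ) / k) * 1 := by field_simp
        _ = k * ((a : ℝ) / k) * (((k : ℝ) / l) ^ (k - 1) * (l / k) ^ (k - 1)) := by rw [e]
        _ = _ := by ring
    calc (a : ℝ) = k * (k / l) ^ (k - 1) * (((a : ℝ) / k) * (l / k) ^ (k - 1)) := h3
      _ ≤ k * (k / l) ^ (k - 1) * (a.choose k : ℝ) :=
          mul_le_mul_of_nonneg_left h2 (by positivity)
      _ ≤ l + k * (k / l) ^ (k - 1) * (a.choose k : ℝ) := by linarith

private theorem double_count {α β γ : Type*} [DecidableEq α] [DecidableEq β] [DecidableEq γ]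
    (k C : ℕ) (P : Finset α) (S : Finset β) (E : Finset (α × β))
    (hdeg : ∀ Q : Finset α, Q.card = k → (S.filter fun s => ∀ q ∈ Q, (q, s) ∈ E).card ≤ C)
    (χ : α → γ) (g : γ) :
    ∑ s ∈ S, ((P.filter fun p => (p, s) ∈ E ∧ χ p = g).card).choose k ≤
      C * ((P.filter fun p => χ p = g).card).choose k := by
  classical
  have h1 : ∀ s ∈ S, ((P.filter fun p => (p, s) ∈ E ∧ χ p = g).card).choose k =
      (((P.filter fun p => χ p = g).powersetCard k).filter
        fun Q => ∀ q ∈ Q, (q, s) ∈ E).card := by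
    intro s _
    rw [← Finset.card_powersetCard]
    congr 1
    ext Q
    simp only [Finset.mem_powersetCard, Finset.mem_filter]
    constructor
    · rintro ⟨hQ, hc⟩
      refine ⟨⟨fun q hq => ?_, hc⟩, fun q hq => ?_⟩
      · have := Finset.mem_filter.1 (hQ hq)
        exact Finset.mem_filter.2 ⟨this.1, this.2.2⟩
      · exact (Finset.mem_filter.1 (hQ hq)).2.1
    · rintro ⟨⟨hQ, hc⟩, h⟩
      refine ⟨fun q hq => ?_, hc⟩
      have := Finset.mem_filter.1 (hQ hq)
      exact Finset.mem_filter.2 ⟨this.1, h q hq, this.2⟩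
  rw [Finset.sum_congr rfl h1]
  have h2 := Finset.sum_card_bipartiteAbove_eq_sum_card_bipartiteBelow
    (s := S) (t := (P.filter fun p => χ p = g).powersetCard k)
    (fun (s : β) (Q : Finset α) => ∀ q ∈ Q, (q, s) ∈ E)
  simp only [Finset.bipartiteAbove, Finset.bipartiteBelow] at h2
  rw [h2]
  calc ∑ Q ∈ (P.filter fun p => χ p = g).powersetCard k,
        (S.filter fun s => ∀ q ∈ Q, (q, s) ∈ E).card
      ≤ ∑ Q ∈ (P.filter fun p => χ p = g).powersetCard k, C :=
        Finset.sum_le_sum fun Q hQ => hdeg Q (Finset.mem_powersetCard.1 hQ).2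
    _ = C * ((P.filter fun p => χ p = g).card).choose k := by
        rw [Finset.sum_const, Finset.card_powersetCard, smul_eq_mul, mul_comm]

theorem kst_cells {α β γ : Type*} [DecidableEq α] [DecidableEq β] [DecidableEq γ]
    (k C : ℕ) (hk : 2 ≤ k) (P : Finset α) (S : Finset β) (E : Finset (α × β))
    (hE : E ⊆ P ×ˢ S)
    (hdeg : ∀ Q : Finset α, Q.card = k → (S.filter fun s => ∀ q ∈ Q, (q, s) ∈ E).card ≤ C)
    (χ : α → γ) (M v : ℝ) (hM : ∀ g, ((P.filter fun p => χ p = g).card : ℝ) ≤ M)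
    (hv : ∀ s ∈ S, (((P.filter fun p => (p, s) ∈ E).image χ).card : ℝ) ≤ v)
    (l : ℝ) (hl : (k : ℝ) ≤ l) :
    (E.card : ℝ) ≤ l * v * S.card + C * k * (k * M / l) ^ (k - 1) * P.card := by
  classical
  have hk0 : (0 : ℝ) < k := by exact_mod_cast (by omega : 0 < k)
  have hl0 : 0 < l := hk0.trans_le hl
  set κ : ℝ := k * (k / l) ^ (k - 1) with hκ
  have hκ0 : 0 ≤ κ := by positivity
  -- the number of incidences
  have h1 : E.card ≤ ∑ s ∈ S, (P.filter fun p => (p, s) ∈ E).card := by
    have e1 : E.card = ∑ s ∈ S, (E.filter fun x => x.2 = s).card :=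
      Finset.card_eq_sum_card_fiberwise fun x hx => (Finset.mem_product.1 (hE hx)).2
    rw [e1]
    refine Finset.sum_le_sum fun s _ => ?_
    refine Finset.card_le_card_of_injOn Prod.fst ?_ ?_
    · rintro ⟨p, t⟩ hx
      have hx' := Finset.mem_filter.1 (Finset.mem_coe.1 hx)
      have hts : t = s := hx'.2
      subst hts
      exact Finset.mem_coe.2 (Finset.mem_filter.2 ⟨(Finset.mem_product.1 (hE hx'.1)).1, hx'.1⟩)
    · rintro ⟨p, t⟩ hx ⟨p', t'⟩ hx' h
      have a1 := (Finset.mem_filter.1 (Finset.mem_coe.1 hx)).2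
      have a2 := (Finset.mem_filter.1 (Finset.mem_coe.1 hx')).2
      simp only at a1 a2 h
      rw [a1, a2, h]
  -- splitting into cells
  have h2 : ∀ s ∈ S, (((P.filter fun p => (p, s) ∈ E).card : ℕ) : ℝ) ≤
      l * v + κ * ∑ g ∈ P.image χ, (((P.filter fun p => (p, s) ∈ E ∧ χ p = g).card).choose k : ℝ) := by
    intro s hs
    have e1 : (P.filter fun p => (p, s) ∈ E).card =
        ∑ g ∈ (P.filter fun p => (p, s) ∈ E).image χ,
          (P.filter fun p => (p, s) ∈ E ∧ χ p = g).card := by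
      rw [Finset.card_eq_sum_card_image χ (P.filter fun p => (p, s) ∈ E)]
      refine Finset.sum_congr rfl fun g _ => ?_
      rw [Finset.filter_filter]
    rw [e1, Nat.cast_sum]
    calc ∑ g ∈ (P.filter fun p => (p, s) ∈ E).image χ,
          (((P.filter fun p => (p, s) ∈ E ∧ χ p = g).card : ℕ) : ℝ)
        ≤ ∑ g ∈ (P.filter fun p => (p, s) ∈ E).image χ,
          (l + κ * (((P.filter fun p => (p, s) ∈ E ∧ χ p = g).card).choose k : ℝ)) :=
          Finset.sum_le_sum fun g _ => one_cell k hk l hl _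
      _ = ((P.filter fun p => (p, s) ∈ E).image χ).card * l +
          κ * ∑ g ∈ (P.filter fun p => (p, s) ∈ E).image χ,
            (((P.filter fun p => (p, s) ∈ E ∧ χ p = g).card).choose k : ℝ) := by
          rw [Finset.sum_add_distrib, Finset.sum_const, nsmul_eq_mul, Finset.mul_sum]
      _ ≤ _ := by
          refine add_le_add ?_ ?_
          · rw [mul_comm]
            exact mul_le_mul_of_nonneg_left (hv s hs) hl0.le
          · refine mul_le_mul_of_nonneg_left ?_ hκ0
            refine Finset.sum_le_sum_of_subset_of_nonneg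
              (Finset.image_subset_image (Finset.filter_subset _ _)) fun g _ _ => ?_
            positivity
  have h3 : (∑ s ∈ S, ∑ g ∈ P.image χ,
      (((P.filter fun p => (p, s) ∈ E ∧ χ p = g).card).choose k : ℝ)) ≤
      C * M ^ (k - 1) * P.card := by
    rw [Finset.sum_comm]
    have e1 : (P.card : ℝ) = ∑ g ∈ P.image χ, ((P.filter fun p => χ p = g).card : ℝ) := by
      rw [← Nat.cast_sum, ← Finset.card_eq_sum_card_image]
    rw [e1, Finset.mul_sum]
    refine Finset.sum_le_sum fun g _ => ?_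
    have e2 : (∑ s ∈ S, (((P.filter fun p => (p, s) ∈ E ∧ χ p = g).card).choose k : ℝ)) ≤
        C * (((P.filter fun p => χ p = g).card).choose k : ℝ) := by
      exact_mod_cast double_count k C P S E hdeg χ g
    refine e2.trans ?_
    rw [mul_assoc]
    refine mul_le_mul_of_nonneg_left ?_ (Nat.cast_nonneg C)
    set m := (P.filter fun p => χ p = g).card with hm
    have e3 : (m.choose k : ℝ) ≤ (m : ℝ) ^ k := by exact_mod_cast Nat.choose_le_pow m k
    refine e3.trans ?_
    have e4 : (m : ℝ) ^ k = (m : ℝ) ^ (k - 1) * m := by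
      rw [← pow_succ]
      congr 1
      omega
    rw [e4]
    exact mul_le_mul_of_nonneg_right (pow_le_pow_left₀ (Nat.cast_nonneg m) (hM g) _)
      (Nat.cast_nonneg m)
  calc (E.card : ℝ) ≤ ((∑ s ∈ S, (P.filter fun p => (p, s) ∈ E).card : ℕ) : ℝ) := by
        exact_mod_cast h1
    _ = ∑ s ∈ S, (((P.filter fun p => (p, s) ∈ E).card : ℕ) : ℝ) := Nat.cast_sum _ _
    _ ≤ ∑ s ∈ S, (l * v + κ * ∑ g ∈ P.image χ,
          (((P.filter fun p => (p, s) ∈ E ∧ χ p = g).card).choose k : ℝ)) :=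
        Finset.sum_le_sum h2
    _ = l * v * S.card + κ * ∑ s ∈ S, ∑ g ∈ P.image χ,
          (((P.filter fun p => (p, s) ∈ E ∧ χ p = g).card).choose k : ℝ) := by
        rw [Finset.sum_add_distrib, Finset.sum_const, nsmul_eq_mul, Finset.mul_sum]
        ring
    _ ≤ l * v * S.card + κ * (C * M ^ (k - 1) * P.card) := by
        have := mul_le_mul_of_nonneg_left h3 hκ0
        linarith
    _ = _ := by
        rw [hκ, mul_div_assoc, mul_comm (k : ℝ) (M / l), div_mul_eq_mul_div, mul_div_assoc,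
          mul_pow]
        ring

end HDI
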