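import Mathlib
import Pool.Agent.HDI.Defs

/-!
# HDI-Split: thresholds which cut a finite set of reals into `D` almost equal parts

Let `b_0 < ... < b_{N-1}` be the elements of `B` and `q = N / D + 1`; the thresholds are the midpoints
`(b_{jq-1} + b_{jq}) / 2`, `1 ≤ j`, `j q < N` (then `j < D`). Two elements with the same number of
thresholds below have indices which differ by less than `q`. -/

namespace HDI

private theorem card_le_of_close (S : Finset ℕ) (q : ℕ)
    (h : ∀ a ∈ S, ∀ b ∈ S, a ≤ b → b < a + q) : S.card ≤ q := by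
  rcases S.eq_empty_or_nonempty with rfl | hne
  · exact Nat.zero_le _
  · have h1 : S ⊆ Finset.Ico (S.min' hne) (S.min' hne + q) := by
      intro x hx
      rw [Finset.mem_Ico]
      exact ⟨S.min'_le x hx, h _ (S.min'_mem hne) x hx (S.min'_le x hx)⟩
    have h2 := Finset.card_le_card h1
    rw [Nat.card_Ico] at h2
    omega

private theorem split_aux (N q D : ℕ) (hq : 1 ≤ q) (hN : N < q * D) (b : ℕ → ℝ)
    (hb : ∀ i j, i < j → j < N → b i < b j) :
    ∃ Θ : Finset ℝ, Θ.card ≤ D ∧ (∀ θ ∈ Θ, ∀ i < N, θ ≠ b i) ∧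
      ∀ r : ℕ, ((Finset.range N).filter fun i => rk Θ (b i) = r).card ≤ q := by
  have hb' : ∀ i j, i ≤ j → j < N → b i ≤ b j := by
    intro i j hij hj
    rcases Nat.eq_or_lt_of_le hij with rfl | h
    · exact le_rfl
    · exact (hb i j h hj).le
  refine ⟨((Finset.range D).filter fun j => 1 ≤ j ∧ j * q < N).image
    (fun j => (b (j * q - 1) + b (j * q)) / 2), ?_, ?_, ?_⟩
  · refine Finset.card_image_le.trans ((Finset.card_filter_le _ _).trans ?_)
    rw [Finset.card_range]
  · intro θ hθ i hi he
    obtain ⟨j, hj, rfl⟩ := Finset.mem_image.1 hθ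
    rw [Finset.mem_filter] at hj
    obtain ⟨-, hj1, hj2⟩ := hj
    have h0 : 0 < j * q := Nat.mul_pos hj1 hq
    have h1 : b (j * q - 1) < b (j * q) := hb _ _ (by omega) hj2
    rcases Nat.lt_or_ge i (j * q) with h2 | h2
    · have h3 := hb' i (j * q - 1) (by omega) (by omega)
      linarith
    · have h3 := hb' (j * q) i h2 hi
      linarith
  · intro r
    apply card_le_of_close
    intro i hi i' hi' hii
    rw [Finset.mem_filter, Finset.mem_range] at hi hi'
    by_contra hcon
    rw [not_lt] at hcon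
    have h1 : i < (i / q + 1) * q := by
      have h2 := Nat.div_add_mod i q
      have h3 := Nat.mod_lt i hq
      have h4 : (i / q + 1) * q = q * (i / q) + q := by ring
      omega
    have h5 : (i / q + 1) * q ≤ i + q := by
      have h2 := Nat.div_add_mod i q
      have h4 : (i / q + 1) * q = q * (i / q) + q := by ring
      omega
    have h6 : (i / q + 1) * q < N := by omega
    have h7 : i / q + 1 < D := by
      by_contra h8
      rw [not_lt] at h8
      have h9 := Nat.mul_le_mul_left q h8
      rw [Nat.mul_comm q (i / q + 1)] at h9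
      omega
    have h10 : b ((i / q + 1) * q - 1) < b ((i / q + 1) * q) := hb _ _ (by omega) h6
    have h11 := hb' i ((i / q + 1) * q - 1) (by omega) (by omega)
    have h12 := hb' ((i / q + 1) * q) i' (by omega) hi'.1
    have h13 : rk (((Finset.range D).filter fun j => 1 ≤ j ∧ j * q < N).image
        (fun j => (b (j * q - 1) + b (j * q)) / 2)) (b i) <
        rk (((Finset.range D).filter fun j => 1 ≤ j ∧ j * q < N).image
        (fun j => (b (j * q - 1) + b (j * q)) / 2)) (b i') := by
      unfold rk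
      apply Finset.card_lt_card
      rw [Finset.ssubset_iff_of_subset]
      · refine ⟨(b ((i / q + 1) * q - 1) + b ((i / q + 1) * q)) / 2, ?_, ?_⟩
        · rw [Finset.mem_filter]
          refine ⟨Finset.mem_image.2 ⟨i / q + 1, ?_, rfl⟩, by linarith⟩
          rw [Finset.mem_filter, Finset.mem_range]
          exact ⟨h7, Nat.le_add_left 1 _, h6⟩
        · rw [Finset.mem_filter]
          rintro ⟨-, h14⟩
          linarith
      · intro θ hθ
        rw [Finset.mem_filter] at hθ ⊢
        exact ⟨hθ.1, hθ.2.trans_le (hb' i i' hii hi'.1)⟩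
    rw [hi.2, hi'.2] at h13
    exact lt_irrefl _ h13

theorem split (B : Finset ℝ) (D : ℕ) (hD : 1 ≤ D) :
    ∃ Θ : Finset ℝ, Θ.card ≤ D ∧ (∀ θ ∈ Θ, θ ∉ B) ∧
      ∀ r : ℕ, (B.filter fun y => rk Θ y = r).card ≤ B.card / D + 1 := by
  classical
  let e : Fin B.card ↪o ℝ := B.orderEmbOfFin rfl
  let b : ℕ → ℝ := fun i => if h : i < B.card then e ⟨i, h⟩ else 0
  have hb : ∀ i j, i < j → j < B.card → b i < b j := by
    intro i j hij hj
    have hi : i < B.card := hij.trans hj
    have h1 : b i = e ⟨i, hi⟩ := dif_pos hi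
    have h2 : b j = e ⟨j, hj⟩ := dif_pos hj
    rw [h1, h2]
    exact e.lt_iff_lt.2 (Fin.mk_lt_mk.2 hij)
  have hB : ∀ y ∈ B, ∃ i, i < B.card ∧ b i = y := by
    intro y hy
    have h1 : y ∈ Set.range (B.orderEmbOfFin rfl) := by
      rw [Finset.range_orderEmbOfFin]
      exact hy
    obtain ⟨⟨i, hi⟩, h2⟩ := h1
    exact ⟨i, hi, (dif_pos hi).trans h2⟩
  have hN : B.card < (B.card / D + 1) * D := by
    have h2 := Nat.div_add_mod B.card D
    have h3 := Nat.mod_lt B.card hD
    have h4 : (B.card / D + 1) * D = D * (B.card / D) + D := by ring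
    omega
  obtain ⟨Θ, h1, h2, h3⟩ := split_aux B.card (B.card / D + 1) D (Nat.le_add_left 1 _) hN b hb
  refine ⟨Θ, h1, ?_, ?_⟩
  · intro θ hθ hθB
    obtain ⟨i, hi, h4⟩ := hB θ hθB
    exact h2 θ hθ i hi h4.symm
  · intro r
    refine le_trans ?_ (h3 r)
    have h4 : (B.filter fun y => rk Θ y = r) ⊆
        ((Finset.range B.card).filter fun i => rk Θ (b i) = r).image b := by
      intro y hy
      rw [Finset.mem_filter] at hy
      obtain ⟨i, hi, h5⟩ := hB y hy.1
      rw [Finset.mem_image]
      refine ⟨i, ?_, h5⟩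
      rw [Finset.mem_filter, Finset.mem_range, h5]
      exact ⟨hi, hy.2⟩
    exact (Finset.card_le_card h4).trans Finset.card_image_le

end HDI
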