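import Mathlib
import Pool.Agent.HDI.CellsT
import Pool.Agent.HDI.Kst
import Pool.Agent.HDI.Assem
import Pool.Agent.HDI.Split

/-!
# HDI-Core: cells, Kővári-Sós-Turán and the exponent computation combined

The points of the product are put into cells: exact values of the coordinates in `J`, and the
intervals between thresholds for the other coordinates (about `D` intervals for each of them).
`cells_T` bounds the number of cells visited by one surface, `core_lab` the number of points in a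
cell; `kst_cells` and `assemble` give the bound for the number of incidences.
-/

namespace HDI

/-- the points with a given label are in a product set -/
private theorem core_lab {n : ℕ} (B Θ : Fin n → Finset ℝ) (P : Finset (Fin n → ℝ))
    (hP : P ⊆ Fintype.piFinset B) (J : Finset (Fin n)) (D : ℝ) (hD : 1 ≤ D)
    (hJ : ∀ i, i ∉ J → D ≤ ((B i).card : ℝ))
    (hΘ : ∀ i, i ∉ J → ∀ r : ℕ,
      ((B i).filter fun y => rk (Θ i) y = r).card ≤ (B i).card / ⌊D⌋₊ + 1)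
    (g : Fin n → ℝ) [DecidablePred fun p : Fin n → ℝ => lab J Θ p = g] :
    ((P.filter fun p => lab J Θ p = g).card : ℝ) ≤ ∏ i ∈ Jᶜ, (3 * ((B i).card : ℝ) / D) := by
  classical
  let T : Fin n → Finset ℝ := fun i =>
    if i ∈ J then {g i} else (B i).filter fun y => (rk (Θ i) y : ℝ) = g i
  have h1 : (P.filter fun p => lab J Θ p = g) ⊆ Fintype.piFinset T := by
    intro p hp
    rw [Finset.mem_filter] at hp
    rw [Fintype.mem_piFinset]
    intro i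
    have h2 : lab J Θ p i = g i := congrFun hp.2 i
    have h3 : p i ∈ B i := Fintype.mem_piFinset.1 (hP hp.1) i
    by_cases hi : i ∈ J
    · have h4 : (if i ∈ J then p i else (rk (Θ i) (p i) : ℝ)) = g i := h2
      rw [if_pos hi] at h4
      show p i ∈ (if i ∈ J then ({g i} : Finset ℝ) else (B i).filter fun y => (rk (Θ i) y : ℝ) = g i)
      rw [if_pos hi, h4]
      exact Finset.mem_singleton_self _
    · have h4 : (if i ∈ J then p i else (rk (Θ i) (p i) : ℝ)) = g i := h2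
      rw [if_neg hi] at h4
      show p i ∈ (if i ∈ J then ({g i} : Finset ℝ) else (B i).filter fun y => (rk (Θ i) y : ℝ) = g i)
      rw [if_neg hi, Finset.mem_filter]
      exact ⟨h3, h4⟩
  have h2 : ((P.filter fun p => lab J Θ p = g).card : ℝ) ≤ ∏ i, ((T i).card : ℝ) := by
    have h3 := Finset.card_le_card h1
    rw [Fintype.card_piFinset] at h3
    exact_mod_cast h3
  refine h2.trans ?_
  rw [← Finset.prod_mul_prod_compl J]
  have h3 : ∏ i ∈ J, ((T i).card : ℝ) = 1 := by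
    refine Finset.prod_eq_one fun i hi => ?_
    have h4 : T i = {g i} := if_pos hi
    rw [h4, Finset.card_singleton, Nat.cast_one]
  rw [h3, one_mul]
  refine Finset.prod_le_prod (fun i _ => Nat.cast_nonneg _) fun i hi => ?_
  have hi' : i ∉ J := Finset.mem_compl.1 hi
  have h4 : T i = (B i).filter fun y => (rk (Θ i) y : ℝ) = g i := if_neg hi'
  have hD0 : 0 < D := lt_of_lt_of_le one_pos hD
  have hN := hJ i hi'
  have hfl : 1 ≤ ⌊D⌋₊ := (Nat.one_le_floor_iff D).2 hD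
  have hfl' : D ≤ 2 * (⌊D⌋₊ : ℝ) := by
    have h5 := Nat.lt_floor_add_one D
    have h6 : (1 : ℝ) ≤ (⌊D⌋₊ : ℝ) := by exact_mod_cast hfl
    linarith
  have hfl0 : (0 : ℝ) < (⌊D⌋₊ : ℝ) := by exact_mod_cast hfl
  have h7 : ((T i).card : ℝ) ≤ (((B i).card / ⌊D⌋₊ + 1 : ℕ) : ℝ) := by
    rw [h4]
    by_cases hr : ∃ r : ℕ, (r : ℝ) = g i
    · obtain ⟨r, hr⟩ := hr
      have h8 : ((B i).filter fun y => (rk (Θ i) y : ℝ) = g i) =
          (B i).filter fun y => rk (Θ i) y = r := by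
        refine Finset.filter_congr fun y _ => ?_
        rw [← hr]
        exact Nat.cast_inj
      rw [h8]
      exact_mod_cast hΘ i hi' r
    · have h8 : ((B i).filter fun y => (rk (Θ i) y : ℝ) = g i) = ∅ := by
        rw [Finset.filter_eq_empty_iff]
        intro y _ hy
        exact hr ⟨rk (Θ i) y, hy⟩
      rw [h8, Finset.card_empty, Nat.cast_zero]
      exact Nat.cast_nonneg _
  refine h7.trans ?_
  rw [Nat.cast_add, Nat.cast_one]
  have h9 : (((B i).card / ⌊D⌋₊ : ℕ) : ℝ) ≤ ((B i).card : ℝ) / (⌊D⌋₊ : ℝ) := Nat.cast_div_le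
  have h10 : ((B i).card : ℝ) / (⌊D⌋₊ : ℝ) ≤ 2 * ((B i).card : ℝ) / D := by
    rw [div_le_div_iff₀ hfl0 hD0]
    have h11 : (0 : ℝ) ≤ ((B i).card : ℝ) := Nat.cast_nonneg _
    nlinarith
  have h12 : 1 ≤ ((B i).card : ℝ) / D := (one_le_div hD0).2 hN
  have h13 : 3 * ((B i).card : ℝ) / D = 2 * ((B i).card : ℝ) / D + ((B i).card : ℝ) / D := by ring
  rw [h13]
  linarith

/-- the number of cells -/
private theorem core_cells (e x K' Pr s : ℕ) (D : ℝ) (hD : 1 ≤ D)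
    (hs : (s : ℝ) ≤ 2 * e * D) :
    ((K' * Pr * (s + 1) ^ (e - x) : ℕ) : ℝ) ≤
      ((K' : ℝ) + 1) * (2 * e + 1) ^ e * ((Pr : ℝ) * D ^ (e - x)) := by
  have e0 : (0 : ℝ) ≤ e := Nat.cast_nonneg e
  have h1 : ((s : ℝ) + 1) ≤ (2 * e + 1) * D := by nlinarith
  have h2 : ((s : ℝ) + 1) ^ (e - x) ≤ ((2 * e + 1) * D) ^ (e - x) :=
    pow_le_pow_left₀ (by positivity) h1 _
  rw [mul_pow] at h2
  have h3 : (2 * (e : ℝ) + 1) ^ (e - x) ≤ (2 * e + 1) ^ e :=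
    pow_le_pow_right₀ (by linarith) (Nat.sub_le e x)
  have hD' : 0 ≤ D ^ (e - x) := by positivity
  have h4 : ((s : ℝ) + 1) ^ (e - x) ≤ (2 * (e : ℝ) + 1) ^ e * D ^ (e - x) :=
    h2.trans (mul_le_mul_of_nonneg_right h3 hD')
  push_cast
  have h5 : (K' : ℝ) * Pr * (s + 1) ^ (e - x) ≤
      (K' : ℝ) * Pr * ((2 * (e : ℝ) + 1) ^ e * D ^ (e - x)) :=
    mul_le_mul_of_nonneg_left h4 (by positivity)
  refine h5.trans ?_
  have h6 : 0 ≤ (2 * (e : ℝ) + 1) ^ e * ((Pr : ℝ) * D ^ (e - x)) := by positivity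
  nlinarith

private theorem core_M {Kv M R W K4 K a c d m t : ℝ} (hKv : 0 ≤ Kv) (hM : 0 ≤ M) (hK4 : 0 ≤ K4)
    (ha : 0 ≤ a) (ht : 0 ≤ t) (h1 : R * W ≤ K4 * (a * d)) (h2 : M * d ≤ t * c)
    (h3 : a * c ≤ K * m) : M * (Kv * W) * R ≤ Kv * t * K4 * K * m := by
  have e1 : M * (Kv * W) * R = (M * Kv) * (R * W) := by ring
  have h4 : (M * Kv) * (R * W) ≤ (M * Kv) * (K4 * (a * d)) :=
    mul_le_mul_of_nonneg_left h1 (mul_nonneg hM hKv)
  have e2 : (M * Kv) * (K4 * (a * d)) = (Kv * K4 * a) * (M * d) := by ring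
  have h5 : (Kv * K4 * a) * (M * d) ≤ (Kv * K4 * a) * (t * c) :=
    mul_le_mul_of_nonneg_left h2 (mul_nonneg (mul_nonneg hKv hK4) ha)
  have e3 : (Kv * K4 * a) * (t * c) = (Kv * K4 * t) * (a * c) := by ring
  have h6 : (Kv * K4 * t) * (a * c) ≤ (Kv * K4 * t) * (K * m) :=
    mul_le_mul_of_nonneg_left h3 (mul_nonneg (mul_nonneg hKv hK4) ht)
  have e4 : (Kv * K4 * t) * (K * m) = Kv * t * K4 * K * m := by ring
  rw [e1]
  rw [e2] at h4
  rw [e3] at h5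
  rw [e4] at h6
  exact h4.trans (h5.trans h6)

theorem core (e k C K K3 K4 : ℕ) (he : 1 ≤ e) (hk : 2 ≤ k) (hC : 1 ≤ C) (hK : 1 ≤ K)
    (hK3 : 1 ≤ K3) (hK4 : 1 ≤ K4) :
    ∃ A : ℝ, 0 < A ∧ ∀ (B : Fin (2 * e) → Finset ℝ) (P : Finset (Fin (2 * e) → ℝ))
      (F : Finset (Set (Fin (2 * e) → ℝ))),
      Admissible e k C F → P ⊆ Fintype.piFinset B → (∏ i, (B i).card) ≤ K * P.card →
      P.Nonempty → F.Nonempty →
      ∀ E : Finset ((Fin (2 * e) → ℝ) × Set (Fin (2 * e) → ℝ)), E ⊆ P ×ˢ F →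
      (∀ q ∈ E, q.1 ∈ q.2) →
      ∀ (R D : ℝ), R = ((P.card : ℝ) ^ k / (F.card : ℝ)) ^ ((1 : ℝ) / (2 * k - 1)) → 1 ≤ D →
      ∀ J X' : Finset (Fin (2 * e)), X' ⊆ J → X'.card ≤ e →
      (∀ i, i ∈ J ↔ ((B i).card : ℝ) < D) →
      (∀ q ∈ E, (∃ X, X' ⊆ X ∧ IsB (tan C q.2 q.1) X) ∧
        (∀ v ∈ tan C q.2 q.1, (∀ i ∈ X', v i = 0) → ∀ j ∈ J, v j = 0)) →
      (∏ i ∈ X', ((B i).card : ℝ)) * D ^ (e - X'.card) ≤ K3 * R →
      R * ((∏ i ∈ X', ((B i).card : ℝ)) * D ^ (e - X'.card)) ≤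
        K4 * ((∏ i ∈ J, ((B i).card : ℝ)) * D ^ (2 * e - J.card)) →
      (E.card : ℝ) ≤ A * ((P.card : ℝ) ^ ((k : ℝ) / (2 * k - 1)) *
        (F.card : ℝ) ^ ((2 * k - 2 : ℝ) / (2 * k - 1))) := by
  classical
  obtain ⟨K', hK'⟩ := cells_T e C hC
  obtain ⟨Kv, hKv⟩ : ∃ x : ℝ, x = ((K' : ℝ) + 1) * (2 * e + 1) ^ e := ⟨_, rfl⟩
  have hKv0 : 0 < Kv := by rw [hKv]; positivity
  have hK3' : (1 : ℝ) ≤ K3 := by exact_mod_cast hK3
  have hK4' : (1 : ℝ) ≤ K4 := by exact_mod_cast hK4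
  have hKK' : (1 : ℝ) ≤ K := by exact_mod_cast hK
  have hk' : (2 : ℝ) ≤ k := by exact_mod_cast hk
  have hC' : (1 : ℝ) ≤ C := by exact_mod_cast hC
  obtain ⟨K1, hK1⟩ : ∃ x : ℝ, x = Kv * K3 := ⟨_, rfl⟩
  obtain ⟨K2, hK2⟩ : ∃ x : ℝ, x = Kv * 3 ^ (2 * e) * K4 * K := ⟨_, rfl⟩
  have hK10 : 0 < K1 := by rw [hK1]; positivity
  have hK20 : 0 < K2 := by rw [hK2]; positivity
  refine ⟨k * K1 + C * k * (K2 / K1) ^ (k - 1), by positivity, ?_⟩
  intro B P F hadm hPB hdense hPne hFne E hEsub hEinc R D hR hD J X' hX'J hX'e hJ htan hα hβ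
  have hm : (1 : ℝ) ≤ P.card := by exact_mod_cast hPne.card_pos
  have hn : (1 : ℝ) ≤ F.card := by exact_mod_cast hFne.card_pos
  have hD0 : 0 < D := lt_of_lt_of_le one_pos hD
  have hN1 : ∀ i, (1 : ℝ) ≤ ((B i).card : ℝ) := by
    intro i
    obtain ⟨p, hp⟩ := hPne
    have h1 : p i ∈ B i := Fintype.mem_piFinset.1 (hPB hp) i
    exact_mod_cast Finset.card_pos.2 ⟨_, h1⟩
  have hfl : 1 ≤ ⌊D⌋₊ := (Nat.one_le_floor_iff D).2 hD
  choose Θ0 hΘ1 hΘ2 hΘ3 using fun i => split (B i) ⌊D⌋₊ hfl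
  set Θ : Fin (2 * e) → Finset ℝ := fun i => if i ∈ J then ∅ else Θ0 i with hΘ
  have hΘJ : ∀ i, i ∈ J → Θ i = ∅ := fun i hi => if_pos hi
  have hΘJ' : ∀ i, i ∉ J → Θ i = Θ0 i := fun i hi => if_neg hi
  obtain ⟨W, hW⟩ : ∃ x : ℝ, x = (∏ i ∈ X', ((B i).card : ℝ)) * D ^ (e - X'.card) := ⟨_, rfl⟩
  rw [← hW] at hα hβ
  have hX0 : 0 < ∏ i ∈ X', ((B i).card : ℝ) :=
    Finset.prod_pos fun i _ => lt_of_lt_of_le one_pos (hN1 i)
  have hW0 : 0 < W := by rw [hW]; exact mul_pos hX0 (pow_pos hD0 _)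
  obtain ⟨v, hv⟩ : ∃ x : ℝ, x = Kv * W := ⟨_, rfl⟩
  have hv0 : 0 < v := by rw [hv]; exact mul_pos hKv0 hW0
  obtain ⟨M, hMdef⟩ : ∃ x : ℝ, x = ∏ i ∈ Jᶜ, (3 * ((B i).card : ℝ) / D) := ⟨_, rfl⟩
  have hM0 : 0 ≤ M := by rw [hMdef]; exact Finset.prod_nonneg fun i _ => by positivity
  have hR0 : 0 ≤ R := by rw [hR]; positivity
  have hvR : v ≤ K1 * R := by
    rw [hv, hK1, mul_assoc]
    exact mul_le_mul_of_nonneg_left hα hKv0.le
  have hMlab : ∀ g, ((P.filter fun p => lab J Θ p = g).card : ℝ) ≤ M := by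
    intro g
    rw [hMdef]
    refine core_lab B Θ P hPB J D hD (fun i hi => ?_) (fun i hi r => ?_) g
    · exact not_lt.1 fun hlt => hi ((hJ i).2 hlt)
    · rw [hΘJ' i hi]
      exact hΘ3 i r
  have hcells : ∀ S ∈ F,
      (((P.filter fun p => (p, S) ∈ E).image (lab J Θ)).card : ℝ) ≤ v := by
    intro S hS
    have h1 := hK' S (hadm.surf S hS) B Θ J X' hX'J (P.filter fun p => (p, S) ∈ E) (by
      intro p hp
      rw [Finset.mem_filter] at hp
      have hpB : ∀ i, p i ∈ B i := fun i => Fintype.mem_piFinset.1 (hPB hp.1) i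
      refine ⟨hEinc _ hp.2, hpB, fun i hi => ?_, (htan _ hp.2).1, (htan _ hp.2).2⟩
      by_cases hiJ : i ∈ J
      · rw [hΘJ i hiJ] at hi
        exact Finset.notMem_empty _ hi
      · rw [hΘJ' i hiJ] at hi
        exact hΘ2 i _ hi (hpB i))
    have h2 : (((∑ i ∈ Jᶜ, (Θ i).card : ℕ)) : ℝ) ≤ 2 * e * D := by
      have h3 : ∑ i ∈ Jᶜ, (Θ i).card ≤ ∑ _i ∈ Jᶜ, ⌊D⌋₊ := by
        refine Finset.sum_le_sum fun i hi => ?_
        rw [hΘJ' i (Finset.mem_compl.1 hi)]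
        exact hΘ1 i
      rw [Finset.sum_const, smul_eq_mul] at h3
      have h4 : Jᶜ.card ≤ 2 * e := by
        have := Finset.card_le_univ Jᶜ
        rwa [Fintype.card_fin] at this
      have h5 : ((∑ i ∈ Jᶜ, (Θ i).card : ℕ) : ℝ) ≤ ((Jᶜ.card * ⌊D⌋₊ : ℕ) : ℝ) := by
        exact_mod_cast h3
      refine h5.trans ?_
      rw [Nat.cast_mul]
      have h6 : (⌊D⌋₊ : ℝ) ≤ D := Nat.floor_le hD0.le
      have h7 : ((Jᶜ.card : ℕ) : ℝ) ≤ 2 * e := by exact_mod_cast h4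
      exact mul_le_mul h7 h6 (Nat.cast_nonneg _) (by positivity)
    have h3 := core_cells e X'.card K' (∏ i ∈ X', (B i).card) _ D hD h2
    have h4 : (((P.filter fun p => (p, S) ∈ E).image (lab J Θ)).card : ℝ) ≤
        ((K' * (∏ i ∈ X', (B i).card) * (∑ i ∈ Jᶜ, (Θ i).card + 1) ^ (e - X'.card) : ℕ) : ℝ) := by
      exact_mod_cast h1
    refine (h4.trans h3).trans (le_of_eq ?_)
    rw [hv, hW, hKv]
    push_cast
    rfl
  have hdeg : ∀ Q : Finset (Fin (2 * e) → ℝ), Q.card = k →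
      (F.filter fun s => ∀ q ∈ Q, (q, s) ∈ E).card ≤ C := by
    intro Q hQ
    refine le_trans (Finset.card_le_card ?_) (hadm.deg Q hQ)
    intro S hS
    rw [Finset.mem_filter] at hS ⊢
    exact ⟨hS.1, fun q hq => hEinc _ (hS.2 q hq)⟩
  have hMvR : M * v * R ≤ K2 * P.card := by
    have hJc : Jᶜ.card = 2 * e - J.card := by
      rw [Finset.card_compl, Fintype.card_fin]
    have hNJ : 0 ≤ ∏ i ∈ J, ((B i).card : ℝ) := Finset.prod_nonneg fun i _ => Nat.cast_nonneg _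
    have hNJc : 0 ≤ ∏ i ∈ Jᶜ, ((B i).card : ℝ) := Finset.prod_nonneg fun i _ => Nat.cast_nonneg _
    have hM2 : M * D ^ (2 * e - J.card) ≤ 3 ^ (2 * e) * ∏ i ∈ Jᶜ, ((B i).card : ℝ) := by
      have hM1 : M = 3 ^ Jᶜ.card * (∏ i ∈ Jᶜ, ((B i).card : ℝ)) / D ^ (2 * e - J.card) := by
        rw [hMdef, Finset.prod_div_distrib, Finset.prod_mul_distrib, Finset.prod_const,
          Finset.prod_const, hJc]
      rw [hM1, div_mul_cancel₀ _ (pow_pos hD0 _).ne']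
      refine mul_le_mul_of_nonneg_right ?_ hNJc
      refine pow_le_pow_right₀ (by norm_num) ?_
      rw [hJc]
      exact Nat.sub_le _ _
    have h6 : (∏ i ∈ J, ((B i).card : ℝ)) * ∏ i ∈ Jᶜ, ((B i).card : ℝ) ≤ K * P.card := by
      rw [Finset.prod_mul_prod_compl]
      exact_mod_cast hdense
    rw [hv, hK2]
    exact core_M hKv0.le hM0 (by linarith) hNJ (pow_nonneg (by norm_num) _) hβ hM2 h6
  obtain ⟨hl, hfin⟩ := assemble k C hk P.card F.card M v R K1 K2 hm hn hv0 hM0 hK10 hR hvR hMvR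
  exact (kst_cells k C hk P F E hEsub hdeg (lab J Θ) M v hMlab hcells _ hl).trans hfin

end HDI
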