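import Mathlib
import Pool.Agent.HDI.Perp

/-!
# HDI-Exch: exchange property of coordinate sets of minimal weight

PLAN. Suppose `v ∈ U`, `v i = 0` for all `i ∈ X` with `ω i < D`, and `v j ≠ 0` for some `j` with
`ω j < D`. Then `j ∉ X`. The coordinates in `X` are a basis of the dual of `U` (`IsB`: the
restriction `U → (X → ℝ)` is injective between spaces of the same dimension, so bijective):
there are `c : X → ℝ` with `w j = ∑ x ∈ X, c x * w x` for all `w ∈ U`. Applied to `v`:
`0 ≠ v j = ∑ x ∈ X, c x * v x`, so there is `x ∈ X` with `c x ≠ 0` and `v x ≠ 0`; then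
`¬ ω x < D`, so `ω x = D`. Put `Y = insert j (X.erase x)`: it has the same cardinality and
`IsB U Y`: if `w ∈ U` vanishes on `Y` then `0 = w j = c x * w x` (the other terms vanish), so
`w x = 0`, `w` vanishes on `X`, `w = 0`. But
`∏ i ∈ Y, ω i = ω j / ω x * ∏ i ∈ X, ω i < ∏ i ∈ X, ω i`, contradicting minimality. -/

namespace HDI

theorem exch {n : ℕ} (U : Submodule ℝ (Fin n → ℝ)) (D : ℝ) (ω : Fin n → ℝ)
    (hω : ∀ i, 0 < ω i) (hD : ∀ i, ω i ≤ D) (X : Finset (Fin n)) (hX : IsB U X)
    (hmin : ∀ Y, IsB U Y → ∏ i ∈ X, ω i ≤ ∏ i ∈ Y, ω i) :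
    ∀ v ∈ U, (∀ i ∈ X, ω i < D → v i = 0) → ∀ j, ω j < D → v j = 0 := by
  classical
  intro v hv hv0 j hj
  by_contra hne
  have hjX : j ∉ X := fun h => hne (hv0 j h hj)
  let f : U →ₗ[ℝ] (X → ℝ) :=
    (LinearMap.funLeft ℝ ℝ (Subtype.val : X → Fin n)).comp U.subtype
  have hf : ∀ (w : U) (x : X), f w x = (w : Fin n → ℝ) x := fun w x => rfl
  have hinj : Function.Injective f := by
    rw [← LinearMap.ker_eq_bot, LinearMap.ker_eq_bot']
    intro w hw
    have h1 := hX.2 w w.2 (fun i hi => by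
      have h2 := congrFun hw ⟨i, hi⟩
      rw [hf] at h2
      exact h2)
    exact Subtype.ext h1
  have hfr : Module.finrank ℝ U = Module.finrank ℝ (X → ℝ) := by
    rw [Module.finrank_fintype_fun_eq_card, Fintype.card_coe, hX.1]
  have hsurj : Function.Surjective f :=
    (LinearMap.injective_iff_surjective_of_finrank_eq_finrank hfr).1 hinj
  have hex : ∀ x ∈ X, ∃ e ∈ U, e x = 1 ∧ ∀ y ∈ X, y ≠ x → e y = 0 := by
    intro x hx
    obtain ⟨w, hw⟩ := hsurj (Pi.single ⟨x, hx⟩ 1)
    refine ⟨w, w.2, ?_, ?_⟩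
    · have h2 := congrFun hw ⟨x, hx⟩
      rw [hf, Pi.single_eq_same] at h2
      exact h2
    · intro y hy hyx
      have h2 := congrFun hw ⟨y, hy⟩
      rw [hf, Pi.single_eq_of_ne (fun h => hyx (Subtype.ext_iff.1 h))] at h2
      exact h2
  choose! e heU he1 he0 using hex
  have hvsum : v = ∑ x ∈ X, v x • e x := by
    have h3 : v - ∑ x ∈ X, v x • e x = 0 := by
      apply hX.2 _ (U.sub_mem hv (U.sum_mem fun x hx => U.smul_mem _ (heU x hx)))
      intro i hi
      rw [Pi.sub_apply, Finset.sum_apply, Finset.sum_eq_single i]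
      · rw [Pi.smul_apply, he1 i hi, smul_eq_mul, mul_one, sub_self]
      · intro b hb hbi
        rw [Pi.smul_apply, he0 b hb i hi (Ne.symm hbi), smul_zero]
      · intro h
        exact absurd hi h
    exact sub_eq_zero.1 h3
  have hvj : ∑ x ∈ X, v x * e x j ≠ 0 := by
    intro h
    apply hne
    rw [hvsum, Finset.sum_apply]
    simpa only [Pi.smul_apply, smul_eq_mul] using h
  obtain ⟨x, hx, hxne⟩ := Finset.exists_ne_zero_of_sum_ne_zero hvj
  have hvx : v x ≠ 0 := left_ne_zero_of_mul hxne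
  have hexj : e x j ≠ 0 := right_ne_zero_of_mul hxne
  have hωx : ω x = D := by
    by_contra h
    exact hvx (hv0 x hx (lt_of_le_of_ne (hD x) h))
  have hjx : j ∉ X.erase x := fun h => hjX (Finset.mem_of_mem_erase h)
  have hY : IsB U (insert j (X.erase x)) := by
    refine ⟨?_, ?_⟩
    · rw [Finset.card_insert_of_notMem hjx, Finset.card_erase_of_mem hx, ← hX.1]
      have : 0 < X.card := Finset.card_pos.2 ⟨x, hx⟩
      omega
    · intro w hw hw0
      have h4 : w - w x • e x = 0 := by
        apply hX.2 _ (U.sub_mem hw (U.smul_mem _ (heU x hx)))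
        intro i hi
        by_cases hix : i = x
        · rw [hix, Pi.sub_apply, Pi.smul_apply, he1 x hx, smul_eq_mul, mul_one, sub_self]
        · rw [Pi.sub_apply, Pi.smul_apply, he0 x hx i hi hix, smul_zero, sub_zero]
          exact hw0 i (Finset.mem_insert_of_mem (Finset.mem_erase.2 ⟨hix, hi⟩))
      have h5 : w = w x • e x := sub_eq_zero.1 h4
      have h6 : w j = 0 := hw0 j (Finset.mem_insert_self _ _)
      have h7 : w x * e x j = 0 := by
        have h8 := congrFun h5 j
        rw [Pi.smul_apply, smul_eq_mul, h6] at h8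
        exact h8.symm
      have h9 : w x = 0 := by
        rcases mul_eq_zero.1 h7 with h | h
        · exact h
        · exact absurd h hexj
      rw [h5, h9, zero_smul]
  have hm := hmin _ hY
  rw [Finset.prod_insert hjx, ← Finset.mul_prod_erase X ω hx, hωx] at hm
  have hpos : 0 < ∏ i ∈ X.erase x, ω i := Finset.prod_pos fun i _ => hω i
  nlinarith [mul_lt_mul_of_pos_right hj hpos]

end HDI
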