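import Mathlib
import Pool.Agent.HDI.Defs
import Pool.Agent.HDI.Kst

/-!
# HDI-Triv: the trivial ranges

`inc_le_one` is `kst_cells` with one cell. For `inc_le_two` let `d p` be the number of surfaces through `p`;
`inc = ∑ d p ≤ ∑ (1 + (d p * d p - d p))`, and `∑ (d p * d p - d p)` counts triples (`p`, `S ≠ T` through `p`):
for each of the `≤ n ^ 2` ordered pairs at most `C` points. -/

namespace HDI

theorem inc_le_one {e k C : ℕ} (hk : 2 ≤ k) (P : Finset (Fin (2 * e) → ℝ))
    (F : Finset (Set (Fin (2 * e) → ℝ))) (hF : Admissible e k C F) :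
    (inc P F : ℝ) ≤ k * F.card + C * k * (P.card : ℝ) ^ k := by
  classical
  have hk0 : (0 : ℝ) < k := by exact_mod_cast (by omega : 0 < k)
  have h1 := kst_cells k C hk P F ((P ×ˢ F).filter fun q => q.1 ∈ q.2) (Finset.filter_subset _ _)
    (fun Q hQ => by
      refine le_trans (Finset.card_le_card ?_) (hF.deg Q hQ)
      intro s hs
      rw [Finset.mem_filter] at hs ⊢
      refine ⟨hs.1, fun q hq => ?_⟩
      exact (Finset.mem_filter.1 (hs.2 q (Finset.mem_coe.1 hq))).2)
    (fun _ => ()) (P.card : ℝ) 1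
    (fun g => by exact_mod_cast Finset.card_le_card (Finset.filter_subset _ _))
    (fun s _ => by
      have h2 := Finset.card_le_card (Finset.subset_univ
        ((P.filter fun p => (p, s) ∈ ((P ×ˢ F).filter fun q => q.1 ∈ q.2)).image fun _ => ()))
      have h3 : (Finset.univ : Finset Unit).card = 1 := rfl
      rw [h3] at h2
      exact_mod_cast h2)
    (k : ℝ) le_rfl
  have h4 : (k : ℝ) * (P.card : ℝ) / k = P.card := by field_simp
  rw [h4, mul_one, mul_assoc ((C : ℝ) * k), ← pow_succ] at h1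
  have h5 : k - 1 + 1 = k := by omega
  rw [h5] at h1
  unfold inc
  exact_mod_cast h1

theorem inc_le_two {e k C : ℕ} (P : Finset (Fin (2 * e) → ℝ))
    (F : Finset (Set (Fin (2 * e) → ℝ))) (hF : Admissible e k C F) :
    (inc P F : ℝ) ≤ P.card + C * (F.card : ℝ) ^ 2 := by
  classical
  have h1 : inc P F = ∑ p ∈ P, (F.filter fun S => p ∈ S).card := by
    unfold inc
    rw [Finset.card_filter, Finset.sum_product]
    refine Finset.sum_congr rfl fun p _ => ?_
    rw [Finset.card_filter]
  have h2 : ∀ p ∈ P, (F.filter fun S => p ∈ S).card ≤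
      1 + (F.offDiag.filter fun x => p ∈ x.1 ∧ p ∈ x.2).card := by
    intro p _
    have h3 : F.offDiag.filter (fun x => p ∈ x.1 ∧ p ∈ x.2) = (F.filter fun S => p ∈ S).offDiag := by
      ext x
      simp only [Finset.mem_filter, Finset.mem_offDiag]
      tauto
    rw [h3, Finset.offDiag_card]
    rcases Nat.lt_or_ge (F.filter fun S => p ∈ S).card 2 with h4 | h4
    · omega
    · have h5 : (F.filter fun S => p ∈ S).card * 2 ≤
          (F.filter fun S => p ∈ S).card * (F.filter fun S => p ∈ S).card := Nat.mul_le_mul_left _ h4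
      omega
  have h6 : ∑ p ∈ P, (F.offDiag.filter fun x => p ∈ x.1 ∧ p ∈ x.2).card =
      ∑ x ∈ F.offDiag, (P.filter fun p => p ∈ x.1 ∧ p ∈ x.2).card :=
    Finset.sum_card_bipartiteAbove_eq_sum_card_bipartiteBelow
      (fun (p : Fin (2 * e) → ℝ) (x : Set (Fin (2 * e) → ℝ) × Set (Fin (2 * e) → ℝ)) =>
        p ∈ x.1 ∧ p ∈ x.2)
  have h7 : ∀ x ∈ F.offDiag, (P.filter fun p => p ∈ x.1 ∧ p ∈ x.2).card ≤ C := by
    intro x hx
    rw [Finset.mem_offDiag] at hx
    have h8 := hF.inter x.1 hx.1 x.2 hx.2.1 hx.2.2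
    have h9 : ((P.filter fun p => p ∈ x.1 ∧ p ∈ x.2 : Finset (Fin (2 * e) → ℝ)) :
        Set (Fin (2 * e) → ℝ)) ⊆ x.1 ∩ x.2 := by
      intro p hp
      exact (Finset.mem_filter.1 (Finset.mem_coe.1 hp)).2
    have h10 := (Set.encard_le_encard h9).trans h8
    rw [Set.encard_coe_eq_coe_finsetCard] at h10
    exact_mod_cast h10
  have h11 : inc P F ≤ P.card + C * F.card ^ 2 := by
    calc inc P F = ∑ p ∈ P, (F.filter fun S => p ∈ S).card := h1
      _ ≤ ∑ p ∈ P, (1 + (F.offDiag.filter fun x => p ∈ x.1 ∧ p ∈ x.2).card) := Finset.sum_le_sum h2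
      _ = P.card + ∑ x ∈ F.offDiag, (P.filter fun p => p ∈ x.1 ∧ p ∈ x.2).card := by
          rw [Finset.sum_add_distrib, h6, Finset.sum_const, smul_eq_mul, mul_one]
      _ ≤ P.card + ∑ x ∈ F.offDiag, C := Nat.add_le_add_left (Finset.sum_le_sum h7) _
      _ = P.card + F.offDiag.card * C := by rw [Finset.sum_const, smul_eq_mul]
      _ ≤ P.card + C * F.card ^ 2 := by
          refine Nat.add_le_add_left ?_ _
          rw [mul_comm]
          refine Nat.mul_le_mul_left _ ?_
          rw [Finset.offDiag_card, sq]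
          exact Nat.sub_le _ _
  exact_mod_cast h11

end HDI
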