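import Mathlib
import Pool.Agent.HDI.Core
import Pool.Agent.HDI.Triv
import Pool.Agent.HDI.Perp

/-!
# HDI-PartA: balanced Cartesian products

In the trivial ranges `inc_le_one`, `inc_le_two`; otherwise `core` with `J = ∅` and `D` about `R ^ (1 / e)`.
-/

namespace HDI

theorem partA (e k C K : ℕ) (he : 1 ≤ e) (hk : 2 ≤ k) (hC : 1 ≤ C) (hK : 1 ≤ K) :
    ∃ A : ℝ, 0 < A ∧ ∀ (B : Fin (2 * e) → Finset ℝ) (P : Finset (Fin (2 * e) → ℝ))
      (F : Finset (Set (Fin (2 * e) → ℝ))),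
      Admissible e k C F → P ⊆ Fintype.piFinset B → (∏ i, (B i).card) ≤ K * P.card →
      (∀ i j, (B i).card ≤ K * (B j).card) →
      (inc P F : ℝ) ≤ A * ((P.card : ℝ) ^ ((k : ℝ) / (2 * k - 1)) *
        (F.card : ℝ) ^ ((2 * k - 2 : ℝ) / (2 * k - 1)) + P.card + F.card) := by
  classical
  obtain ⟨A0, hA0, hcore⟩ := core e k C K 1 (K ^ e) he hk hC hK le_rfl (Nat.one_le_pow _ _ hK)
  refine ⟨A0 + (k + C * k) + (1 + C), by positivity, ?_⟩
  intro B P F hF hP hprod hbal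
  have hm0 : (0 : ℝ) ≤ P.card := Nat.cast_nonneg _
  have hn0 : (0 : ℝ) ≤ F.card := Nat.cast_nonneg _
  have hT0 : 0 ≤ (P.card : ℝ) ^ ((k : ℝ) / (2 * k - 1)) *
      (F.card : ℝ) ^ ((2 * k - 2 : ℝ) / (2 * k - 1)) := by positivity
  have hk0 : (0 : ℝ) ≤ k := Nat.cast_nonneg _
  have hC0 : (0 : ℝ) ≤ C := Nat.cast_nonneg _
  have hCk : (0 : ℝ) ≤ C * k := mul_nonneg hC0 hk0
  by_cases hPe : P = ∅
  · have h0 : inc P F = 0 := by
      rw [inc, hPe, Finset.empty_product, Finset.filter_empty, Finset.card_empty]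
    rw [h0, Nat.cast_zero]
    positivity
  by_cases hFe : F = ∅
  · have h0 : inc P F = 0 := by
      rw [inc, hFe, Finset.product_empty, Finset.filter_empty, Finset.card_empty]
    rw [h0, Nat.cast_zero]
    positivity
  have hPn : P.Nonempty := Finset.nonempty_iff_ne_empty.2 hPe
  have hFn : F.Nonempty := Finset.nonempty_iff_ne_empty.2 hFe
  have hm1 : (1 : ℝ) ≤ P.card := by exact_mod_cast hPn.card_pos
  have hn1 : (1 : ℝ) ≤ F.card := by exact_mod_cast hFn.card_pos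
  obtain ⟨T, hT⟩ : ∃ T : ℝ, T = (P.card : ℝ) ^ ((k : ℝ) / (2 * k - 1)) *
      (F.card : ℝ) ^ ((2 * k - 2 : ℝ) / (2 * k - 1)) := ⟨_, rfl⟩
  rw [← hT] at hT0 ⊢
  by_cases h1 : (P.card : ℝ) ^ k < F.card
  · have h2 := inc_le_one hk P F hF
    have h3 : (C : ℝ) * k * (P.card : ℝ) ^ k ≤ C * k * F.card :=
      mul_le_mul_of_nonneg_left h1.le hCk
    have h4 : 0 ≤ A0 * (T + P.card + F.card) := by positivity
    have h5 : 0 ≤ (1 + (C : ℝ)) * (T + P.card + F.card) := by positivity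
    have h6 : 0 ≤ (k + (C : ℝ) * k) * (T + P.card) := by positivity
    nlinarith
  by_cases h2 : (F.card : ℝ) ^ 2 < P.card
  · have h3 := inc_le_two (e := e) (k := k) (C := C) P F hF
    have h4 : (C : ℝ) * (F.card : ℝ) ^ 2 ≤ C * P.card := mul_le_mul_of_nonneg_left h2.le hC0
    have h5 : 0 ≤ A0 * (T + P.card + F.card) := by positivity
    have h6 : 0 ≤ (k + (C : ℝ) * k) * (T + P.card + F.card) := by positivity
    have h7 : 0 ≤ (1 + (C : ℝ)) * (T + F.card) := by positivity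
    nlinarith
  rw [not_lt] at h1 h2
  obtain ⟨R, hR⟩ : ∃ R : ℝ, R = ((P.card : ℝ) ^ k / (F.card : ℝ)) ^ ((1 : ℝ) / (2 * k - 1)) :=
    ⟨_, rfl⟩
  have hR1 : 1 ≤ R := by
    rw [hR]
    exact one_le_R k hk _ _ hm1 hn1 h1
  have hR2 : R ^ 2 ≤ P.card := by
    rw [hR]
    exact R_sq_le k hk _ _ hm1 hn1 h2
  have hR0 : 0 ≤ R := zero_le_one.trans hR1
  have hK1 : (1 : ℝ) ≤ K := by exact_mod_cast hK
  have hK0 : (0 : ℝ) < K := by linarith
  have he0 : e ≠ 0 := by omega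
  obtain ⟨x, hx⟩ : ∃ x : ℝ, x = R ^ ((e : ℝ)⁻¹) / K := ⟨_, rfl⟩
  have hx0 : 0 ≤ x := by
    rw [hx]
    positivity
  have hxe : x ^ e = R / (K : ℝ) ^ e := by
    rw [hx, div_pow, Real.rpow_inv_natCast_pow hR0 he0]
  have hxN : ∀ i, x ≤ ((B i).card : ℝ) := by
    intro i
    have e1 : P.card ≤ ∏ j, (B j).card := by
      have := Finset.card_le_card hP
      rwa [Fintype.card_piFinset] at this
    have e2 : ∏ j, (B j).card ≤ (K * (B i).card) ^ (2 * e) := by
      have := Finset.prod_le_pow_card (Finset.univ : Finset (Fin (2 * e)))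
        (fun j => (B j).card) (K * (B i).card) (fun j _ => hbal j i)
      rwa [Finset.card_univ, Fintype.card_fin] at this
    have e3 : (P.card : ℝ) ≤ ((K : ℝ) * (B i).card) ^ (2 * e) := by exact_mod_cast e1.trans e2
    have e4 : R ^ 2 ≤ (((K : ℝ) * (B i).card) ^ e) ^ 2 := by
      rw [← pow_mul, mul_comm e 2]
      exact hR2.trans e3
    have hKB : 0 ≤ (K : ℝ) * (B i).card := by positivity
    have e5 : R ≤ ((K : ℝ) * (B i).card) ^ e :=
      (pow_le_pow_iff_left₀ hR0 (pow_nonneg hKB e) two_ne_zero).1 e4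
    have e6 : R ^ ((e : ℝ)⁻¹) ≤ (K : ℝ) * (B i).card := by
      rw [← pow_le_pow_iff_left₀ (Real.rpow_nonneg hR0 _) hKB he0,
        Real.rpow_inv_natCast_pow hR0 he0]
      exact e5
    rw [hx, div_le_iff₀ hK0, mul_comm]
    exact e6
  have hN1 : ∀ i, (1 : ℝ) ≤ ((B i).card : ℝ) := by
    intro i
    obtain ⟨p, hp⟩ := hPn
    have := Finset.card_pos.2 ⟨p i, Fintype.mem_piFinset.1 (hP hp) i⟩
    exact_mod_cast this
  have hDe : (max 1 x) ^ e ≤ R := by
    rcases le_total 1 x with h3 | h3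
    · rw [max_eq_right h3, hxe]
      exact div_le_self hR0 (one_le_pow₀ hK1)
    · rw [max_eq_left h3, one_pow]
      exact hR1
  have hRD : R ≤ (K : ℝ) ^ e * (max 1 x) ^ e := by
    have h3 : x ^ e ≤ (max 1 x) ^ e := pow_le_pow_left₀ hx0 (le_max_right _ _) e
    rw [hxe, div_le_iff₀ (pow_pos hK0 e)] at h3
    linarith
  have hD0 : 0 ≤ (max 1 x) ^ e := pow_nonneg (zero_le_one.trans (le_max_left _ _)) e
  have h3 := hcore B P F hF hP hprod hPn hFn ((P ×ˢ F).filter fun q => q.1 ∈ q.2)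
    (Finset.filter_subset _ _) (fun q hq => (Finset.mem_filter.1 hq).2) R (max 1 x) hR
    (le_max_left _ _) ∅ ∅ (Finset.Subset.refl _) (by simp)
    (fun i => ⟨fun h => absurd h (Finset.notMem_empty i), fun h => absurd h (not_lt.2
      (max_le (hN1 i) (hxN i)))⟩)
    (fun q _ => ⟨by
      obtain ⟨X, hX⟩ := exists_isB (tan C q.2 q.1)
      exact ⟨X, Finset.empty_subset _, hX⟩, fun v _ _ j hj => absurd hj (Finset.notMem_empty j)⟩)
    (by
      simpa using hDe)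
    (by
      simp only [Finset.prod_empty, Finset.card_empty, Nat.sub_zero, one_mul, Nat.cast_pow]
      rw [two_mul, pow_add, ← mul_assoc]
      exact mul_le_mul_of_nonneg_right hRD hD0)
  have h4 : (inc P F : ℝ) ≤ A0 * T := by
    have h5 : inc P F = ((P ×ˢ F).filter fun q => q.1 ∈ q.2).card := by
      unfold inc
      congr 1
    rw [hT, h5]
    exact h3
  have h5 : 0 ≤ A0 * ((P.card : ℝ) + F.card) := by positivity
  have h6 : 0 ≤ (k + (C : ℝ) * k) * (T + P.card + F.card) := by positivity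
  have h7 : 0 ≤ (1 + (C : ℝ)) * (T + P.card + F.card) := by positivity
  nlinarith

end HDI
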