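import Mathlib
import Pool.Agent.HDI.Core
import Pool.Agent.HDI.Triv

/-!
# HDI-PartH: products in which no factor is too small

PLAN. Write `m = P.card`, `n = F.card`, `N i = (B i).card`. If `P` or `F` is empty, `inc = 0`. If
`m ^ k < n` use `inc_le_one` (`≤ (k + C k) n`). Otherwise `1 ≤ R` (`one_le_R`), where
`R = (m ^ k / n) ^ (1 / (2 k - 1))`. By hypothesis
`R ^ (2 k - 1) = m ^ k / n ≤ K * N i ^ (e (2 k - 1)) ≤ (K * N i ^ e) ^ (2 k - 1)`, so
`R ≤ K * N i ^ e`. Put `D = max 1 ((R / K) ^ (1 / e))`; then `D ≤ N i` for all `i` (`P` nonempty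
gives `1 ≤ N i`), so `J = ∅`. Apply `core` with `K3 = 1`, `K4 = K`, `X' = ∅`, `E` = all
incidences (classical): `X` from `exists_isB`; `D ^ e ≤ R` (both `1 ≤ R` and `R / K ≤ R`), and
`R * D ^ e ≤ K * D ^ (2 e)` since `R / K ≤ D ^ e`. (The degenerate range `n ^ 2 < m` needs no
separate treatment.) `A` = sum of the constants. -/

namespace HDI

theorem partH (e k C K : ℕ) (he : 1 ≤ e) (hk : 2 ≤ k) (hC : 1 ≤ C) (hK : 1 ≤ K) :
    ∃ A : ℝ, 0 < A ∧ ∀ (B : Fin (2 * e) → Finset ℝ) (P : Finset (Fin (2 * e) → ℝ))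
      (F : Finset (Set (Fin (2 * e) → ℝ))),
      Admissible e k C F → P ⊆ Fintype.piFinset B → (∏ i, (B i).card) ≤ K * P.card →
      (∀ i, P.card ^ k ≤ K * F.card * (B i).card ^ (e * (2 * k - 1))) →
      (inc P F : ℝ) ≤ A * ((P.card : ℝ) ^ ((k : ℝ) / (2 * k - 1)) *
        (F.card : ℝ) ^ ((2 * k - 2 : ℝ) / (2 * k - 1)) + P.card + F.card) := by
  classical
  obtain ⟨A1, hA1, hcore⟩ := core e k C K 1 K he hk hC hK le_rfl hK
  refine ⟨A1 + (k + C * k), by positivity, ?_⟩
  intro B P F hF hPB hdense hsize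
  set m : ℝ := (P.card : ℝ) with hm
  set n : ℝ := (F.card : ℝ) with hn
  have hm0 : 0 ≤ m := Nat.cast_nonneg _
  have hn0 : 0 ≤ n := Nat.cast_nonneg _
  have hk1 : (0 : ℝ) ≤ k := Nat.cast_nonneg _
  have hC1 : (0 : ℝ) ≤ C := Nat.cast_nonneg _
  set Y : ℝ := m ^ ((k : ℝ) / (2 * k - 1)) * n ^ ((2 * k - 2 : ℝ) / (2 * k - 1)) with hY
  have hY0 : 0 ≤ Y := mul_nonneg (Real.rpow_nonneg hm0 _) (Real.rpow_nonneg hn0 _)
  have hgen : 0 ≤ A1 * (m + n) + (k + C * k) * (Y + m) := by positivity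
  rcases P.eq_empty_or_nonempty with hP0 | hPne
  · have : inc P F = 0 := by
      rw [hP0]
      simp [inc]
    rw [this, Nat.cast_zero]
    positivity
  rcases F.eq_empty_or_nonempty with hF0 | hFne
  · have : inc P F = 0 := by
      rw [hF0]
      simp [inc]
    rw [this, Nat.cast_zero]
    positivity
  have hm1 : (1 : ℝ) ≤ m := by
    rw [hm]
    exact_mod_cast Finset.card_pos.2 hPne
  have hn1 : (1 : ℝ) ≤ n := by
    rw [hn]
    exact_mod_cast Finset.card_pos.2 hFne
  by_cases hnm : n ≤ m ^ k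
  swap
  · push Not at hnm
    have h1 := inc_le_one hk P F hF
    rw [← hm, ← hn] at h1
    have h2 : (C : ℝ) * k * m ^ k ≤ C * k * n :=
      mul_le_mul_of_nonneg_left hnm.le (by positivity)
    have h3 : (inc P F : ℝ) ≤ (k + C * k) * n := by
      calc (inc P F : ℝ) ≤ k * n + C * k * m ^ k := h1
        _ ≤ k * n + C * k * n := by linarith
        _ = (k + C * k) * n := by ring
    have h4 : (A1 + (k + C * k)) * (Y + m + n) =
        (k + C * k) * n + (A1 * Y + (A1 * (m + n) + (k + C * k) * (Y + m))) := by ring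
    rw [h4]
    have h5 : 0 ≤ A1 * Y := mul_nonneg hA1.le hY0
    linarith
  set R : ℝ := (m ^ k / n) ^ ((1 : ℝ) / (2 * k - 1)) with hR
  have hR1 : 1 ≤ R := one_le_R k hk m n hm1 hn1 hnm
  have hR0 : 0 < R := by linarith
  have hKr : (1 : ℝ) ≤ K := by exact_mod_cast hK
  have hK0 : (0 : ℝ) < K := by linarith
  have hN : ∀ i, 1 ≤ (B i).card := by
    intro i
    obtain ⟨p, hp⟩ := hPne
    exact Finset.card_pos.2 ⟨p i, Fintype.mem_piFinset.1 (hPB hp) i⟩
  have h2k : 1 ≤ 2 * k - 1 := by omega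
  have hcast : ((2 * k - 1 : ℕ) : ℝ) = 2 * k - 1 := by
    rw [Nat.cast_sub (by omega)]
    push_cast
    ring
  have hRpow : R ^ (2 * k - 1) = m ^ k / n := by
    rw [hR, ← Real.rpow_natCast, ← Real.rpow_mul (by positivity), hcast]
    have h3 : (1 : ℝ) / (2 * k - 1) * (2 * k - 1) = 1 := by
      have : (2 * k - 1 : ℝ) ≠ 0 := by
        rw [← hcast]
        exact_mod_cast (by omega : 2 * k - 1 ≠ 0)
      field_simp
    rw [h3, Real.rpow_one]
  have hRN : ∀ i, R ≤ K * ((B i).card : ℝ) ^ e := by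
    intro i
    have h3 : (m ^ k : ℝ) ≤ K * n * ((B i).card : ℝ) ^ (e * (2 * k - 1)) := by
      rw [hm, hn]
      exact_mod_cast hsize i
    have h4 : m ^ k / n ≤ K * ((B i).card : ℝ) ^ (e * (2 * k - 1)) := by
      rw [div_le_iff₀ (by linarith)]
      calc m ^ k ≤ K * n * ((B i).card : ℝ) ^ (e * (2 * k - 1)) := h3
        _ = K * ((B i).card : ℝ) ^ (e * (2 * k - 1)) * n := by ring
    have h5 : R ^ (2 * k - 1) ≤ (K * ((B i).card : ℝ) ^ e) ^ (2 * k - 1) := by
      rw [hRpow, mul_pow, ← pow_mul]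
      refine h4.trans ?_
      refine mul_le_mul_of_nonneg_right ?_ (by positivity)
      exact le_self_pow₀ hKr (by omega)
    exact le_of_pow_le_pow_left₀ (by omega) (by positivity) h5
  set T : ℝ := (R / K) ^ ((1 : ℝ) / e) with hT
  have hT0 : 0 ≤ T := Real.rpow_nonneg (by positivity) _
  have he0 : (e : ℝ) ≠ 0 := by exact_mod_cast (by omega : e ≠ 0)
  have hTe : T ^ e = R / K := by
    rw [hT, ← Real.rpow_natCast, ← Real.rpow_mul (by positivity)]
    have h3 : (1 : ℝ) / e * e = 1 := by field_simp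
    rw [h3, Real.rpow_one]
  set D : ℝ := max 1 T with hD
  have hD1 : 1 ≤ D := le_max_left _ _
  have hTD : T ≤ D := le_max_right _ _
  have hDN : ∀ i, D ≤ ((B i).card : ℝ) := by
    intro i
    refine max_le (by exact_mod_cast hN i) ?_
    have h3 : T ^ e ≤ ((B i).card : ℝ) ^ e := by
      rw [hTe, div_le_iff₀ hK0]
      calc R ≤ K * ((B i).card : ℝ) ^ e := hRN i
        _ = ((B i).card : ℝ) ^ e * K := by ring
    exact le_of_pow_le_pow_left₀ (by omega) (Nat.cast_nonneg _) h3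
  have hDe : D ^ e ≤ R := by
    rcases max_cases 1 T with ⟨h3, _⟩ | ⟨h3, _⟩
    · rw [hD, h3, one_pow]
      exact hR1
    · rw [hD, h3, hTe]
      exact div_le_self hR0.le hKr
  have hRK : R / K ≤ D ^ e := by
    rw [← hTe]
    exact pow_le_pow_left₀ hT0 hTD e
  have hfin := hcore B P F hF hPB hdense hPne hFne
    ((P ×ˢ F).filter fun q => q.1 ∈ q.2) (Finset.filter_subset _ _)
    (fun q hq => (Finset.mem_filter.1 hq).2) R D rfl hD1 ∅ ∅ (Finset.Subset.refl _)
    (by simp) (fun i => ⟨fun h => absurd h (Finset.notMem_empty _),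
      fun h => absurd h (not_lt.2 (hDN i))⟩)
    (fun q _ => ⟨by
      obtain ⟨X, hX⟩ := exists_isB (tan C q.2 q.1)
      exact ⟨X, Finset.empty_subset _, hX⟩, fun v _ _ j hj => absurd hj (Finset.notMem_empty _)⟩)
    (by
      rw [Finset.prod_empty, Finset.card_empty, Nat.sub_zero, one_mul, Nat.cast_one, one_mul]
      exact hDe)
    (by
      rw [Finset.prod_empty, Finset.card_empty, Nat.sub_zero, Nat.sub_zero, one_mul, one_mul]
      have h3 : D ^ (2 * e) = D ^ e * D ^ e := by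
        rw [two_mul, pow_add]
      rw [h3]
      have h4 : R ≤ K * D ^ e := by
        have := (div_le_iff₀ hK0).1 hRK
        linarith
      have h5 : 0 ≤ D ^ e := by positivity
      calc R * D ^ e ≤ (K * D ^ e) * D ^ e := mul_le_mul_of_nonneg_right h4 h5
        _ = K * (D ^ e * D ^ e) := by ring)
  have h6 : (inc P F : ℝ) ≤ A1 * Y := by
    have h7 : inc P F = ((P ×ˢ F).filter fun q => q.1 ∈ q.2).card := by
      unfold inc
      congr
    rw [h7]
    exact hfin
  have h8 : (A1 + (k + C * k)) * (Y + m + n) =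
      A1 * Y + ((A1 * (m + n) + (k + C * k) * (Y + m)) + (k + C * k) * n) := by ring
  rw [h8]
  have h9 : 0 ≤ ((k : ℝ) + C * k) * n := by positivity
  linarith

end HDI
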