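import Mathlib

/-!
# HDI-Weights: choice of the scale `D` (Mathlib only)

The minimum over `X ∈ 𝒳` of the products `∏ i ∈ X, min (N i) D` is a continuous function of `D`; the
intermediate value theorem gives a `D` where it equals `R`.
-/

namespace HDI

theorem weights {n : ℕ} (𝒳 : Finset (Finset (Fin n))) (hne : 𝒳.Nonempty) (N : Fin n → ℕ)
    (hN : ∀ i, 1 ≤ N i) (R : ℝ) (hR : 1 ≤ R) (hR' : ∀ X ∈ 𝒳, R < ∏ i ∈ X, (N i : ℝ)) :
    ∃ D : ℝ, 1 ≤ D ∧ ∃ X ∈ 𝒳, ∏ i ∈ X, min (N i : ℝ) D = R ∧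
      ∀ Y ∈ 𝒳, R ≤ ∏ i ∈ Y, min (N i : ℝ) D := by
  set w : ℝ → ℝ := fun D => 𝒳.inf' hne (fun X => ∏ i ∈ X, min (N i : ℝ) D) with hw
  have hc : Continuous w := by
    rw [hw]
    apply Continuous.finset_inf'_apply
    intro X _
    exact continuous_finsetProd _ fun i _ => continuous_const.min continuous_id
  have h1 : w 1 ≤ R := by
    obtain ⟨X, hX⟩ := hne
    refine le_trans (Finset.inf'_le _ hX) ?_
    have h2 : ∏ i ∈ X, min (N i : ℝ) 1 = 1 := by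
      apply Finset.prod_eq_one
      intro i _
      exact min_eq_right (by exact_mod_cast hN i)
    rw [h2]
    exact hR
  set D0 : ℝ := ∑ i, (N i : ℝ) + 1 with hD0
  have hle : ∀ i, (N i : ℝ) ≤ D0 := by
    intro i
    have h3 : (N i : ℝ) ≤ ∑ j, (N j : ℝ) :=
      Finset.single_le_sum (f := fun j => (N j : ℝ)) (fun j _ => Nat.cast_nonneg _)
        (Finset.mem_univ i)
    rw [hD0]
    linarith
  have h1D : (1 : ℝ) ≤ D0 := by
    have h3 : (0 : ℝ) ≤ ∑ j, (N j : ℝ) := Finset.sum_nonneg fun j _ => Nat.cast_nonneg _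
    rw [hD0]
    linarith
  have h2 : R ≤ w D0 := by
    rw [hw]
    refine Finset.le_inf' _ _ fun X hX => ?_
    have h3 : ∏ i ∈ X, min (N i : ℝ) D0 = ∏ i ∈ X, (N i : ℝ) :=
      Finset.prod_congr rfl fun i _ => min_eq_left (hle i)
    rw [h3]
    exact (hR' X hX).le
  obtain ⟨D, hD, hDR⟩ := intermediate_value_Icc h1D hc.continuousOn ⟨h1, h2⟩
  obtain ⟨X, hX, hXe⟩ := Finset.exists_mem_eq_inf' hne (fun X => ∏ i ∈ X, min (N i : ℝ) D)
  refine ⟨D, hD.1, X, hX, ?_, ?_⟩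
  · rw [← hDR, hw]
    exact hXe.symm
  · intro Y hY
    rw [← hDR, hw]
    exact Finset.inf'_le _ hY

end HDI
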