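import Mathlib
import Pool.Agent.HDI.Core
import Pool.Agent.HDI.Triv
import Pool.Agent.HDI.ComplB
import Pool.Agent.HDI.Exch
import Pool.Agent.HDI.Weights

/-!
# HDI-PartT: all Cartesian products, transversal surfaces
-/

namespace HDI

private theorem prod_min {n : ℕ} (N : Fin n → ℕ) (D : ℝ) (J : Finset (Fin n))
    (hJ : ∀ i, i ∈ J ↔ (N i : ℝ) < D) (Z : Finset (Fin n)) :
    ∏ i ∈ Z, min (N i : ℝ) D = (∏ i ∈ Z ∩ J, (N i : ℝ)) * D ^ (Z.card - (Z ∩ J).card) := by
  classical
  have h1 : ∏ i ∈ Z, min (N i : ℝ) D =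
      (∏ i ∈ Z ∩ J, min (N i : ℝ) D) * ∏ i ∈ Z \ J, min (N i : ℝ) D := by
    rw [← Finset.prod_union (Finset.disjoint_of_subset_left Finset.inter_subset_right
      Finset.disjoint_sdiff), Finset.union_comm, Finset.sdiff_union_inter]
  have h2 : ∏ i ∈ Z ∩ J, min (N i : ℝ) D = ∏ i ∈ Z ∩ J, (N i : ℝ) :=
    Finset.prod_congr rfl fun i hi =>
      min_eq_left ((hJ i).1 (Finset.mem_inter.1 hi).2).le
  have h3 : ∏ i ∈ Z \ J, min (N i : ℝ) D = D ^ (Z.card - (Z ∩ J).card) := by
    have h4 : ∏ i ∈ Z \ J, min (N i : ℝ) D = ∏ _i ∈ Z \ J, D :=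
      Finset.prod_congr rfl fun i hi =>
        min_eq_right (not_lt.1 fun h => (Finset.mem_sdiff.1 hi).2 ((hJ i).2 h))
    rw [h4, Finset.prod_const]
    have h5 := Finset.card_sdiff_add_card_inter Z J
    have h6 : (Z \ J).card = Z.card - (Z ∩ J).card := by omega
    rw [h6]
  rw [h1, h2, h3]

private theorem type_bound (e k C K : ℕ) (hk : 2 ≤ k) (A1 : ℝ) (hA1 : 0 < A1) (K' : ℕ)
    (hcore : ∀ (B : Fin (2 * e) → Finset ℝ) (P : Finset (Fin (2 * e) → ℝ))
      (F : Finset (Set (Fin (2 * e) → ℝ))),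
      Admissible e k C F → P ⊆ Fintype.piFinset B → (∏ i, (B i).card) ≤ K * P.card →
      P.Nonempty → F.Nonempty →
      ∀ E : Finset ((Fin (2 * e) → ℝ) × Set (Fin (2 * e) → ℝ)), E ⊆ P ×ˢ F →
      (∀ q ∈ E, q.1 ∈ q.2) →
      ∀ (R D : ℝ), R = ((P.card : ℝ) ^ k / (F.card : ℝ)) ^ ((1 : ℝ) / (2 * k - 1)) → 1 ≤ D →
      ∀ J X' : Finset (Fin (2 * e)), X' ⊆ J → X'.card ≤ e →
      (∀ i, i ∈ J ↔ ((B i).card : ℝ) < D) →
      (∀ q ∈ E, (∃ X, X' ⊆ X ∧ IsB (tan C q.2 q.1) X) ∧
        (∀ v ∈ tan C q.2 q.1, (∀ i ∈ X', v i = 0) → ∀ j ∈ J, v j = 0)) →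
      (∏ i ∈ X', ((B i).card : ℝ)) * D ^ (e - X'.card) ≤ (1 : ℕ) * R →
      R * ((∏ i ∈ X', ((B i).card : ℝ)) * D ^ (e - X'.card)) ≤
        (1 : ℕ) * ((∏ i ∈ J, ((B i).card : ℝ)) * D ^ (2 * e - J.card)) →
      (E.card : ℝ) ≤ A1 * ((P.card : ℝ) ^ ((k : ℝ) / (2 * k - 1)) *
        (F.card : ℝ) ^ ((2 * k - 2 : ℝ) / (2 * k - 1))))
    (hcells : ∀ S : Set (Fin (2 * e) → ℝ),
      IsSurface e C S → ∀ (B Θ : Fin (2 * e) → Finset ℝ) (J X' : Finset (Fin (2 * e))),
      X' ⊆ J → ∀ Q : Finset (Fin (2 * e) → ℝ),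
      (∀ p ∈ Q, p ∈ S ∧ (∀ i, p i ∈ B i) ∧ (∀ i, p i ∉ Θ i) ∧
        (∃ X, X' ⊆ X ∧ IsB (tan C S p) X) ∧
        (∀ v ∈ tan C S p, (∀ i ∈ X', v i = 0) → ∀ j ∈ J, v j = 0)) →
      (Q.image (lab J Θ)).card ≤
        K' * (∏ i ∈ X', (B i).card) * (∑ i ∈ Jᶜ, (Θ i).card + 1) ^ (e - X'.card))
    (B : Fin (2 * e) → Finset ℝ) (P : Finset (Fin (2 * e) → ℝ))
    (F : Finset (Set (Fin (2 * e) → ℝ))) (hF : Admissible e k C F)
    (hPB : P ⊆ Fintype.piFinset B) (hdense : (∏ i, (B i).card) ≤ K * P.card)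
    (hPne : P.Nonempty) (hFne : F.Nonempty) (hT : Transversal C P F)
    (hnm : (F.card : ℝ) ≤ (P.card : ℝ) ^ k)
    (E : Finset ((Fin (2 * e) → ℝ) × Set (Fin (2 * e) → ℝ))) (hEs : E ⊆ P ×ˢ F)
    (hEm : ∀ q ∈ E, q.1 ∈ q.2) (τ : Finset (Finset (Fin (2 * e))))
    (hτ : ∀ q ∈ E, ∀ X, X ∈ τ ↔ IsB (tan C q.2 q.1) X) :
    (E.card : ℝ) ≤ (A1 + K') * ((P.card : ℝ) ^ ((k : ℝ) / (2 * k - 1)) *
        (F.card : ℝ) ^ ((2 * k - 2 : ℝ) / (2 * k - 1))) + P.card := by
  classical
  set m : ℝ := (P.card : ℝ) with hm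
  set n : ℝ := (F.card : ℝ) with hn
  have hm1 : (1 : ℝ) ≤ m := by
    rw [hm]
    exact_mod_cast Finset.card_pos.2 hPne
  have hn1 : (1 : ℝ) ≤ n := by
    rw [hn]
    exact_mod_cast Finset.card_pos.2 hFne
  set Y : ℝ := m ^ ((k : ℝ) / (2 * k - 1)) * n ^ ((2 * k - 2 : ℝ) / (2 * k - 1)) with hY
  have hY0 : 0 ≤ Y := mul_nonneg (Real.rpow_nonneg (by linarith) _)
    (Real.rpow_nonneg (by linarith) _)
  set R : ℝ := (m ^ k / n) ^ ((1 : ℝ) / (2 * k - 1)) with hR
  have hR1 : 1 ≤ R := one_le_R k hk m n hm1 hn1 hnm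
  have hnR : n * R = Y := nR_eq k hk m n hm1 hn1
  have hK'0 : (0 : ℝ) ≤ K' := Nat.cast_nonneg _
  have hN : ∀ i, 1 ≤ (B i).card := by
    intro i
    obtain ⟨p, hp⟩ := hPne
    exact Finset.card_pos.2 ⟨p i, Fintype.mem_piFinset.1 (hPB hp) i⟩
  by_cases h1 : ∀ q ∈ E, ∀ q' ∈ E, q.1 = q'.1 → q.2 = q'.2
  · have h2 : E.card ≤ P.card := by
      refine Finset.card_le_card_of_injOn Prod.fst ?_ ?_
      · intro q hq
        exact (Finset.mem_product.1 (hEs hq)).1
      · intro q hq q' hq' h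
        exact Prod.ext h (h1 q hq q' hq' h)
    have h3 : (E.card : ℝ) ≤ m := by
      rw [hm]
      exact_mod_cast h2
    have h4 : 0 ≤ (A1 + K') * Y := mul_nonneg (by linarith) hY0
    linarith
  · push Not at h1
    obtain ⟨⟨p, S⟩, hq, ⟨p', T⟩, hq', h2, h3⟩ := h1
    simp only at h2 h3
    subst h2
    have hpP : p ∈ P := (Finset.mem_product.1 (hEs hq)).1
    have hSF : S ∈ F := (Finset.mem_product.1 (hEs hq)).2
    have hTF : T ∈ F := (Finset.mem_product.1 (hEs hq')).2
    have hpS : p ∈ S := hEm _ hq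
    have hpT : p ∈ T := hEm _ hq'
    have hfS := finrank_tan (hF.surf S hSF) hpS
    have hfT := finrank_tan (hF.surf T hTF) hpT
    obtain ⟨X0, hX0, hX0c⟩ := compl_bases' (tan C S p) (tan C T p) hfS hfT
      (fun v hv hv' => hT p hpP S hSF T hTF h3 hpS hpT v hv hv')
    have hX0τ : X0 ∈ τ := (hτ _ hq X0).2 hX0
    have hX0cτ : X0ᶜ ∈ τ := (hτ _ hq' X0ᶜ).2 hX0c
    have hcard : ∀ X ∈ τ, X.card = e := fun X hX => ((hτ _ hq X).1 hX).1.trans hfS
    by_cases h4 : ∃ X ∈ τ, ∏ i ∈ X, ((B i).card : ℝ) ≤ R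
    · obtain ⟨X, hXτ, hXR⟩ := h4
      have h5 : ∀ S' ∈ F, ((E.filter fun q => q.2 = S').card : ℝ) ≤ K' * R := by
        intro S' hS'
        have h6 : (E.filter fun q => q.2 = S').card ≤
            (P.filter fun p => (p, S') ∈ E).card := by
          refine Finset.card_le_card_of_injOn Prod.fst ?_ ?_
          · intro q hq
            have h7 := Finset.mem_filter.1 (Finset.mem_coe.1 hq)
            refine Finset.mem_coe.2 (Finset.mem_filter.2 ⟨(Finset.mem_product.1 (hEs h7.1)).1, ?_⟩)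
            rw [← h7.2]
            exact h7.1
          · intro q hq q' hq' h
            have h7 := Finset.mem_filter.1 (Finset.mem_coe.1 hq)
            have h8 := Finset.mem_filter.1 (Finset.mem_coe.1 hq')
            exact Prod.ext h (h7.2.trans h8.2.symm)
        have h7 := hcells S' (hF.surf S' hS') B (fun _ => ∅) Finset.univ X
          (Finset.subset_univ _) (P.filter fun p => (p, S') ∈ E) (by
            intro p hp
            have h8 := Finset.mem_filter.1 hp
            have h9 : IsB (tan C S' p) X := (hτ _ h8.2 X).1 hXτ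
            refine ⟨hEm _ h8.2, fun i => Fintype.mem_piFinset.1 (hPB h8.1) i,
              fun i => Finset.notMem_empty _, ⟨X, Finset.Subset.refl _, h9⟩, ?_⟩
            intro v hv hv0 j _
            rw [h9.2 v hv hv0]
            rfl)
        have h8 : (P.filter fun p => (p, S') ∈ E).image (lab Finset.univ fun _ => ∅) =
            P.filter fun p => (p, S') ∈ E := by
          have h9 : (lab Finset.univ fun _ => ∅ : (Fin (2 * e) → ℝ) → Fin (2 * e) → ℝ) = id := by
            funext p i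
            simp [lab]
          rw [h9, Finset.image_id]
        rw [h8, Finset.compl_univ, Finset.sum_empty, zero_add, one_pow, mul_one] at h7
        have h9 : ((E.filter fun q => q.2 = S').card : ℝ) ≤
            (K' * ∏ i ∈ X, (B i).card : ℕ) := by
          exact_mod_cast h6.trans h7
        refine h9.trans ?_
        push_cast
        exact mul_le_mul_of_nonneg_left hXR hK'0
      have h6 : (E.card : ℝ) ≤ n * (K' * R) := by
        have h7 : E.card = ∑ S' ∈ F, (E.filter fun q => q.2 = S').card :=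
          Finset.card_eq_sum_card_fiberwise fun q hq => (Finset.mem_product.1 (hEs hq)).2
        rw [h7]
        push_cast
        refine (Finset.sum_le_sum h5).trans ?_
        rw [Finset.sum_const, nsmul_eq_mul]
      have h7 : n * (K' * R) = K' * Y := by
        rw [← hnR]
        ring
      have h8 : 0 ≤ A1 * Y := mul_nonneg hA1.le hY0
      rw [h7] at h6
      have h9 : (A1 + K') * Y = A1 * Y + K' * Y := by ring
      rw [h9]
      linarith
    · push Not at h4
      obtain ⟨D, hD1, X, hXτ, hXR, hXmin⟩ := weights τ ⟨X0, hX0τ⟩ (fun i => (B i).card) hN R hR1 h4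
      set J : Finset (Fin (2 * e)) := Finset.univ.filter fun i => ((B i).card : ℝ) < D with hJdef
      have hJ : ∀ i, i ∈ J ↔ ((B i).card : ℝ) < D := by
        intro i
        rw [hJdef, Finset.mem_filter]
        exact ⟨fun h => h.2, fun h => ⟨Finset.mem_univ _, h⟩⟩
      have hXc := hcard X hXτ
      have hprod : (∏ i ∈ X ∩ J, ((B i).card : ℝ)) * D ^ (e - (X ∩ J).card) = R := by
        have h5 := prod_min (fun i => (B i).card) D J hJ X
        rw [hXR, hXc] at h5
        exact h5.symm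
      have hfin := hcore B P F hF hPB hdense hPne hFne E hEs hEm R D rfl hD1 J (X ∩ J)
        Finset.inter_subset_right ((Finset.card_le_card Finset.inter_subset_left).trans hXc.le)
        hJ ?_ ?_ ?_
      · have h5 : (A1 + K') * Y = A1 * Y + K' * Y := by ring
        have h6 : 0 ≤ K' * Y := mul_nonneg hK'0 hY0
        rw [h5]
        have h7 : (E.card : ℝ) ≤ A1 * Y := hfin
        linarith
      · intro q hq
        have hqX : IsB (tan C q.2 q.1) X := (hτ q hq X).1 hXτ
        refine ⟨⟨X, Finset.inter_subset_left, hqX⟩, ?_⟩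
        intro v hv hv0 j hj
        refine exch (tan C q.2 q.1) D (fun i => min ((B i).card : ℝ) D) ?_ ?_ X hqX ?_ v hv ?_ j ?_
        · intro i
          exact lt_min (by exact_mod_cast hN i) (by linarith)
        · intro i
          exact min_le_right _ _
        · intro Z hZ
          have h5 := hXmin Z ((hτ q hq Z).2 hZ)
          rw [← hXR] at h5
          exact h5
        · intro i hi hiD
          refine hv0 i (Finset.mem_inter.2 ⟨hi, (hJ i).2 ?_⟩)
          exact (min_lt_iff.1 hiD).resolve_right (lt_irrefl _)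
        · exact lt_of_le_of_lt (min_le_left _ _) ((hJ j).1 hj)
      · rw [hprod, Nat.cast_one, one_mul]
      · rw [hprod, Nat.cast_one, one_mul]
        have h5 := prod_min (fun i => (B i).card) D J hJ Finset.univ
        rw [Finset.univ_inter, Finset.card_univ, Fintype.card_fin] at h5
        rw [← h5, ← Finset.prod_mul_prod_compl X0]
        exact mul_le_mul (hXmin X0 hX0τ) (hXmin X0ᶜ hX0cτ) (by linarith)
          (le_trans (by linarith) (hXmin X0 hX0τ))

theorem partT (e k C K : ℕ) (he : 1 ≤ e) (hk : 2 ≤ k) (hC : 1 ≤ C) (hK : 1 ≤ K) :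
    ∃ A : ℝ, 0 < A ∧ ∀ (B : Fin (2 * e) → Finset ℝ) (P : Finset (Fin (2 * e) → ℝ))
      (F : Finset (Set (Fin (2 * e) → ℝ))),
      Admissible e k C F → P ⊆ Fintype.piFinset B → (∏ i, (B i).card) ≤ K * P.card →
      Transversal C P F →
      (inc P F : ℝ) ≤ A * ((P.card : ℝ) ^ ((k : ℝ) / (2 * k - 1)) *
        (F.card : ℝ) ^ ((2 * k - 2 : ℝ) / (2 * k - 1)) + P.card + F.card) := by
  classical
  obtain ⟨A1, hA1, hcore⟩ := core e k C K 1 1 he hk hC hK le_rfl le_rfl
  obtain ⟨K', hcells⟩ := cells_T e C hC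
  set T : ℝ := (Fintype.card (Finset (Finset (Fin (2 * e)))) : ℝ) with hT
  have hT0 : 0 ≤ T := Nat.cast_nonneg _
  have hK'0 : (0 : ℝ) ≤ K' := Nat.cast_nonneg _
  have hk0 : (0 : ℝ) ≤ k := Nat.cast_nonneg _
  have hC0 : (0 : ℝ) ≤ C := Nat.cast_nonneg _
  refine ⟨T * (A1 + K') + T + (k + C * k) + 1, ?_, ?_⟩
  · have h1 : 0 ≤ T * (A1 + K') := mul_nonneg hT0 (by linarith)
    have h2 : 0 ≤ (C : ℝ) * k := mul_nonneg hC0 hk0
    linarith
  · intro B P F hF hPB hdense htr
    have h1 : 0 ≤ T * (A1 + K') := mul_nonneg hT0 (by linarith)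
    have h2 : 0 ≤ (C : ℝ) * k := mul_nonneg hC0 hk0
    set m : ℝ := (P.card : ℝ) with hm
    set n : ℝ := (F.card : ℝ) with hn
    have hm0 : 0 ≤ m := Nat.cast_nonneg _
    have hn0 : 0 ≤ n := Nat.cast_nonneg _
    set Y : ℝ := m ^ ((k : ℝ) / (2 * k - 1)) * n ^ ((2 * k - 2 : ℝ) / (2 * k - 1)) with hY
    have hY0 : 0 ≤ Y := mul_nonneg (Real.rpow_nonneg hm0 _) (Real.rpow_nonneg hn0 _)
    set A : ℝ := T * (A1 + K') + T + (k + C * k) + 1 with hA
    have hA0 : 0 ≤ A := by linarith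
    rcases P.eq_empty_or_nonempty with hP | hPne
    · have h3 : inc P F = 0 := by
        unfold inc
        rw [hP, Finset.empty_product, Finset.filter_empty, Finset.card_empty]
      rw [h3, Nat.cast_zero]
      exact mul_nonneg hA0 (by linarith)
    rcases F.eq_empty_or_nonempty with hFe | hFne
    · have h3 : inc P F = 0 := by
        unfold inc
        rw [hFe, Finset.product_empty, Finset.filter_empty, Finset.card_empty]
      rw [h3, Nat.cast_zero]
      exact mul_nonneg hA0 (by linarith)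
    by_cases hnm : n ≤ m ^ k
    · have h3 : (inc P F : ℝ) ≤ T * ((A1 + K') * Y + m) := by
        have h4 : inc P F = ∑ τ : Finset (Finset (Fin (2 * e))),
            (((P ×ˢ F).filter fun q => q.1 ∈ q.2).filter fun q =>
              (Finset.univ.filter fun X => IsB (tan C q.2 q.1) X) = τ).card := by
          unfold inc
          exact Finset.card_eq_sum_card_fiberwise fun q _ => Finset.mem_coe.2 (Finset.mem_univ _)
        rw [h4]
        push_cast
        have h5 : T * ((A1 + K') * Y + m) =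
            ∑ _τ : Finset (Finset (Fin (2 * e))), ((A1 + K') * Y + m) := by
          rw [Finset.sum_const, nsmul_eq_mul, Finset.card_univ]
        rw [h5]
        refine Finset.sum_le_sum fun τ _ => ?_
        refine type_bound e k C K hk A1 hA1 K' hcore hcells B P F hF hPB hdense hPne hFne htr hnm
          _ ?_ ?_ τ ?_
        · exact (Finset.filter_subset _ _).trans (Finset.filter_subset _ _)
        · intro q hq
          exact (Finset.mem_filter.1 (Finset.mem_filter.1 hq).1).2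
        · intro q hq X
          rw [← (Finset.mem_filter.1 hq).2, Finset.mem_filter]
          exact ⟨fun h => h.2, fun h => ⟨Finset.mem_univ _, h⟩⟩
      refine h3.trans ?_
      have h4 : A * (Y + m + n) - T * ((A1 + K') * Y + m) =
          (T + (k + C * k) + 1) * Y + (T * (A1 + K') + (k + C * k) + 1) * m + A * n := by
        rw [hA]
        ring
      have h5 : 0 ≤ (T + (k + C * k) + 1) * Y := mul_nonneg (by linarith) hY0
      have h6 : 0 ≤ (T * (A1 + K') + (k + C * k) + 1) * m := mul_nonneg (by linarith) hm0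
      have h7 : 0 ≤ A * n := mul_nonneg hA0 hn0
      linarith
    · have h3 := inc_le_one hk P F hF
      push Not at hnm
      have h4 : (C : ℝ) * k * m ^ k ≤ C * k * n := mul_le_mul_of_nonneg_left hnm.le h2
      have h5 : (inc P F : ℝ) ≤ (k + C * k) * n := by
        have h6 : (k + C * k : ℝ) * n = k * n + C * k * n := by ring
        rw [h6]
        linarith
      refine h5.trans ?_
      have h6 : A * (Y + m + n) - (k + C * k) * n =
          A * Y + A * m + (T * (A1 + K') + T + 1) * n := by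
        rw [hA]
        ring
      have h7 : 0 ≤ A * Y := mul_nonneg hA0 hY0
      have h8 : 0 ≤ A * m := mul_nonneg hA0 hm0
      have h9 : 0 ≤ (T * (A1 + K') + T + 1) * n := mul_nonneg (by linarith) hn0
      linarith

end HDI
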